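import Pool.Agent.Lib.MP_e95c01_co.W.Defs

/-!
# Weighted class graphs: basic lemmas
-/

namespace Pool.Agent.Lib.MP_e95c01_co.W

variable {C : Type} [Fintype C] [DecidableEq C] {G : WG C}

namespace WG

theorem Low.cls {z : C} (h : G.Low z) : G.Cls z := h.2
theorem Pr.cls {z : C} (h : G.Pr z) : G.Cls z := G.pr z h

theorem w_pos (G : WG C) (z : C) : 1 ≤ G.w z := by
  rcases G.w12 z with h | h <;> omega

theorem Hub.w {z : C} (h : G.Hub z) : G.w z = 1 := by
  rcases G.w12 z with h1 | h1
  · exact h1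
  · exact absurd (G.pr z h1) h

theorem Hub.deg {z : C} (h : G.Hub z) : 7 ≤ G.wt (G.nb z) := by
  have h1 : 6 ≤ G.wt (G.nb z) := G.deg z
  have h2 : G.wt (G.nb z) ≠ 6 := h
  omega

/-- every node is low, a pair or a hub -/
theorem cases (G : WG C) (z : C) : G.Low z ∨ G.Pr z ∨ G.Hub z := by
  by_cases h : G.wt (G.nb z) = 6
  · rcases G.w12 z with h1 | h1
    · exact Or.inl ⟨h1, h⟩
    · exact Or.inr (Or.inl h1)
  · exact Or.inr (Or.inr h)

theorem Cls.cases {z : C} (h : G.Cls z) : G.Low z ∨ G.Pr z := by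
  rcases G.w12 z with h1 | h1
  · exact Or.inl ⟨h1, h⟩
  · exact Or.inr h1

theorem mem_symm {z y : C} (h : y ∈ G.nb z) : z ∈ G.nb y := G.sym z y h

theorem mem_comm {z y : C} : y ∈ G.nb z ↔ z ∈ G.nb y := ⟨G.sym z y, G.sym y z⟩

theorem ne_of_mem {z y : C} (h : y ∈ G.nb z) : y ≠ z := by
  rintro rfl
  exact G.irr _ h

theorem wt_mono {A B : Finset C} (h : A ⊆ B) : G.wt A ≤ G.wt B :=
  Finset.sum_le_sum_of_subset h

theorem wt_insert_le (a : C) (A : Finset C) : G.wt (insert a A) ≤ G.w a + G.wt A := by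
  by_cases h : a ∈ A
  · rw [Finset.insert_eq_of_mem h]; omega
  · rw [wt, Finset.sum_insert h]; rfl

theorem wt_insert {a : C} {A : Finset C} (h : a ∉ A) : G.wt (insert a A) = G.w a + G.wt A := by
  rw [wt, Finset.sum_insert h]; rfl

@[simp] theorem wt_singleton (a : C) : G.wt {a} = G.w a := by simp [wt]

@[simp] theorem wt_empty : G.wt (∅ : Finset C) = 0 := by simp [wt]

/-- if `A` is a part of `B` with at least the weight of `B`, then `A = B` -/
theorem eq_of_wt {A B : Finset C} (h : A ⊆ B) (hw : G.wt B ≤ G.wt A) : A = B := by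
  apply Finset.Subset.antisymm h
  intro b hb
  by_contra hA
  have h1 : G.wt (insert b A) = G.w b + G.wt A := wt_insert hA
  have h2 : G.wt (insert b A) ≤ G.wt B := wt_mono (Finset.insert_subset hb h)
  have := G.w_pos b
  omega

/-! ### lists of nodes -/

/-- weight of a list of nodes -/
def lw (G : WG C) (L : List C) : ℕ := (L.map G.w).sum

@[simp] theorem lw_nil : G.lw [] = 0 := rfl
@[simp] theorem lw_cons (a : C) (L : List C) : G.lw (a :: L) = G.w a + G.lw L := by simp [lw]

theorem wt_toFinset_le (L : List C) : G.wt L.toFinset ≤ G.lw L := by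
  induction L with
  | nil => simp
  | cons a L ih =>
    rw [List.toFinset_cons, lw_cons]
    exact (wt_insert_le a _).trans (by omega)

theorem wt_toFinset {L : List C} (h : L.Nodup) : G.wt L.toFinset = G.lw L := by
  induction L with
  | nil => simp
  | cons a L ih =>
    rw [List.nodup_cons] at h
    rw [List.toFinset_cons, lw_cons, wt_insert (by simpa using h.1), ih h.2]

/-- distinct neighbours have total weight at most `wt (nb z)` -/
theorem lw_le {z : C} (L : List C) (hL : L.Nodup) (h : ∀ y ∈ L, y ∈ G.nb z) :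
    G.lw L ≤ G.wt (G.nb z) := by
  rw [← wt_toFinset hL]
  exact wt_mono fun y hy => h y (by simpa using hy)

/-- distinct neighbours of full total weight are all neighbours -/
theorem full {z : C} (L : List C) (hL : L.Nodup) (h : ∀ y ∈ L, y ∈ G.nb z)
    (hw : G.wt (G.nb z) ≤ G.lw L) {y : C} (hy : y ∈ G.nb z) : y ∈ L := by
  have h1 : L.toFinset = G.nb z := by
    apply eq_of_wt (G := G)
    · intro y hy
      exact h y (by simpa using hy)
    · rw [wt_toFinset hL]; exact hw
  rw [← h1] at hy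
  simpa using hy

/-- the basic contradiction: `S` of weight at most 6 with neighbours in `S ∪ T`, `T` of weight at
most 5 -/
theorem conn' (G : WG C) (S T : List C) (hS : S ≠ []) (h : ∀ z ∈ S, ∀ y ∈ G.nb z, y ∈ S ∨ y ∈ T)
    (h6 : G.lw S ≤ 6) (h5 : G.lw T ≤ 5) : False := by
  have h1 := G.conn S.toFinset T.toFinset (by
      obtain ⟨a, ha⟩ := List.exists_mem_of_ne_nil S hS
      exact ⟨a, by simpa using ha⟩) (by
      intro z hz y hy
      rcases h z (by simpa using hz) y hy with h2 | h2
      · exact Finset.mem_union_left _ (by simpa using h2)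
      · exact Finset.mem_union_right _ (by simpa using h2)) ((wt_toFinset_le S).trans h6)
  have h2 := wt_toFinset_le (G := G) T
  have h3 : 6 ≤ G.wt T.toFinset := h1
  omega

/-- common neighbours of two adjacent class nodes -/
theorem cbound {z z' : C} (hz : G.Cls z) (hz' : G.Cls z') (ha : z' ∈ G.nb z) (L : List C)
    (hL : L.Nodup) (h : ∀ y ∈ L, y ∈ G.nb z ∧ y ∈ G.nb z') : G.lw L + G.w z + G.w z' ≤ 6 := by
  have hne : z' ≠ z := ne_of_mem ha
  set A := (G.nb z).erase z' with hA
  set B := (G.nb z').erase z with hB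
  have hwA : G.wt A + G.w z' = 6 := by
    have h1 := Finset.sum_erase_add (G.nb z) G.w ha
    have h2 : ∑ y ∈ G.nb z, G.w y = 6 := hz
    rw [h2] at h1
    exact h1
  have hwB : G.wt B + G.w z = 6 := by
    have h1 := Finset.sum_erase_add (G.nb z') G.w (mem_symm ha)
    have h2 : ∑ y ∈ G.nb z', G.w y = 6 := hz'
    rw [h2] at h1
    exact h1
  have hU : G.wt (A ∪ B) + G.wt (A ∩ B) = G.wt A + G.wt B := Finset.sum_union_inter
  have h0 : 6 ≤ G.wt (A ∪ B) := by
    apply G.conn {z, z'} (A ∪ B) ⟨z, by simp⟩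
    · intro a ha y hy
      simp only [Finset.mem_union, Finset.mem_insert, Finset.mem_singleton, hA, hB,
        Finset.mem_erase] at ha ⊢
      rcases ha with rfl | rfl
      · by_cases h1 : y = z'
        · exact Or.inl (Or.inr h1)
        · exact Or.inr (Or.inl ⟨h1, hy⟩)
      · by_cases h1 : y = z
        · exact Or.inl (Or.inl h1)
        · exact Or.inr (Or.inr ⟨h1, hy⟩)
    · rw [Finset.sum_pair hne.symm]
      rcases G.w12 z with h1 | h1 <;> rcases G.w12 z' with h2 | h2 <;> omega
  have hI : G.lw L ≤ G.wt (A ∩ B) := by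
    rw [← wt_toFinset hL]
    apply wt_mono
    intro y hy
    obtain ⟨h1, h2⟩ := h y (by simpa using hy)
    simp only [Finset.mem_inter, hA, hB, Finset.mem_erase]
    exact ⟨⟨ne_of_mem h2, h1⟩, ⟨ne_of_mem h1, h2⟩⟩
  omega

/-- domination: every neighbour of `z` is adjacent to a class node adjacent to `z` -/
theorem dom {z y : C} (hy : y ∈ G.nb z) : ∃ d, G.Cls d ∧ d ∈ G.nb z ∧ d ∈ G.nb y := by
  obtain ⟨d, h1, h2, h3⟩ := G.cov z y hy
  exact ⟨d, h1, G.sym _ _ h2, G.sym _ _ h3⟩

end WG

end Pool.Agent.Lib.MP_e95c01_co.W
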