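import Mathlib

/-!
# Weighted class graphs (k = 6)

A node is a vertex of degree 6 or at least 7 (weight 1) or a twin pair (weight 2).
-/

namespace Pool.Agent.Lib.MP_e95c01_co.W

/-- Class graph of a 6-connected graph in which every edge lies in the neighbourhood of a node of
weighted degree 6. -/
structure WG (C : Type) [Fintype C] [DecidableEq C] where
  nb : C → Finset C
  w : C → ℕ
  irr : ∀ z, z ∉ nb z
  sym : ∀ z y, y ∈ nb z → z ∈ nb y
  w12 : ∀ z, w z = 1 ∨ w z = 2
  deg : ∀ z, 6 ≤ ∑ y ∈ nb z, w y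
  pr : ∀ z, w z = 2 → ∑ y ∈ nb z, w y = 6
  conn : ∀ S T : Finset C, S.Nonempty → (∀ z ∈ S, nb z ⊆ S ∪ T) → ∑ z ∈ S, w z ≤ 6 →
    6 ≤ ∑ z ∈ T, w z
  cov : ∀ a b, b ∈ nb a → ∃ z, ∑ y ∈ nb z, w y = 6 ∧ a ∈ nb z ∧ b ∈ nb z

variable {C : Type} [Fintype C] [DecidableEq C] (G : WG C)

namespace WG

/-- weight of a set of nodes -/
def wt (M : Finset C) : ℕ := ∑ y ∈ M, G.w y

/-- vertex of degree 6 -/
abbrev Low (z : C) : Prop := G.w z = 1 ∧ G.wt (G.nb z) = 6

/-- twin pair -/
abbrev Pr (z : C) : Prop := G.w z = 2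

/-- vertex of degree at least 7 -/
abbrev Hub (z : C) : Prop := G.wt (G.nb z) ≠ 6

/-- low vertex or twin pair -/
abbrev Cls (z : C) : Prop := G.wt (G.nb z) = 6

/-- number of low neighbours -/
def t (z : C) : ℕ := ((G.nb z).filter fun y => G.Low y).card
/-- number of neighbouring twin pairs -/
def q (z : C) : ℕ := ((G.nb z).filter fun y => G.Pr y).card
/-- number of neighbouring hubs -/
def e (z : C) : ℕ := ((G.nb z).filter fun y => G.Hub y).card

/-- the share that a class node gives to each of its hubs: `(2 - q)/e` for a low vertex,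
`(t - 2)/e` for a twin pair -/
def g (z : C) : ℚ := if G.w z = 1 then ((2 : ℚ) - G.q z) / G.e z else ((G.t z : ℚ) - 2) / G.e z

end WG

end Pool.Agent.Lib.MP_e95c01_co.W
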