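import Pool.Agent.Lib.MP_e95c01_co.W.Stmts

/-!
# Weighted class graphs: the final double counting
-/

namespace Pool.Agent.Lib.MP_e95c01_co.W

variable {C : Type} [Fintype C] [DecidableEq C]

namespace WG

theorem sum_q_eq_sum_t (G : WG C) :
    ∑ z ∈ Finset.univ.filter (fun z => G.Low z), (G.q z : ℚ) =
      ∑ z ∈ Finset.univ.filter (fun z => G.Pr z), (G.t z : ℚ) := by
  have h1 : ∀ z, (G.q z : ℚ) = ∑ y ∈ Finset.univ.filter (fun z => G.Pr z),
      if y ∈ G.nb z then (1 : ℚ) else 0 := by
    intro z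
    rw [q, Finset.card_filter, Nat.cast_sum, Finset.sum_filter, ← Finset.sum_filter_add_sum_filter_not
      Finset.univ (fun y => y ∈ G.nb z)]
    have hz : ∑ a ∈ Finset.univ.filter (fun y => ¬ y ∈ G.nb z),
        (if G.Pr a then if a ∈ G.nb z then (1 : ℚ) else 0 else 0) = 0 := by
      apply Finset.sum_eq_zero
      intro y hy
      rw [Finset.mem_filter] at hy
      simp [hy.2]
    rw [hz, add_zero]
    have hf : Finset.univ.filter (fun y => y ∈ G.nb z) = G.nb z := by
      ext y; simp
    rw [hf]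
    apply Finset.sum_congr rfl
    intro y hy
    by_cases h : G.Pr y
    · simp [h, hy]
    · simp [h]
  have h2 : ∀ z, (G.t z : ℚ) = ∑ y ∈ Finset.univ.filter (fun z => G.Low z),
      if y ∈ G.nb z then (1 : ℚ) else 0 := by
    intro z
    rw [t, Finset.card_filter, Nat.cast_sum, Finset.sum_filter, ← Finset.sum_filter_add_sum_filter_not
      Finset.univ (fun y => y ∈ G.nb z)]
    have hz : ∑ a ∈ Finset.univ.filter (fun y => ¬ y ∈ G.nb z),
        (if G.Low a then if a ∈ G.nb z then (1 : ℚ) else 0 else 0) = 0 := by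
      apply Finset.sum_eq_zero
      intro y hy
      rw [Finset.mem_filter] at hy
      simp [hy.2]
    rw [hz, add_zero]
    have hf : Finset.univ.filter (fun y => y ∈ G.nb z) = G.nb z := by
      ext y; simp
    rw [hf]
    apply Finset.sum_congr rfl
    intro y hy
    by_cases h : G.Low y
    · simp [h, hy]
    · simp [h]
  simp_rw [h1, h2]
  rw [Finset.sum_comm]
  apply Finset.sum_congr rfl
  intro y _
  apply Finset.sum_congr rfl
  intro z _
  by_cases h : y ∈ G.nb z
  · rw [if_pos h, if_pos (G.sym _ _ h)]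
  · rw [if_neg h, if_neg (fun h' => h (G.sym _ _ h'))]

theorem fin_of (G : WG C) (hP : G.StPair) (hL : G.StLow) (hH : G.StHub) : G.StFin := by
  classical
  set LL := Finset.univ.filter (fun z => G.Low z) with hLL
  set PP := Finset.univ.filter (fun z => G.Pr z) with hPP
  set HH := Finset.univ.filter (fun z => G.Hub z) with hHH
  -- the double counting of shares
  have h1 : (HH.card : ℚ) ≤ ∑ x ∈ HH, ∑ z ∈ (G.nb x).filter (fun z => G.Cls z), G.g z := by
    calc (HH.card : ℚ) = ∑ x ∈ HH, (1 : ℚ) := by simp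
      _ ≤ _ := Finset.sum_le_sum fun x hx => hH x (by simpa [hHH] using hx)
  have h2 : ∑ x ∈ HH, ∑ z ∈ (G.nb x).filter (fun z => G.Cls z), G.g z =
      ∑ z ∈ Finset.univ.filter (fun z => G.Cls z), (G.e z : ℚ) * G.g z := by
    rw [Finset.sum_comm' (t' := Finset.univ.filter (fun z => G.Cls z))
      (s' := fun z => (G.nb z).filter (fun y => G.Hub y))]
    · apply Finset.sum_congr rfl
      intro z _
      rw [Finset.sum_const, nsmul_eq_mul, e]
    · intro x z
      simp only [hHH, Finset.mem_filter, Finset.mem_univ, true_and]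
      constructor
      · rintro ⟨h1, h2, h3⟩
        exact ⟨⟨G.sym _ _ h2, h1⟩, h3⟩
      · rintro ⟨⟨h1, h2⟩, h3⟩
        exact ⟨h2, G.sym _ _ h1, h3⟩
  have h3 : Finset.univ.filter (fun z => G.Cls z) = LL ∪ PP := by
    ext z
    simp only [hLL, hPP, Finset.mem_union, Finset.mem_filter, Finset.mem_univ, true_and]
    constructor
    · exact fun h => Cls.cases h
    · rintro (h | h)
      · exact h.cls
      · exact h.cls
  have h4 : Disjoint LL PP := by
    rw [Finset.disjoint_left]
    intro z hz hz'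
    simp only [hLL, hPP, Finset.mem_filter, Finset.mem_univ, true_and] at hz hz'
    have := hz.1
    have h5 : G.w z = 2 := hz'
    omega
  have h5 : ∑ z ∈ LL, (G.e z : ℚ) * G.g z ≤ ∑ z ∈ LL, ((2 : ℚ) - G.q z) := by
    apply Finset.sum_le_sum
    intro z hz
    simp only [hLL, Finset.mem_filter, Finset.mem_univ, true_and] at hz
    have hq : (G.q z : ℚ) ≤ 2 := by exact_mod_cast hL.1 z hz
    rw [g, if_pos hz.1]
    by_cases he : (G.e z : ℚ) = 0
    · rw [he, zero_mul]; linarith
    · rw [mul_div_cancel₀ _ he]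
  have h6 : ∑ z ∈ PP, (G.e z : ℚ) * G.g z ≤ ∑ z ∈ PP, ((G.t z : ℚ) - 2) := by
    apply Finset.sum_le_sum
    intro z hz
    simp only [hPP, Finset.mem_filter, Finset.mem_univ, true_and] at hz
    have ht : (2 : ℚ) ≤ G.t z := by exact_mod_cast (hP z hz).1
    have hw : ¬ G.w z = 1 := by
      have : G.w z = 2 := hz
      omega
    rw [g, if_neg hw]
    by_cases he : (G.e z : ℚ) = 0
    · rw [he, zero_mul]; linarith
    · rw [mul_div_cancel₀ _ he]
  have h7 : (HH.card : ℚ) ≤ 2 * LL.card - 2 * PP.card := by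
    rw [h2, h3, Finset.sum_union h4] at h1
    rw [Finset.sum_sub_distrib, Finset.sum_const, nsmul_eq_mul] at h5 h6
    have h8 := sum_q_eq_sum_t G
    rw [← hLL, ← hPP] at h8
    linarith
  have h8 : HH.card + 2 * PP.card ≤ 2 * LL.card := by
    have : ((HH.card + 2 * PP.card : ℕ) : ℚ) ≤ ((2 * LL.card : ℕ) : ℚ) := by
      push_cast; linarith
    exact_mod_cast this
  -- the total weight
  have h9 : ∑ z, G.w z = LL.card + 2 * PP.card + HH.card := by
    have h1 : ∀ z, G.w z = (if G.Low z then 1 else 0) + 2 * (if G.Pr z then 1 else 0) +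
        (if G.Hub z then 1 else 0) := by
      intro z
      rcases G.cases z with h | h | h
      · have h1 : ¬ G.Pr z := by intro h2; have := h.1; have h3 : G.w z = 2 := h2; omega
        have h2 : ¬ G.Hub z := fun h2 => h2 h.2
        rw [if_pos h, if_neg h1, if_neg h2, h.1]
      · have h1 : ¬ G.Low z := by intro h2; have := h2.1; have h3 : G.w z = 2 := h; omega
        have h2 : ¬ G.Hub z := fun h2 => h2 h.cls
        rw [if_pos h, if_neg h1, if_neg h2]; exact h
      · have h1 : ¬ G.Low z := fun h2 => h h2.2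
        have h2 : ¬ G.Pr z := fun h2 => h h2.cls
        rw [if_pos h, if_neg h1, if_neg h2]; exact Hub.w h
    rw [Finset.sum_congr rfl fun z _ => h1 z, Finset.sum_add_distrib, Finset.sum_add_distrib,
      ← Finset.mul_sum, hLL, hPP, hHH, Finset.card_filter, Finset.card_filter, Finset.card_filter]
  unfold StFin
  rw [h9, ← hLL]
  omega

end WG

end Pool.Agent.Lib.MP_e95c01_co.W
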