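import Pool.Agent.Lib.MP_e95c01_co.W.Stmts

/-!
# The double counting: from the hub claim to the final inequality
-/

namespace Pool.Agent.Lib.MP_e95c01_co.W

variable {C : Type} [Fintype C] [DecidableEq C] {G : WG C}

namespace WG

theorem card_swap98 (G : WG C) (P Q : C → Prop) [DecidablePred P] [DecidablePred Q] :
    ∑ z ∈ Finset.univ.filter P, ((G.nb z).filter fun y => Q y).card =
      ∑ z ∈ Finset.univ.filter Q, ((G.nb z).filter fun y => P y).card := by
  simp_rw [Finset.card_eq_sum_ones]
  apply Finset.sum_comm'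
  intro x y
  simp only [Finset.mem_filter, Finset.mem_univ, true_and]
  constructor
  · rintro ⟨h1, h2, h3⟩
    exact ⟨⟨mem_symm h2, h1⟩, h3⟩
  · rintro ⟨⟨h1, h2⟩, h3⟩
    exact ⟨h2, mem_symm h1, h3⟩

theorem wsum98 (G : WG C) : ∑ z, G.w z = (Finset.univ.filter fun z => G.Low z).card +
    2 * (Finset.univ.filter fun z => G.Pr z).card +
    (Finset.univ.filter fun z => G.Hub z).card := by
  have h1 : ∀ y ∈ (Finset.univ : Finset C), G.w y = (if G.Low y then 1 else 0) +
      (if G.Pr y then 2 else 0) + (if G.Hub y then 1 else 0) := by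
    intro y _
    rcases G.cases y with h | h | h
    · have h1 : ¬ G.Pr y := by intro h2; have := h.1; have h3 : G.w y = 2 := h2; omega
      have h2 : ¬ G.Hub y := fun h2 => h2 h.2
      rw [if_pos h, if_neg h1, if_neg h2, h.1]
    · have h1 : ¬ G.Low y := by intro h2; have := h2.1; have h3 : G.w y = 2 := h; omega
      have h2 : ¬ G.Hub y := fun h2 => h2 h.cls
      rw [if_pos h, if_neg h1, if_neg h2]; exact h
    · have h1 : ¬ G.Low y := fun h2 => h h2.2
      have h2 : ¬ G.Pr y := fun h2 => h h2.cls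
      rw [if_pos h, if_neg h1, if_neg h2]; exact h.w
  rw [Finset.sum_congr rfl h1, Finset.sum_add_distrib, Finset.sum_add_distrib,
    ← Finset.sum_filter, ← Finset.sum_filter, ← Finset.sum_filter]
  simp [mul_comm]

theorem fin_98 (hP : G.StPair) (hL : G.StLow) (hH : G.StHub) : G.StFin := by
  have h1 : ((Finset.univ.filter fun z => G.Hub z).card : ℚ) ≤
      ∑ x ∈ Finset.univ.filter (fun z => G.Hub z),
        ∑ z ∈ (G.nb x).filter (fun z => G.Cls z), G.g z := by
    rw [Finset.cast_card]
    apply Finset.sum_le_sum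
    intro x hx
    rw [Finset.mem_filter] at hx
    exact hH x hx.2
  have h2 : ∑ x ∈ Finset.univ.filter (fun z => G.Hub z),
        ∑ z ∈ (G.nb x).filter (fun z => G.Cls z), G.g z =
      ∑ z ∈ Finset.univ.filter (fun z => G.Cls z),
        ∑ x ∈ (G.nb z).filter (fun x => G.Hub x), G.g z := by
    apply Finset.sum_comm'
    intro x y
    simp only [Finset.mem_filter, Finset.mem_univ, true_and]
    constructor
    · rintro ⟨h1, h2, h3⟩
      exact ⟨⟨mem_symm h2, h1⟩, h3⟩
    · rintro ⟨⟨h1, h2⟩, h3⟩
      exact ⟨h2, mem_symm h1, h3⟩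
  have h3 : ∀ z ∈ Finset.univ.filter (fun z => G.Cls z),
      ∑ x ∈ (G.nb z).filter (fun x => G.Hub x), G.g z ≤
        (if G.Low z then (2 : ℚ) - G.q z else 0) + (if G.Pr z then (G.t z : ℚ) - 2 else 0) := by
    intro z hz
    rw [Finset.mem_filter] at hz
    have he : ((G.nb z).filter fun x => G.Hub x).card = G.e z := rfl
    rw [Finset.sum_const, he, nsmul_eq_mul]
    rcases hz.2.cases with h | h
    · have hn : ¬ G.Pr z := by intro h2; have := h.1; have h3 : G.w z = 2 := h2; omega
      rw [if_pos h, if_neg hn, add_zero, g, if_pos h.1]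
      have hq : (G.q z : ℚ) ≤ 2 := by exact_mod_cast hL.1 z h
      by_cases h0 : G.e z = 0
      · rw [h0, Nat.cast_zero, zero_mul]; linarith
      · have h0' : (G.e z : ℚ) ≠ 0 := by exact_mod_cast h0
        rw [mul_div_cancel₀ _ h0']
    · have hn : ¬ G.Low z := by intro h2; have := h2.1; have h3 : G.w z = 2 := h; omega
      have hw : ¬ G.w z = 1 := by have h3 : G.w z = 2 := h; omega
      rw [if_neg hn, if_pos h, zero_add, g, if_neg hw]
      have ht : (2 : ℚ) ≤ G.t z := by exact_mod_cast (hP z h).1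
      by_cases h0 : G.e z = 0
      · rw [h0, Nat.cast_zero, zero_mul]; linarith
      · have h0' : (G.e z : ℚ) ≠ 0 := by exact_mod_cast h0
        rw [mul_div_cancel₀ _ h0']
  have h4 := Finset.sum_le_sum h3
  rw [Finset.sum_add_distrib, ← Finset.sum_filter, ← Finset.sum_filter, Finset.filter_filter,
    Finset.filter_filter] at h4
  have e1 : (Finset.univ.filter fun z => G.Cls z ∧ G.Low z) =
      Finset.univ.filter fun z => G.Low z := by
    apply Finset.filter_congr
    intro z _
    exact ⟨fun h => h.2, fun h => ⟨h.2, h⟩⟩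
  have e2 : (Finset.univ.filter fun z => G.Cls z ∧ G.Pr z) =
      Finset.univ.filter fun z => G.Pr z := by
    apply Finset.filter_congr
    intro z _
    exact ⟨fun h => h.2, fun h => ⟨h.cls, h⟩⟩
  rw [e1, e2, Finset.sum_sub_distrib, Finset.sum_sub_distrib, Finset.sum_const, Finset.sum_const,
    nsmul_eq_mul, nsmul_eq_mul] at h4
  have h5 := card_swap98 G (fun z => G.Low z) (fun z => G.Pr z)
  have h6 : (∑ z ∈ Finset.univ.filter (fun z => G.Low z), (G.q z : ℚ)) =
      ∑ z ∈ Finset.univ.filter (fun z => G.Pr z), (G.t z : ℚ) := by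
    exact_mod_cast h5
  rw [h6] at h4
  rw [h2] at h1
  have h7 : ((Finset.univ.filter fun z => G.Hub z).card : ℚ) +
      2 * (Finset.univ.filter fun z => G.Pr z).card ≤
        2 * (Finset.univ.filter fun z => G.Low z).card := by linarith
  have h8 : (Finset.univ.filter fun z => G.Hub z).card +
      2 * (Finset.univ.filter fun z => G.Pr z).card ≤
        2 * (Finset.univ.filter fun z => G.Low z).card := by exact_mod_cast h7
  rw [StFin, wsum98]
  omega

end WG

end Pool.Agent.Lib.MP_e95c01_co.W
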