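import Pool.Agent.Lib.MP_e95c01_co.W.Stmts

/-!
# The hub claim from the local statements (enumeration)
-/

namespace Pool.Agent.Lib.MP_e95c01_co.W

variable {C : Type} [Fintype C] [DecidableEq C] {G : WG C}

namespace WG

/-- class nodes adjacent to `x` -/
def D (G : WG C) (x : C) : Finset C := (G.nb x).filter fun z => G.Cls z

theorem mem_D {x z : C} : z ∈ G.D x ↔ z ∈ G.nb x ∧ G.Cls z := by simp [D]

theorem e_pos {x z : C} (hx : G.Hub x) (hz : z ∈ G.nb x) : 1 ≤ G.e z := by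
  rw [e, Nat.succ_le_iff, Finset.card_pos]
  exact ⟨x, by simpa using ⟨mem_symm hz, hx⟩⟩

/-- degree bound for hubs -/
theorem deg_bound {x : C} (hx : G.Hub x) : G.wt (G.nb x) ≤ ∑ z ∈ G.D x, (G.w z + (G.e z - 1)) := by
  have h1 : G.wt (G.nb x) = ∑ z ∈ G.D x, G.w z + ((G.nb x).filter fun y => G.Hub y).card := by
    rw [wt, D, ← Finset.sum_filter_add_sum_filter_not (G.nb x) (fun z => G.Cls z)]
    congr 1
    rw [Finset.card_eq_sum_ones]
    apply Finset.sum_congr rfl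
    intro y hy
    simp only [Finset.mem_filter] at hy
    exact Hub.w hy.2
  have h2 : ((G.nb x).filter fun y => G.Hub y) ⊆
      (G.D x).biUnion fun z => ((G.nb z).filter fun y => G.Hub y).erase x := by
    intro y hy
    simp only [Finset.mem_filter] at hy
    obtain ⟨d, h3, h4, h5⟩ := dom hy.1
    simp only [Finset.mem_biUnion, Finset.mem_erase, Finset.mem_filter]
    exact ⟨d, mem_D.2 ⟨h4, h3⟩, ne_of_mem hy.1, mem_symm h5, hy.2⟩
  have h3 := (Finset.card_le_card h2).trans Finset.card_biUnion_le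
  have h4 : ∑ z ∈ G.D x, (((G.nb z).filter fun y => G.Hub y).erase x).card =
      ∑ z ∈ G.D x, (G.e z - 1) := by
    apply Finset.sum_congr rfl
    intro z hz
    rw [Finset.card_erase_of_mem]
    · rfl
    · simpa using ⟨mem_symm (mem_D.1 hz).1, hx⟩
  rw [h4] at h3
  rw [h1, Finset.sum_add_distrib]
  omega

theorem g_low {z : C} (h : G.Low z) : G.g z = ((2 : ℚ) - G.q z) / G.e z := by
  rw [g, if_pos h.1]

theorem g_pr {z : C} (h : G.Pr z) : G.g z = ((G.t z : ℚ) - 2) / G.e z := by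
  have h1 : ¬ G.w z = 1 := by
    have : G.w z = 2 := h
    omega
  rw [g, if_neg h1]

theorem g_nonneg (hP : G.StPair) (hL : G.StLow) {z : C} (h : G.Cls z) : 0 ≤ G.g z := by
  rcases Cls.cases h with h1 | h1
  · rw [g_low h1]
    have h2 : (G.q z : ℚ) ≤ 2 := by exact_mod_cast hL.1 z h1
    exact div_nonneg (by linarith) (by positivity)
  · rw [g_pr h1]
    have h2 : (2 : ℚ) ≤ G.t z := by exact_mod_cast (hP z h1).1
    exact div_nonneg (by linarith) (by positivity)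

theorem g_big {z x : C} (hx : G.Hub x) (hz : z ∈ G.nb x) (h : G.Cls z)
    (hk : 4 ≤ G.t z + G.q z) : 1 ≤ G.g z := by
  have he := e_pos hx hz
  have hc : G.t z + 2 * G.q z + G.e z = 6 := (G.count z).trans h
  have he' : (0 : ℚ) < G.e z := by exact_mod_cast he
  have hc' : (G.t z : ℚ) + 2 * G.q z + G.e z = 6 := by exact_mod_cast hc
  have hk' : (4 : ℚ) ≤ G.t z + G.q z := by exact_mod_cast hk
  rcases Cls.cases h with h1 | h1
  · rw [g_low h1, le_div_iff₀ he']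
    linarith
  · rw [g_pr h1, le_div_iff₀ he']
    linarith

/-- the types in `D(x)` -/
abbrev K4 (G : WG C) (z : C) : Prop := G.Low z ∧ G.t z = 1 ∧ G.q z = 2 ∧ G.e z = 1
abbrev K6 (G : WG C) (z : C) : Prop := G.Low z ∧ G.t z = 1 ∧ G.q z = 1 ∧ G.e z = 3
abbrev K8 (G : WG C) (z : C) : Prop := G.Low z ∧ G.t z = 2 ∧ G.q z = 1 ∧ G.e z = 2
abbrev P2 (G : WG C) (z : C) : Prop := G.Pr z ∧ G.t z = 2 ∧ G.q z = 1 ∧ G.e z = 2
abbrev P5 (G : WG C) (z : C) : Prop := G.Pr z ∧ G.t z = 3 ∧ G.q z = 0 ∧ G.e z = 3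

theorem low_pr {z : C} (h : G.Low z) (h' : G.Pr z) : False := by
  have h1 := h.1
  have h2 : G.w z = 2 := h'
  omega

/-- unique low neighbour -/
theorem t_one {z : C} (h : G.t z = 1) {a b : C} (ha : a ∈ G.nb z) (hb : b ∈ G.nb z)
    (hla : G.Low a) (hlb : G.Low b) : a = b := by
  rw [t, Finset.card_eq_one] at h
  obtain ⟨c, hc⟩ := h
  have h1 : a ∈ (G.nb z).filter fun y => G.Low y := by simpa using ⟨ha, hla⟩
  have h2 : b ∈ (G.nb z).filter fun y => G.Low y := by simpa using ⟨hb, hlb⟩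
  rw [hc, Finset.mem_singleton] at h1 h2
  rw [h1, h2]

/-- unique neighbouring pair -/
theorem q_one {z : C} (h : G.q z = 1) {a b : C} (ha : a ∈ G.nb z) (hb : b ∈ G.nb z)
    (hla : G.Pr a) (hlb : G.Pr b) : a = b := by
  rw [q, Finset.card_eq_one] at h
  obtain ⟨c, hc⟩ := h
  have h1 : a ∈ (G.nb z).filter fun y => G.Pr y := by simpa using ⟨ha, hla⟩
  have h2 : b ∈ (G.nb z).filter fun y => G.Pr y := by simpa using ⟨hb, hlb⟩
  rw [hc, Finset.mem_singleton] at h1 h2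
  rw [h1, h2]

theorem q_pos {z : C} (h : 1 ≤ G.q z) : ∃ a ∈ G.nb z, G.Pr a := by
  rw [q, Nat.succ_le_iff, Finset.card_pos] at h
  obtain ⟨a, ha⟩ := h
  simp only [Finset.mem_filter] at ha
  exact ⟨a, ha.1, ha.2⟩

/-- the values of the shares -/
theorem g_val {z : C} (h : G.K4 z ∨ G.K6 z ∨ G.K8 z ∨ G.P2 z ∨ G.P5 z) :
    G.g z = (if G.K8 z then 1 / 2 else 0) + (if G.K6 z then 1 / 3 else 0) +
      (if G.P5 z then 1 / 3 else 0) := by
  rcases h with h | h | h | h | h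
  · have a8 : ¬ G.K8 z := fun h' => by have := h.2.1; have := h'.2.1; omega
    have a6 : ¬ G.K6 z := fun h' => by have := h.2.2.1; have := h'.2.2.1; omega
    have a5 : ¬ G.P5 z := fun h' => low_pr h.1 h'.1
    rw [if_neg a8, if_neg a6, if_neg a5, g_low h.1, h.2.2.1]
    norm_num
  · have a8 : ¬ G.K8 z := fun h' => by have := h.2.1; have := h'.2.1; omega
    have a5 : ¬ G.P5 z := fun h' => low_pr h.1 h'.1
    rw [if_neg a8, if_pos h, if_neg a5, g_low h.1, h.2.2.1, h.2.2.2]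
    norm_num
  · have a6 : ¬ G.K6 z := fun h' => by have := h.2.1; have := h'.2.1; omega
    have a5 : ¬ G.P5 z := fun h' => low_pr h.1 h'.1
    rw [if_pos h, if_neg a6, if_neg a5, g_low h.1, h.2.2.1, h.2.2.2]
    norm_num
  · have a8 : ¬ G.K8 z := fun h' => low_pr h'.1 h.1
    have a6 : ¬ G.K6 z := fun h' => low_pr h'.1 h.1
    have a5 : ¬ G.P5 z := fun h' => by have := h.2.1; have := h'.2.1; omega
    rw [if_neg a8, if_neg a6, if_neg a5, g_pr h.1, h.2.1]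
    norm_num
  · have a8 : ¬ G.K8 z := fun h' => low_pr h'.1 h.1
    have a6 : ¬ G.K6 z := fun h' => low_pr h'.1 h.1
    rw [if_neg a8, if_neg a6, if_pos h, g_pr h.1, h.2.1, h.2.2.2]
    norm_num

/-- the values of the degree contributions -/
theorem w_val {z : C} (h : G.K4 z ∨ G.K6 z ∨ G.K8 z ∨ G.P2 z ∨ G.P5 z) :
    G.w z + (G.e z - 1) = (if G.K8 z then 2 else 0) + (if G.K6 z then 3 else 0) +
      (if G.K4 z then 1 else 0) + (if G.P2 z then 3 else 0) + (if G.P5 z then 4 else 0) := by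
  rcases h with h | h | h | h | h
  · have a8 : ¬ G.K8 z := fun h' => by have := h.2.1; have := h'.2.1; omega
    have a6 : ¬ G.K6 z := fun h' => by have := h.2.2.1; have := h'.2.2.1; omega
    have a5 : ¬ G.P5 z := fun h' => low_pr h.1 h'.1
    have a2 : ¬ G.P2 z := fun h' => low_pr h.1 h'.1
    rw [if_neg a8, if_neg a6, if_pos h, if_neg a2, if_neg a5, h.1.1, h.2.2.2]
  · have a8 : ¬ G.K8 z := fun h' => by have := h.2.1; have := h'.2.1; omega
    have a4 : ¬ G.K4 z := fun h' => by have := h.2.2.1; have := h'.2.2.1; omega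
    have a5 : ¬ G.P5 z := fun h' => low_pr h.1 h'.1
    have a2 : ¬ G.P2 z := fun h' => low_pr h.1 h'.1
    rw [if_neg a8, if_pos h, if_neg a4, if_neg a2, if_neg a5, h.1.1, h.2.2.2]
  · have a6 : ¬ G.K6 z := fun h' => by have := h.2.1; have := h'.2.1; omega
    have a4 : ¬ G.K4 z := fun h' => by have := h.2.2.1; have := h'.2.2.1; omega
    have a5 : ¬ G.P5 z := fun h' => low_pr h.1 h'.1
    have a2 : ¬ G.P2 z := fun h' => low_pr h.1 h'.1
    rw [if_pos h, if_neg a6, if_neg a4, if_neg a2, if_neg a5, h.1.1, h.2.2.2]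
  · have a8 : ¬ G.K8 z := fun h' => low_pr h'.1 h.1
    have a6 : ¬ G.K6 z := fun h' => low_pr h'.1 h.1
    have a4 : ¬ G.K4 z := fun h' => low_pr h'.1 h.1
    have a5 : ¬ G.P5 z := fun h' => by have := h.2.1; have := h'.2.1; omega
    have h1 : G.w z = 2 := h.1
    rw [if_neg a8, if_neg a6, if_neg a4, if_pos h, if_neg a5, h1, h.2.2.2]
  · have a8 : ¬ G.K8 z := fun h' => low_pr h'.1 h.1
    have a6 : ¬ G.K6 z := fun h' => low_pr h'.1 h.1
    have a4 : ¬ G.K4 z := fun h' => low_pr h'.1 h.1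
    have a2 : ¬ G.P2 z := fun h' => by have := h.2.1; have := h'.2.1; omega
    have h1 : G.w z = 2 := h.1
    rw [if_neg a8, if_neg a6, if_neg a4, if_neg a2, if_pos h, h1, h.2.2.2]

/-- the hub claim -/
theorem stHub (hP : G.StPair) (hL : G.StLow) (hAdj : G.StAdj) (hT3 : G.StT3) (hQ0 : G.StQ0)
    (hT4a : G.StT4a) (hT4b : G.StT4b) (hT4c : G.StT4c) (hT2 : G.StT2) (h56 : G.StT56) :
    G.StHub := by
  intro x hx
  by_contra hlt
  push Not at hlt
  change ∑ z ∈ G.D x, G.g z < 1 at hlt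
  have hcnt : ∀ z, G.Cls z → G.t z + 2 * G.q z + G.e z = 6 := fun z h => (G.count z).trans h
  have hone : ∀ z ∈ G.D x, G.g z < 1 := by
    intro z hz
    refine lt_of_le_of_lt ?_ hlt
    exact Finset.single_le_sum (f := G.g) (fun y hy => g_nonneg hP hL (mem_D.1 hy).2) hz
  have htwo : ∀ z ∈ G.D x, ∀ y ∈ G.D x, y ≠ z → G.g z + G.g y < 1 := by
    intro z hz y hy hne
    refine lt_of_le_of_lt ?_ hlt
    rw [← Finset.sum_pair hne.symm]
    apply Finset.sum_le_sum_of_subset_of_nonneg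
    · intro a ha
      simp only [Finset.mem_insert, Finset.mem_singleton] at ha
      rcases ha with rfl | rfl <;> assumption
    · intro a ha _
      exact g_nonneg hP hL (mem_D.1 ha).2
  have hS : G.Small x := by
    intro z hz hc
    by_contra hk
    have h1 := g_big hx hz hc (by omega)
    have h2 := hone z (mem_D.2 ⟨hz, hc⟩)
    linarith
  have hkind : ∀ z ∈ G.D x, G.K4 z ∨ G.K6 z ∨ G.K8 z ∨ G.P2 z ∨ G.P5 z := by
    intro z hz
    obtain ⟨hzx, hzc⟩ := mem_D.1 hz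
    have h3 := hS z hzx hzc
    have h2 := hL.2 z hzc
    have h6 := hcnt z hzc
    rcases Cls.cases hzc with hl | hp
    · have hq2 := hL.1 z hl
      by_cases hq : G.q z = 0
      · exfalso
        obtain ⟨d, hd1, hd2, hd3, hd4⟩ := hQ0 x z hl hzx hq
        have hdD : d ∈ G.D x := mem_D.2 ⟨hd3, hd1.2⟩
        have hk1 := hS d hd3 hd1.2
        have hc1 := hcnt d hd1.2
        have h7 := htwo z hz d hdD (ne_of_mem hd2)
        rw [g_low hl, g_low hd1, hq] at h7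
        have e1 : G.e z = 4 ∨ G.e z = 3 := by omega
        have e2 : (G.e d = 4 ∧ G.q d = 0) ∨ (G.e d = 3 ∧ G.q d = 0) ∨ (G.e d = 2 ∧ G.q d = 1) := by
          omega
        rcases e1 with e1 | e1 <;> rcases e2 with ⟨e2, e3⟩ | ⟨e2, e3⟩ | ⟨e2, e3⟩ <;>
          rw [e1, e2, e3] at h7 <;> norm_num at h7
      · by_cases ht : G.t z = 0
        · exact absurd ⟨ht, by omega⟩ (hT3 x z hx hS hl hzx)
        · have : (G.t z = 1 ∧ G.q z = 2 ∧ G.e z = 1) ∨ (G.t z = 1 ∧ G.q z = 1 ∧ G.e z = 3) ∨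
            (G.t z = 2 ∧ G.q z = 1 ∧ G.e z = 2) := by omega
          rcases this with h | h | h
          · exact Or.inl ⟨hl, h⟩
          · exact Or.inr (Or.inl ⟨hl, h⟩)
          · exact Or.inr (Or.inr (Or.inl ⟨hl, h⟩))
    · obtain ⟨h4, h5⟩ := hP z hp
      have : (G.t z = 2 ∧ G.q z = 1 ∧ G.e z = 2) ∨ (G.t z = 3 ∧ G.q z = 0 ∧ G.e z = 3) := by
        omega
      rcases this with h | h
      · exact Or.inr (Or.inr (Or.inr (Or.inl ⟨hp, h⟩)))
      · exact Or.inr (Or.inr (Or.inr (Or.inr ⟨hp, h⟩)))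
  -- the counts
  set N8 := ((G.D x).filter fun z => G.K8 z).card with hN8
  set N6 := ((G.D x).filter fun z => G.K6 z).card with hN6
  set N4 := ((G.D x).filter fun z => G.K4 z).card with hN4
  set N2 := ((G.D x).filter fun z => G.P2 z).card with hN2
  set N5 := ((G.D x).filter fun z => G.P5 z).card with hN5
  have hg : (N8 : ℚ) / 2 + N6 / 3 + N5 / 3 < 1 := by
    rw [Finset.sum_congr rfl fun z hz => g_val (hkind z hz), Finset.sum_add_distrib,
      Finset.sum_add_distrib, ← Finset.sum_filter, ← Finset.sum_filter, ← Finset.sum_filter,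
      Finset.sum_const, Finset.sum_const, Finset.sum_const, nsmul_eq_mul, nsmul_eq_mul,
      nsmul_eq_mul, ← hN8, ← hN6, ← hN5] at hlt
    linarith
  have hg' : 3 * N8 + 2 * N6 + 2 * N5 < 6 := by
    have : (3 * N8 + 2 * N6 + 2 * N5 : ℚ) < 6 := by linarith
    exact_mod_cast this
  have hw : 7 ≤ 2 * N8 + 3 * N6 + N4 + 3 * N2 + 4 * N5 := by
    have h1 := deg_bound hx
    have h2 := Hub.deg hx
    rw [Finset.sum_congr rfl fun z hz => w_val (hkind z hz), Finset.sum_add_distrib,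
      Finset.sum_add_distrib, Finset.sum_add_distrib, Finset.sum_add_distrib,
      ← Finset.sum_filter, ← Finset.sum_filter, ← Finset.sum_filter, ← Finset.sum_filter,
      ← Finset.sum_filter, Finset.sum_const, Finset.sum_const, Finset.sum_const,
      Finset.sum_const, Finset.sum_const, ← hN8, ← hN6, ← hN4, ← hN2, ← hN5] at h1
    simp only [smul_eq_mul] at h1
    omega
  -- partners
  have hpart : ∀ z ∈ G.D x, ∃ d ∈ G.D x, d ∈ G.nb z := by
    intro z hz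
    obtain ⟨d, h1, h2, h3⟩ := dom (mem_D.1 hz).1
    exact ⟨d, mem_D.2 ⟨h2, h1⟩, h3⟩
  have hpair : ∀ Q ∈ G.D x, G.Pr Q → ∃ d ∈ G.D x, d ∈ G.nb Q ∧
      (G.K8 d ∨ (G.K6 d ∧ G.P5 Q)) := by
    intro Q hQ hQp
    obtain ⟨d, hd, hdQ⟩ := hpart Q hQ
    refine ⟨d, hd, hdQ, ?_⟩
    have hdx := (mem_D.1 hd).1
    have hQx := (mem_D.1 hQ).1
    rcases hkind d hd with h | h | h | h | h
    · exact absurd hQx ((hT4b x d hx hS h.1 hdx h.2.1 h.2.2.1).1 Q hQp (mem_symm hdQ))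
    · rcases hkind Q hQ with h' | h' | h' | h' | h'
      · exact (low_pr h'.1 hQp).elim
      · exact (low_pr h'.1 hQp).elim
      · exact (low_pr h'.1 hQp).elim
      · exact (hT2 x Q d hx hQp hQx h'.2.1 h'.2.2.1 h.1 hdx hdQ h.2.1 h.2.2.1).elim
      · exact Or.inr ⟨h, h'⟩
    · exact Or.inl h
    · exact (hAdj x Q d hx hS hQp h.1 hQx hdx hdQ).elim
    · exact (hAdj x Q d hx hS hQp h.1 hQx hdx hdQ).elim
  have hfour : ∀ l ∈ G.D x, G.K4 l → (∀ Q, G.Pr Q → Q ∈ G.nb l → Q ∉ G.nb x) ∧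
      ∃ d ∈ G.D x, G.K8 d ∧ d ∈ G.nb l ∧ ∃ Q1, G.Pr Q1 ∧ Q1 ∈ G.nb l ∧ Q1 ∈ G.nb d := by
    intro l hl h
    obtain ⟨h1, d, Q1, h2, h3, h4, h5, h6, h7, h8, h9⟩ :=
      hT4b x l hx hS h.1 (mem_D.1 hl).1 h.2.1 h.2.2.1
    have h10 := hcnt d h2.2
    exact ⟨h1, d, mem_D.2 ⟨h4, h2.2⟩, ⟨h2, h5, h6, by omega⟩, h3, Q1, h7, h8, h9⟩
  have m8 : ∀ z, z ∈ (G.D x).filter (fun z => G.K8 z) ↔ z ∈ G.D x ∧ G.K8 z := by simp
  have m6 : ∀ z, z ∈ (G.D x).filter (fun z => G.K6 z) ↔ z ∈ G.D x ∧ G.K6 z := by simp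
  have m4 : ∀ z, z ∈ (G.D x).filter (fun z => G.K4 z) ↔ z ∈ G.D x ∧ G.K4 z := by simp
  have m2 : ∀ z, z ∈ (G.D x).filter (fun z => G.P2 z) ↔ z ∈ G.D x ∧ G.P2 z := by simp
  have m5 : ∀ z, z ∈ (G.D x).filter (fun z => G.P5 z) ↔ z ∈ G.D x ∧ G.P5 z := by simp
  have pos8 : ∀ z ∈ G.D x, G.K8 z → 1 ≤ N8 := fun z hz h =>
    Finset.card_pos.2 ⟨z, (m8 z).2 ⟨hz, h⟩⟩
  have pos6 : ∀ z ∈ G.D x, G.K6 z → 1 ≤ N6 := fun z hz h =>
    Finset.card_pos.2 ⟨z, (m6 z).2 ⟨hz, h⟩⟩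
  have pos4 : ∀ z ∈ G.D x, G.K4 z → 1 ≤ N4 := fun z hz h =>
    Finset.card_pos.2 ⟨z, (m4 z).2 ⟨hz, h⟩⟩
  have pos2 : ∀ z ∈ G.D x, G.P2 z → 1 ≤ N2 := fun z hz h =>
    Finset.card_pos.2 ⟨z, (m2 z).2 ⟨hz, h⟩⟩
  have pos5 : ∀ z ∈ G.D x, G.P5 z → 1 ≤ N5 := fun z hz h =>
    Finset.card_pos.2 ⟨z, (m5 z).2 ⟨hz, h⟩⟩
  by_cases h80 : N8 = 0
  · -- no `K8`
    have n4 : N4 = 0 := by
      by_contra h
      obtain ⟨l, hl⟩ := Finset.card_pos.1 (Nat.pos_of_ne_zero h)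
      obtain ⟨hl1, hl2⟩ := (m4 l).1 hl
      obtain ⟨-, d, hd, hd8, -⟩ := hfour l hl1 hl2
      have := pos8 d hd hd8
      omega
    have n2 : N2 = 0 := by
      by_contra h
      obtain ⟨Q, hQ⟩ := Finset.card_pos.1 (Nat.pos_of_ne_zero h)
      obtain ⟨hQ1, hQ2⟩ := (m2 Q).1 hQ
      obtain ⟨d, hd, -, h1 | h1⟩ := hpair Q hQ1 hQ2.1
      · have := pos8 d hd h1
        omega
      · have h2 := h1.2.2.1
        have h3 := hQ2.2.1
        omega
    have n5 : 1 ≤ N5 := by omega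
    obtain ⟨Q, hQ⟩ := Finset.card_pos.1 n5
    obtain ⟨hQ1, hQ2⟩ := (m5 Q).1 hQ
    obtain ⟨l, hl, hlQ, h1 | h1⟩ := hpair Q hQ1 hQ2.1
    · have := pos8 l hl h1
      omega
    · have p6 := pos6 l hl h1.1
      have e6 : N6 = 1 := by omega
      have e5 : N5 = 1 := by omega
      apply h56 x l Q hx hQ2.1 (mem_D.1 hQ1).1 hQ2.2.1 hQ2.2.2.1 h1.1.1 (mem_D.1 hl).1 hlQ
        h1.1.2.1 h1.1.2.2.1
      intro z hz hzc
      have hzD : z ∈ G.D x := mem_D.2 ⟨hz, hzc⟩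
      rcases hkind z hzD with h | h | h | h | h
      · have := pos4 z hzD h
        omega
      · left
        rw [hN6, Finset.card_eq_one] at e6
        obtain ⟨c, hc⟩ := e6
        have a1 := (m6 z).2 ⟨hzD, h⟩
        have a2 := (m6 l).2 ⟨hl, h1.1⟩
        rw [hc, Finset.mem_singleton] at a1 a2
        rw [a1, a2]
      · have := pos8 z hzD h
        omega
      · have := pos2 z hzD h
        omega
      · right
        rw [hN5, Finset.card_eq_one] at e5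
        obtain ⟨c, hc⟩ := e5
        have a1 := (m5 z).2 ⟨hzD, h⟩
        have a2 := (m5 Q).2 ⟨hQ1, hQ2⟩
        rw [hc, Finset.mem_singleton] at a1 a2
        rw [a1, a2]
  · -- one `K8`
    have e8 : N8 = 1 := by omega
    obtain ⟨l8, hl8⟩ := Finset.card_pos.1 (Nat.pos_of_ne_zero h80)
    obtain ⟨hl8D, hl8K⟩ := (m8 l8).1 hl8
    have u8 : ∀ z ∈ G.D x, G.K8 z → z = l8 := by
      intro z hz h
      have e8' := e8
      rw [hN8, Finset.card_eq_one] at e8'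
      obtain ⟨c, hc⟩ := e8'
      have a1 := (m8 z).2 ⟨hz, h⟩
      have a2 := (m8 l8).2 ⟨hl8D, hl8K⟩
      rw [hc, Finset.mem_singleton] at a1 a2
      rw [a1, a2]
    obtain ⟨R, hR1, hR2⟩ := q_pos (le_of_eq hl8K.2.2.1.symm)
    have uR : ∀ Q, G.Pr Q → Q ∈ G.nb l8 → Q = R := fun Q h1 h2 =>
      q_one hl8K.2.2.1 h2 hR1 h1 hR2
    have hK4 : ∀ l ∈ G.D x, G.K4 l → R ∈ G.nb l ∧ l8 ∈ G.nb l ∧ R ∉ G.nb x := by
      intro l hl h
      obtain ⟨a1, d, hd, hd8, a2, Q1, a3, a4, a5⟩ := hfour l hl h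
      have hdl := u8 d hd hd8
      subst hdl
      have hQR := uR Q1 a3 a5
      subst hQR
      exact ⟨a4, a2, a1 _ a3 a4⟩
    have n4 : N4 ≤ 1 := by
      rw [hN4, Finset.card_le_one]
      intro l hl s hs
      by_contra hne
      obtain ⟨hl1, hl2⟩ := (m4 l).1 hl
      obtain ⟨hs1, hs2⟩ := (m4 s).1 hs
      obtain ⟨b1, b2, -⟩ := hK4 l hl1 hl2
      obtain ⟨c1, c2, -⟩ := hK4 s hs1 hs2
      apply hT4c x l s l8 R hx hl2.1 hs2.1 hne (mem_D.1 hl1).1 (mem_D.1 hs1).1 hl2.2.1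
        hl2.2.2.1 hs2.2.1 hs2.2.2.1 hl8K.1 (mem_D.1 hl8D).1 b2 c2 hl8K.2.2.1 hR2 hR1 b1 c1
      · intro Q hQ hQl hQR
        exact hT4a x l R Q hx hS hl2.1 (mem_D.1 hl1).1 hl2.2.1 hR2 b1 hQ hQl (Ne.symm hQR)
      · intro Q hQ hQs hQR
        exact hT4a x s R Q hx hS hs2.1 (mem_D.1 hs1).1 hs2.2.1 hR2 c1 hQ hQs (Ne.symm hQR)
    have hpR : ∀ Q ∈ G.D x, G.Pr Q → Q = R := by
      intro Q hQ hQp
      obtain ⟨d, hd, hdQ, h1 | h1⟩ := hpair Q hQ hQp
      · have := u8 d hd h1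
        subst this
        exact uR Q hQp (mem_symm hdQ)
      · have a1 := pos6 d hd h1.1
        have a2 := pos5 Q hQ h1.2
        omega
    have n25 : N2 + N5 ≤ 1 := by
      have h1 : N2 + N5 = ((G.D x).filter (fun z => G.P2 z) ∪
          (G.D x).filter (fun z => G.P5 z)).card := by
        rw [Finset.card_union_of_disjoint]
        rw [Finset.disjoint_left]
        intro a ha hb
        have a1 := ((m2 a).1 ha).2.2.1
        have a2 := ((m5 a).1 hb).2.2.1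
        omega
      rw [h1, Finset.card_le_one]
      intro a ha b hb
      have key : ∀ c, c ∈ (G.D x).filter (fun z => G.P2 z) ∪
          (G.D x).filter (fun z => G.P5 z) → c = R := by
        intro c hc
        rcases Finset.mem_union.1 hc with hc | hc
        · obtain ⟨a1, a2⟩ := (m2 c).1 hc
          exact hpR c a1 a2.1
        · obtain ⟨a1, a2⟩ := (m5 c).1 hc
          exact hpR c a1 a2.1
      rw [key a ha, key b hb]
    have n4' : 1 ≤ N4 → N2 = 0 ∧ N5 = 0 := by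
      intro h
      obtain ⟨l, hl⟩ := Finset.card_pos.1 h
      obtain ⟨hl1, hl2⟩ := (m4 l).1 hl
      obtain ⟨-, -, hRx⟩ := hK4 l hl1 hl2
      constructor
      · by_contra h'
        obtain ⟨Q, hQ⟩ := Finset.card_pos.1 (Nat.pos_of_ne_zero h')
        obtain ⟨a1, a2⟩ := (m2 Q).1 hQ
        have a3 := hpR Q a1 a2.1
        subst a3
        exact hRx (mem_D.1 a1).1
      · by_contra h'
        obtain ⟨Q, hQ⟩ := Finset.card_pos.1 (Nat.pos_of_ne_zero h')
        obtain ⟨a1, a2⟩ := (m5 Q).1 hQ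
        have a3 := hpR Q a1 a2.1
        subst a3
        exact hRx (mem_D.1 a1).1
    have hfin : N4 = 0 ∧ N5 = 0 ∧ N6 = 1 ∧ N2 = 1 := by
      by_cases h : 1 ≤ N4
      · obtain ⟨a1, a2⟩ := n4' h
        omega
      · omega
    obtain ⟨z4, z5, z6, z2⟩ := hfin
    obtain ⟨l6, hl6⟩ := Finset.card_pos.1 (by omega : 0 < N6)
    obtain ⟨hl6D, hl6K⟩ := (m6 l6).1 hl6
    obtain ⟨Q, hQ⟩ := Finset.card_pos.1 (by omega : 0 < N2)
    obtain ⟨hQD, hQK⟩ := (m2 Q).1 hQ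
    have hQR := hpR Q hQD hQK.1
    subst hQR
    have hno : Q ∉ G.nb l6 := fun h => hT2 x Q l6 hx hQK.1 (mem_D.1 hQD).1 hQK.2.1 hQK.2.2.1
      hl6K.1 (mem_D.1 hl6D).1 (mem_symm h) hl6K.2.1 hl6K.2.2.1
    obtain ⟨d, hd, hdl⟩ := hpart l6 hl6D
    rcases hkind d hd with h | h | h | h | h
    · have := pos4 d hd h
      omega
    · have e6 := z6
      rw [hN6, Finset.card_eq_one] at e6
      obtain ⟨c, hc⟩ := e6
      have a1 := (m6 d).2 ⟨hd, h⟩
      have a2 := (m6 l6).2 ⟨hl6D, hl6K⟩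
      rw [hc, Finset.mem_singleton] at a1 a2
      rw [a1, a2] at hdl
      exact G.irr _ hdl
    · have := u8 d hd h
      subst this
      obtain ⟨Q', hQ1, hQ2⟩ := q_pos (le_of_eq hl6K.2.2.1.symm)
      obtain ⟨d', b1, b2, b3⟩ := dom hQ1
      rcases Cls.cases b1 with b4 | b4
      · have b5 := t_one hl6K.2.1 b2 hdl b4 hl8K.1
        subst b5
        have b6 := uR Q' hQ2 (mem_symm b3)
        subst b6
        exact hno hQ1
      · have b5 := q_one hl6K.2.2.1 b2 hQ1 b4 hQ2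
        subst b5
        exact G.irr _ b3
    · have := hpR d hd h.1
      subst this
      exact hno hdl
    · have := pos5 d hd h
      omega

end WG

end Pool.Agent.Lib.MP_e95c01_co.W
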