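import Pool.Agent.Lib.MP_e95c01_co.W.Loc87

/-!
# Pairs and low nodes: `StPair`, `StLow`
-/

namespace Pool.Agent.Lib.MP_e95c01_co.W

variable {C : Type} [Fintype C] [DecidableEq C] {G : WG C}

namespace WG

/-- weight of the common neighbourhood of a class node and an adjacent class node -/
theorem common36 {z z' : C} (hz : G.Cls z) (hz' : G.Cls z') (ha : z' ∈ G.nb z) :
    G.wt (G.nb z ∩ G.nb z') + G.w z + G.w z' ≤ 6 := by
  have h := cbound hz hz' ha (G.nb z ∩ G.nb z').toList (Finset.nodup_toList _) (by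
    intro y hy
    simpa using hy)
  rwa [← wt_toFinset (Finset.nodup_toList _), Finset.toList_toFinset] at h

/-- two different class nodes in the neighbourhood -/
theorem two_le36 {z : C} : 2 ≤ G.t z + G.q z := by
  have h0 : (G.nb z).Nonempty := by
    rw [Finset.nonempty_iff_ne_empty]
    intro h
    have h1 := G.deg z
    rw [h] at h1
    simp at h1
  obtain ⟨y, hy⟩ := h0
  obtain ⟨d, h1, h2, -⟩ := dom hy
  obtain ⟨d', h3, h4, h5⟩ := dom h2
  have hne : d' ≠ d := ne_of_mem h5
  have h6 : ({d, d'} : Finset C) ⊆ G.TS z ∪ G.QS z := by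
    intro u hu
    simp only [Finset.mem_insert, Finset.mem_singleton] at hu
    rw [Finset.mem_union, mem_TS, mem_QS]
    rcases hu with rfl | rfl
    · rcases h1.cases with h | h
      · exact Or.inl ⟨h2, h⟩
      · exact Or.inr ⟨h2, h⟩
    · rcases h3.cases with h | h
      · exact Or.inl ⟨h4, h⟩
      · exact Or.inr ⟨h4, h⟩
  have h7 := Finset.card_le_card h6
  rw [Finset.card_pair hne.symm] at h7
  have h8 := Finset.card_union_le (G.TS z) (G.QS z)
  have h9 : (G.TS z).card = G.t z := rfl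
  have h10 : (G.QS z).card = G.q z := rfl
  omega

/-- the covering inequality -/
theorem cover36 {z : C} (hz : G.Cls z) : 6 ≤ (5 - G.w z) * G.t z + (4 - G.w z) * G.q z := by
  have hsub : G.nb z ⊆ ((G.TS z).biUnion fun d => G.nb z ∩ G.nb d) ∪
      ((G.QS z).biUnion fun d => G.nb z ∩ G.nb d) := by
    intro y hy
    obtain ⟨d, h1, h2, h3⟩ := dom hy
    simp only [Finset.mem_union, Finset.mem_biUnion, Finset.mem_inter]
    rcases h1.cases with h | h
    · exact Or.inl ⟨d, mem_TS.2 ⟨h2, h⟩, hy, mem_symm h3⟩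
    · exact Or.inr ⟨d, mem_QS.2 ⟨h2, h⟩, hy, mem_symm h3⟩
  have h1 : G.wt (G.nb z) ≤ ∑ d ∈ G.TS z, G.wt (G.nb z ∩ G.nb d) +
      ∑ d ∈ G.QS z, G.wt (G.nb z ∩ G.nb d) := by
    refine (wt_mono hsub).trans ?_
    have a1 : ∀ A B : Finset C, G.wt (A ∪ B) ≤ G.wt A + G.wt B := by
      intro A B
      have := Finset.sum_union_inter (s₁ := A) (s₂ := B) (f := G.w)
      simp only [wt]
      omega
    have a2 : ∀ A : Finset C, G.wt (A.biUnion fun d => G.nb z ∩ G.nb d) ≤
        ∑ d ∈ A, G.wt (G.nb z ∩ G.nb d) := by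
      intro A
      induction A using Finset.induction_on with
      | empty => simp
      | insert a A ha ih =>
        rw [Finset.biUnion_insert, Finset.sum_insert ha]
        exact (a1 _ _).trans (by omega)
    exact (a1 _ _).trans (Nat.add_le_add (a2 _) (a2 _))
  have h2 : ∑ d ∈ G.TS z, G.wt (G.nb z ∩ G.nb d) ≤ ∑ d ∈ G.TS z, (5 - G.w z) := by
    apply Finset.sum_le_sum
    intro d hd
    rw [mem_TS] at hd
    have := common36 hz hd.2.cls hd.1
    have h3 := hd.2.1
    omega
  have h3 : ∑ d ∈ G.QS z, G.wt (G.nb z ∩ G.nb d) ≤ ∑ d ∈ G.QS z, (4 - G.w z) := by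
    apply Finset.sum_le_sum
    intro d hd
    rw [mem_QS] at hd
    have := common36 hz hd.2.cls hd.1
    have h3 : G.w d = 2 := hd.2
    omega
  rw [Finset.sum_const, smul_eq_mul] at h2 h3
  have h9 : (G.TS z).card = G.t z := rfl
  have h10 : (G.QS z).card = G.q z := rfl
  rw [h9, mul_comm] at h2
  rw [h10, mul_comm] at h3
  have h4 : G.wt (G.nb z) = 6 := hz
  omega

/-- three pairs as neighbours are impossible -/
theorem not_three36 {z : C} (hz : G.Cls z) (h3 : G.q z = 3) : False := by
  have hc := G.count z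
  have hz' : G.wt (G.nb z) = 6 := hz
  have ht : G.t z = 0 := by omega
  have hT : ∀ y ∈ G.nb z, ¬ G.Low y := by
    intro y hy hl
    have h1 : (G.TS z).card = 0 := ht
    rw [Finset.card_eq_zero] at h1
    have h2 : y ∈ G.TS z := mem_TS.2 ⟨hy, hl⟩
    rw [h1] at h2
    simp at h2
  have hQ : (G.QS z).card = 3 := h3
  have hd : ∀ y ∈ G.nb z, ∃ d ∈ G.QS z, d ∈ G.nb y := by
    intro y hy
    obtain ⟨d, h1, h2, h4⟩ := dom hy
    rcases h1.cases with h | h
    · exact absurd h (hT d h2)
    · exact ⟨d, mem_QS.2 ⟨h2, h⟩, h4⟩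
  obtain ⟨a, ha⟩ : (G.QS z).Nonempty := by
    rw [← Finset.card_pos, hQ]; norm_num
  obtain ⟨b, hb, hba⟩ := hd a (mem_QS.1 ha).1
  have hab : a ≠ b := (ne_of_mem hba).symm
  obtain ⟨c, hc, hca, hcb, hall⟩ := three hQ ha hb hab
  obtain ⟨d, hd1, hd2⟩ := hd c (mem_QS.1 hc).1
  have haw : G.w a = 2 := (mem_QS.1 ha).2
  have hbw : G.w b = 2 := (mem_QS.1 hb).2
  have hcw : G.w c = 2 := (mem_QS.1 hc).2
  have hz1 := G.w_pos z
  rcases hall d hd1 with rfl | rfl | rfl
  · have := cbound hz (mem_QS.1 ha).2.cls (mem_QS.1 ha).1 [b, c] (by simp [hcb.symm]) (by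
      intro y hy
      simp only [List.mem_cons, List.not_mem_nil, or_false] at hy
      rcases hy with rfl | rfl
      · exact ⟨(mem_QS.1 hb).1, hba⟩
      · exact ⟨(mem_QS.1 hc).1, mem_symm hd2⟩)
    simp only [lw_cons, lw_nil] at this
    omega
  · have := cbound hz (mem_QS.1 hb).2.cls (mem_QS.1 hb).1 [a, c] (by simp [hca.symm]) (by
      intro y hy
      simp only [List.mem_cons, List.not_mem_nil, or_false] at hy
      rcases hy with rfl | rfl
      · exact ⟨(mem_QS.1 ha).1, mem_symm hba⟩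
      · exact ⟨(mem_QS.1 hc).1, mem_symm hd2⟩)
    simp only [lw_cons, lw_nil] at this
    omega
  · exact G.irr _ hd2

theorem stLow_36 (G : WG C) : G.StLow := by
  refine ⟨?_, fun z _ => two_le36⟩
  intro z hz
  by_contra h
  have hc := G.count z
  have hz' : G.wt (G.nb z) = 6 := hz.2
  exact not_three36 hz.cls (by omega)

theorem stPair_36 (G : WG C) : G.StPair := by
  intro z hz
  have hzc : G.Cls z := hz.cls
  have hzw : G.w z = 2 := hz
  have hcnt := G.count z
  have hcov := cover36 hzc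
  have hz6 : G.wt (G.nb z) = 6 := hzc
  rw [hz6] at hcnt
  rw [hzw] at hcov
  norm_num at hcov
  refine ⟨?_, ?_⟩
  · by_contra ht
    by_cases h0 : G.t z = 0
    · exact not_three36 hzc (by omega)
    have ht1 : G.t z = 1 := by omega
    have hq2 : G.q z = 2 := by omega
    have hT : (G.TS z).card = 1 := ht1
    have hQ : (G.QS z).card = 2 := hq2
    rw [Finset.card_eq_one] at hT
    obtain ⟨l, hT⟩ := hT
    have hl : l ∈ G.nb z ∧ G.Low l := mem_TS.1 (by rw [hT]; simp)
    have hlall : ∀ y ∈ G.nb z, G.Low y → y = l := by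
      intro y h1 h2
      have := mem_TS.2 ⟨h1, h2⟩
      rw [hT] at this
      simpa using this
    obtain ⟨Q1, h1, h2, h3⟩ := dom hl.1
    have hQ1 : G.Pr Q1 := by
      rcases h1.cases with h | h
      · exact absurd (hlall Q1 h2 h) (ne_of_mem h3)
      · exact h
    obtain ⟨Q2, hQ2, hne, hall⟩ := two hQ (mem_QS.2 ⟨h2, hQ1⟩)
    rw [mem_QS] at hQ2
    obtain ⟨d, h4, h5, h6⟩ := dom hQ2.1
    have hw1 : G.w Q1 = 2 := hQ1
    have hw2 : G.w Q2 = 2 := hQ2.2
    have hw3 : G.w l = 1 := hl.2.1
    rcases h4.cases with h | h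
    · have := hlall d h5 h
      subst this
      have := cbound hzc hl.2.cls hl.1 [Q1, Q2] (by simp [hne.symm]) (by
        intro y hy
        simp only [List.mem_cons, List.not_mem_nil, or_false] at hy
        rcases hy with rfl | rfl
        · exact ⟨h2, h3⟩
        · exact ⟨hQ2.1, mem_symm h6⟩)
      simp only [lw_cons, lw_nil] at this
      omega
    · rcases hall d (mem_QS.2 ⟨h5, h⟩) with rfl | rfl
      · have := cbound hzc h1 h2 [l, Q2] (by simp [ne_lp hl.2 hQ2.2]) (by
          intro y hy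
          simp only [List.mem_cons, List.not_mem_nil, or_false] at hy
          rcases hy with rfl | rfl
          · exact ⟨hl.1, mem_symm h3⟩
          · exact ⟨hQ2.1, mem_symm h6⟩)
        simp only [lw_cons, lw_nil] at this
        omega
      · exact G.irr _ h6
  · rintro ⟨ht2, hq0⟩
    have hT : (G.TS z).card = 2 := ht2
    have hE : (G.ES z).card = 4 := by
      have : (G.ES z).card = G.e z := rfl
      omega
    have hQ : ∀ y ∈ G.nb z, ¬ G.Pr y := by
      intro y hy hl
      have h1 : (G.QS z).card = 0 := hq0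
      rw [Finset.card_eq_zero] at h1
      have h2 : y ∈ G.QS z := mem_QS.2 ⟨hy, hl⟩
      rw [h1] at h2
      simp at h2
    obtain ⟨l1, hl1⟩ : (G.TS z).Nonempty := by
      rw [← Finset.card_pos, hT]; norm_num
    obtain ⟨l2, hl2, h21, hall⟩ := two hT hl1
    rw [mem_TS] at hl1 hl2
    -- domination inside `N(z)`
    have hdom : ∀ y ∈ G.nb z, y ∈ G.nb l1 ∨ y ∈ G.nb l2 := by
      intro y hy
      obtain ⟨d, h1, h2, h3⟩ := dom hy
      rcases h1.cases with h | h
      · rcases hall d (mem_TS.2 ⟨h2, h⟩) with rfl | rfl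
        · exact Or.inl (mem_symm h3)
        · exact Or.inr (mem_symm h3)
      · exact absurd h (hQ d h2)
    have h12 : l2 ∈ G.nb l1 := by
      rcases hdom l1 hl1.1 with h | h
      · exact absurd h (G.irr l1)
      · exact mem_symm h
    have hc1 := common36 hzc hl1.2.cls hl1.1
    have hc2 := common36 hzc hl2.2.cls hl2.1
    have hw1 : G.w l1 = 1 := hl1.2.1
    have hw2 : G.w l2 = 1 := hl2.2.1
    -- the hubs covered by `l1` and by `l2`
    have hA : ∀ a b : C, G.Low a → G.Low b → a ∈ G.nb z → b ∈ G.nb z → b ∈ G.nb a →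
        ((G.ES z).filter fun y => y ∈ G.nb a).card ≤ 2 := by
      intro a b ha hb haz hbz hab
      have h1 := common36 hzc ha.cls haz
      have h2 : insert b ((G.ES z).filter fun y => y ∈ G.nb a) ⊆ G.nb z ∩ G.nb a := by
        intro y hy
        rw [Finset.mem_insert, Finset.mem_filter, mem_ES] at hy
        rw [Finset.mem_inter]
        rcases hy with rfl | hy
        · exact ⟨hbz, hab⟩
        · exact ⟨hy.1.1, hy.2⟩
      have h3 := wt_mono (G := G) h2
      rw [wt_insert (by
        rw [Finset.mem_filter, mem_ES]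
        exact fun h => h.1.2 hb.2)] at h3
      have h4 : G.wt ((G.ES z).filter fun y => y ∈ G.nb a) =
          ((G.ES z).filter fun y => y ∈ G.nb a).card := by
        rw [wt, Finset.card_eq_sum_ones]
        apply Finset.sum_congr rfl
        intro y hy
        rw [Finset.mem_filter, mem_ES] at hy
        exact hy.1.2.w
      have h5 : G.w a = 1 := ha.1
      have h6 : G.w b = 1 := hb.1
      omega
    have hA1 := hA l1 l2 hl1.2 hl2.2 hl1.1 hl2.1 h12
    have hA2 := hA l2 l1 hl2.2 hl1.2 hl2.1 hl1.1 (mem_symm h12)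
    have hU : ((G.ES z).filter fun y => y ∈ G.nb l1) ∪ ((G.ES z).filter fun y => y ∈ G.nb l2) =
        G.ES z := by
      rw [← Finset.filter_or, Finset.filter_eq_self]
      intro y hy
      exact hdom y (mem_ES.1 hy).1
    have hU' := Finset.card_union_add_card_inter ((G.ES z).filter fun y => y ∈ G.nb l1)
      ((G.ES z).filter fun y => y ∈ G.nb l2)
    rw [hU, hE] at hU'
    have hB1 : ((G.ES z).filter fun y => y ∈ G.nb l1).card = 2 := by omega
    have hB2 : ((G.ES z).filter fun y => y ∈ G.nb l2).card = 2 := by omega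
    rw [Finset.card_eq_two] at hB1 hB2
    obtain ⟨ha, hb, hab, hB1⟩ := hB1
    obtain ⟨hc, hd, hcd, hB2⟩ := hB2
    have ea : ha ∈ G.ES z ∧ ha ∈ G.nb l1 := by
      rw [← Finset.mem_filter, hB1]; simp
    have eb : hb ∈ G.ES z ∧ hb ∈ G.nb l1 := by
      rw [← Finset.mem_filter, hB1]; simp
    have ec : hc ∈ G.ES z ∧ hc ∈ G.nb l2 := by
      rw [← Finset.mem_filter, hB2]; simp
    have ed : hd ∈ G.ES z ∧ hd ∈ G.nb l2 := by
      rw [← Finset.mem_filter, hB2]; simp
    rw [mem_ES] at ea eb ec ed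
    have wa : G.w ha = 1 := ea.1.2.w
    have wb : G.w hb = 1 := eb.1.2.w
    have wc : G.w hc = 1 := ec.1.2.w
    have wd : G.w hd = 1 := ed.1.2.w
    have hallE : ∀ y ∈ G.nb z, G.Hub y → y = ha ∨ y = hb ∨ y = hc ∨ y = hd := by
      intro y hy hh
      have h1 : y ∈ G.ES z := mem_ES.2 ⟨hy, hh⟩
      rw [← hU, hB1, hB2] at h1
      simp only [Finset.mem_union, Finset.mem_insert, Finset.mem_singleton] at h1
      tauto
    have hallz : ∀ y ∈ G.nb z, y = l1 ∨ y = l2 ∨ y = ha ∨ y = hb ∨ y = hc ∨ y = hd := by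
      intro y hy
      rcases G.cases y with h | h | h
      · rcases hall y (mem_TS.2 ⟨hy, h⟩) with h1 | h1
        · exact Or.inl h1
        · exact Or.inr (Or.inl h1)
      · exact absurd h (hQ y hy)
      · exact Or.inr (Or.inr (hallE y hy h))
    have nz1 : z ≠ l1 := (ne_of_mem hl1.1).symm
    have nz2 : z ≠ l2 := (ne_of_mem hl2.1).symm
    have nza : z ≠ ha := (ne_of_mem ea.1.1).symm
    have nzb : z ≠ hb := (ne_of_mem eb.1.1).symm
    have nzc : z ≠ hc := (ne_of_mem ec.1.1).symm
    have nzd : z ≠ hd := (ne_of_mem ed.1.1).symm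
    obtain ⟨e1, f1, f2, f3, f4⟩ := rest1 hl1.2.cls [z, l2, ha, hb]
      (by simp [nz2, nza, nzb, ne_lh hl2.2 ea.1.2, ne_lh hl2.2 eb.1.2, hab]) (by
        intro y hy
        simp only [List.mem_cons, List.not_mem_nil, or_false] at hy
        rcases hy with rfl | rfl | rfl | rfl
        · exact mem_symm hl1.1
        · exact h12
        · exact ea.2
        · exact eb.2) (by simp [hzw, hw2, wa, wb])
    obtain ⟨e2, g1, g2, g3, g4⟩ := rest1 hl2.2.cls [z, l1, hc, hd]
      (by simp [nz1, nzc, nzd, ne_lh hl1.2 ec.1.2, ne_lh hl1.2 ed.1.2, hcd]) (by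
        intro y hy
        simp only [List.mem_cons, List.not_mem_nil, or_false] at hy
        rcases hy with rfl | rfl | rfl | rfl
        · exact mem_symm hl2.1
        · exact mem_symm h12
        · exact ec.2
        · exact ed.2) (by simp [hzw, hw1, wc, wd])
    simp only [List.mem_cons, List.not_mem_nil, or_false, not_or] at f2 g2 f4 g4
    -- `e1` is not adjacent to `z`
    have he1z : e1 ∉ G.nb z := by
      intro h
      have := cbound hzc hl1.2.cls hl1.1 [l2, ha, hb, e1]
        (by simp [ne_lh hl2.2 ea.1.2, ne_lh hl2.2 eb.1.2, hab, Ne.symm f2.2.1,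
          Ne.symm f2.2.2.1, Ne.symm f2.2.2.2]) (by
          intro y hy
          simp only [List.mem_cons, List.not_mem_nil, or_false] at hy
          rcases hy with rfl | rfl | rfl | rfl
          · exact ⟨hl2.1, h12⟩
          · exact ⟨ea.1.1, ea.2⟩
          · exact ⟨eb.1.1, eb.2⟩
          · exact ⟨h, f1⟩)
      simp only [lw_cons, lw_nil] at this
      omega
    have he12 : e1 ∈ G.nb l2 := by
      obtain ⟨d, h1, h2, h3⟩ := dom f1
      rcases f4 d h2 with (rfl | rfl | rfl | rfl) | rfl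
      · exact absurd (mem_symm h3) he1z
      · exact mem_symm h3
      · exact absurd ea.1.2 (not_hub_of_cls h1)
      · exact absurd eb.1.2 (not_hub_of_cls h1)
      · exact absurd h3 (G.irr _)
    have hee : e1 = e2 := by
      rcases g4 e1 he12 with (h | h | h | h) | h
      · exact absurd h f2.1
      · exact absurd f1 (by rw [h]; exact G.irr _)
      · exact absurd (h ▸ ec.1.1) he1z
      · exact absurd (h ▸ ed.1.1) he1z
      · exact h
    subst hee
    refine G.conn' [l1, l2, z] [ha, hb, hc, hd, e1] (by simp) ?_ (by simp [hw1, hw2, hzw])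
      (by simp [wa, wb, wc, wd, f3])
    intro u hu y hy
    simp only [List.mem_cons, List.not_mem_nil, or_false] at hu ⊢
    rcases hu with rfl | rfl | rfl
    · have := f4 y hy
      tauto
    · have := g4 y hy
      tauto
    · have := hallz y hy
      tauto

end WG

end Pool.Agent.Lib.MP_e95c01_co.W
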