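import Pool.Agent.Lib.MP_e95c01_co.W.Loc87

/-!
# Module T2
-/

namespace Pool.Agent.Lib.MP_e95c01_co.W

variable {C : Type} [Fintype C] [DecidableEq C] {G : WG C}

namespace WG

theorem t2_60 (G : WG C) : G.StT2 := by
  intro x Q l hx hQ hxQ htQ hqQ hl hxl hlQ htl hql
  have hQ6 : G.wt (G.nb Q) = 6 := hQ.cls
  have hl6 : G.wt (G.nb l) = 6 := hl.2
  have cQ := G.count Q
  have cl := G.count l
  have hwQ : G.w Q = 2 := hQ
  have hwl : G.w l = 1 := hl.1
  have hQl : Q ∈ G.nb l := mem_symm hlQ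
  -- the lows of `Q`
  obtain ⟨l2, hl2, hl2l, hTQ⟩ := two (s := G.TS Q) htQ (mem_TS.2 ⟨hlQ, hl⟩)
  obtain ⟨hl2Q, hl2L⟩ := mem_TS.1 hl2
  -- the pair of `Q`
  obtain ⟨Q', hQ'⟩ := Finset.card_eq_one.1 (show (G.QS Q).card = 1 from hqQ)
  obtain ⟨hQ'Q, hQ'P⟩ := mem_QS.1 (show Q' ∈ G.QS Q by rw [hQ']; simp)
  -- the hubs of `Q`
  obtain ⟨h, hh, hhx, hEQ⟩ := two (s := G.ES Q) (show G.e Q = 2 by omega)
    (mem_ES.2 ⟨mem_symm hxQ, hx⟩)
  obtain ⟨hhQ, hhH⟩ := mem_ES.1 hh
  -- the low of `l`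
  obtain ⟨l', hl'⟩ := Finset.card_eq_one.1 (show (G.TS l).card = 1 from htl)
  obtain ⟨hl'l, hl'L⟩ := mem_TS.1 (show l' ∈ G.TS l by rw [hl']; simp)
  -- the pair of `l`
  obtain ⟨Q0, hQ0⟩ := Finset.card_eq_one.1 (show (G.QS l).card = 1 from hql)
  have hQQ0 : Q = Q0 := by
    have h1 : Q ∈ G.QS l := mem_QS.2 ⟨hQl, hQ⟩
    rw [hQ0] at h1
    simpa using h1
  -- class neighbours of `l` are `l'` and `Q`
  have clsl : ∀ d ∈ G.nb l, G.Cls d → d = l' ∨ d = Q := by
    intro d hd hc
    rcases hc.cases with h1 | h1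
    · left
      have h2 : d ∈ G.TS l := mem_TS.2 ⟨hd, h1⟩
      rw [hl'] at h2
      simpa using h2
    · right
      have h2 : d ∈ G.QS l := mem_QS.2 ⟨hd, h1⟩
      rw [hQ0] at h2
      rw [hQQ0]
      simpa using h2
  have clsQ : ∀ d ∈ G.nb Q, G.Cls d → d = l ∨ d = l2 ∨ d = Q' := by
    intro d hd hc
    rcases hc.cases with h1 | h1
    · rcases hTQ d (mem_TS.2 ⟨hd, h1⟩) with h2 | h2
      · exact Or.inl h2
      · exact Or.inr (Or.inl h2)
    · right; right
      have h2 : d ∈ G.QS Q := mem_QS.2 ⟨hd, h1⟩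
      rw [hQ'] at h2
      simpa using h2
  -- `l' = l2`
  have hll : l' = l2 := by
    obtain ⟨d, hc, hd1, hd2⟩ := dom hQl
    rcases clsl d hd1 hc with rfl | rfl
    · rcases clsQ d hd2 hc with h1 | h1 | h1
      · exact absurd h1 (ne_of_mem hd1)
      · exact h1
      · exact absurd h1 (ne_lp hl'L hQ'P)
    · exact absurd hd2 (G.irr _)
  subst hll
  -- `l' ~ Q'`
  have hl'Q' : Q' ∈ G.nb l' := by
    obtain ⟨d, hc, hd1, hd2⟩ := dom hQ'Q
    rcases clsQ d hd1 hc with rfl | rfl | rfl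
    · have h1 : Q' ∈ G.QS d := mem_QS.2 ⟨mem_symm hd2, hQ'P⟩
      rw [hQ0, ← hQQ0] at h1
      have h2 : Q' = Q := by simpa using h1
      exact absurd h2 (ne_of_mem hQ'Q)
    · exact mem_symm hd2
    · exact absurd hd2 (G.irr _)
  -- the neighbourhood of `l'`
  obtain ⟨e2, he2, -, hwe2, hNl'⟩ := rest1 (z := l') hl'L.2 [Q, Q', l]
    (by
      simp only [List.nodup_cons, List.mem_cons, List.not_mem_nil, or_false, not_or,
        not_false_eq_true, List.nodup_nil, and_true]
      exact ⟨⟨(ne_of_mem hQ'Q).symm, (ne_lp hl hQ).symm⟩, (ne_lp hl hQ'P).symm⟩)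
    (by
      intro y hy
      simp only [List.mem_cons, List.not_mem_nil, or_false] at hy
      rcases hy with rfl | rfl | rfl
      · exact mem_symm hl2Q
      · exact hl'Q'
      · exact mem_symm hl'l)
    (by
      have : G.w Q' = 2 := hQ'P
      simp [hwQ, hwl, this])
  -- conclusion
  apply G.conn' [l, l', Q] [Q', x, h, e2] (by simp)
  · intro z hz y hy
    simp only [List.mem_cons, List.not_mem_nil, or_false] at hz ⊢
    rcases hz with rfl | rfl | rfl
    · rcases nb_cases hy with h1 | h1 | h1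
      · have h2 := clsl y hy (mem_TS.1 h1).2.2
        rcases h2 with h2 | h2
        · exact Or.inl (Or.inr (Or.inl h2))
        · exact Or.inl (Or.inr (Or.inr h2))
      · have h2 := clsl y hy (mem_QS.1 h1).2.cls
        rcases h2 with h2 | h2
        · exact Or.inl (Or.inr (Or.inl h2))
        · exact Or.inl (Or.inr (Or.inr h2))
      · have hyH := (mem_ES.1 h1).2
        obtain ⟨d, hc, hd1, hd2⟩ := dom hy
        rcases clsl d hd1 hc with rfl | rfl
        · rcases hNl' y (mem_symm hd2) with h2 | h2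
          · simp only [List.mem_cons, List.not_mem_nil, or_false] at h2
            rcases h2 with rfl | rfl | rfl
            · exact absurd rfl (ne_ph hQ hyH)
            · exact absurd rfl (ne_ph hQ'P hyH)
            · exact absurd rfl (ne_lh hl hyH)
          · exact Or.inr (Or.inr (Or.inr (Or.inr h2)))
        · rcases hEQ y (mem_ES.2 ⟨mem_symm hd2, hyH⟩) with h2 | h2
          · exact Or.inr (Or.inr (Or.inl h2))
          · exact Or.inr (Or.inr (Or.inr (Or.inl h2)))
    · rcases hNl' y hy with h2 | h2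
      · simp only [List.mem_cons, List.not_mem_nil, or_false] at h2
        rcases h2 with h2 | h2 | h2
        · exact Or.inl (Or.inr (Or.inr h2))
        · exact Or.inr (Or.inl h2)
        · exact Or.inl (Or.inl h2)
      · exact Or.inr (Or.inr (Or.inr (Or.inr h2)))
    · rcases nb_cases hy with h1 | h1 | h1
      · rcases hTQ y h1 with h2 | h2
        · exact Or.inl (Or.inl h2)
        · exact Or.inl (Or.inr (Or.inl h2))
      · rw [hQ'] at h1
        exact Or.inr (Or.inl (by simpa using h1))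
      · rcases hEQ y h1 with h2 | h2
        · exact Or.inr (Or.inr (Or.inl h2))
        · exact Or.inr (Or.inr (Or.inr (Or.inl h2)))
  · have h1 : G.w l' = 1 := hl'L.1
    simp [hwQ, hwl, h1]
  · have h1 : G.w Q' = 2 := hQ'P
    have h2 := hx.w
    have h3 := hhH.w
    simp [h1, h2, h3, hwe2]

end WG

end Pool.Agent.Lib.MP_e95c01_co.W
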