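import Pool.Agent.Lib.MP_e95c01_co.W.UA87

/-!
# Modules T4a, T4b, T4c
-/

namespace Pool.Agent.Lib.MP_e95c01_co.W

variable {C : Type} [Fintype C] [DecidableEq C] {G : WG C}

namespace WG

section lists
variable {D : Type} {P : D → Prop} {a b c d f : D}

theorem nd3_20 (h1 : a ≠ b) (h2 : a ≠ c) (h3 : b ≠ c) : [a, b, c].Nodup := by simp [*]
theorem nd4_20 (h1 : a ≠ b) (h2 : a ≠ c) (h3 : a ≠ d) (h4 : b ≠ c) (h5 : b ≠ d) (h6 : c ≠ d) :
    [a, b, c, d].Nodup := by simp [*]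
theorem nd5_20 (h1 : a ≠ b) (h2 : a ≠ c) (h3 : a ≠ d) (h3' : a ≠ f) (h4 : b ≠ c) (h5 : b ≠ d)
    (h5' : b ≠ f) (h6 : c ≠ d) (h6' : c ≠ f) (h7 : d ≠ f) :
    [a, b, c, d, f].Nodup := by simp [*]
theorem all3_20 (h1 : P a) (h2 : P b) (h3 : P c) : ∀ y ∈ [a, b, c], P y := by
  simp only [List.mem_cons, List.not_mem_nil, or_false, forall_eq_or_imp, forall_eq]
  exact ⟨h1, h2, h3⟩
theorem all4_20 (h1 : P a) (h2 : P b) (h3 : P c) (h4 : P d) : ∀ y ∈ [a, b, c, d], P y := by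
  simp only [List.mem_cons, List.not_mem_nil, or_false, forall_eq_or_imp, forall_eq]
  exact ⟨h1, h2, h3, h4⟩
theorem all5_20 (h1 : P a) (h2 : P b) (h3 : P c) (h4 : P d) (h5 : P f) :
    ∀ y ∈ [a, b, c, d, f], P y := by
  simp only [List.mem_cons, List.not_mem_nil, or_false, forall_eq_or_imp, forall_eq]
  exact ⟨h1, h2, h3, h4, h5⟩

end lists

/-- the half of T4a in which the hub is adjacent to the first pair -/
theorem t4aux20 (hP : G.StPair) {x l Q1 Q2 l' : C} (hx : G.Hub x) (hS : G.Small x) (hl : G.Low l)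
    (h1 : G.Pr Q1) (h2 : G.Pr Q2) (m1 : Q1 ∈ G.nb l) (hl' : G.Low l')
    (hll : l' ∈ G.nb l) (h12 : Q2 ∉ G.nb Q1) (nQ : Q1 ≠ Q2) (a1 : Q1 ∈ G.nb l') (a2 : Q2 ∈ G.nb l')
    (nl : ∀ z ∈ G.nb l, z = Q1 ∨ z = Q2 ∨ z = l' ∨ z = x) (hx1 : x ∈ G.nb Q1) : False := by
  have w1 : G.w Q1 = 2 := h1
  have w2 : G.w Q2 = 2 := h2
  have wl := hl.1
  have wl' := hl'.1
  have hlQ1 := ne_lp hl h1
  have hlQ2 := ne_lp hl h2
  have hll' : l' ≠ l := ne_of_mem hll
  obtain ⟨y, y1, y2, y3, y4⟩ := rest1 hl'.cls [Q1, Q2, l]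
    (nd3_20 nQ hlQ1.symm hlQ2.symm) (all3_20 a1 a2 (mem_symm hll))
    (by simp only [lw_cons, lw_nil]; omega)
  simp only [List.mem_cons, List.not_mem_nil, or_false] at y4
  have hk := hS Q1 (mem_symm hx1) h1.cls
  obtain ⟨p1, p2⟩ := hP Q1 h1
  have hc := cnt6 h1.cls
  have hcase : (G.t Q1 = 2 ∧ G.q Q1 = 1) ∨ (G.t Q1 = 3 ∧ G.q Q1 = 0 ∧ G.e Q1 = 3) := by
    by_cases h : G.t Q1 = 2
    · left
      refine ⟨h, ?_⟩
      have : G.q Q1 ≠ 0 := fun h0 => p2 ⟨h, h0⟩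
      omega
    · right
      omega
  rcases hcase with ⟨ht, hq⟩ | ⟨ht, hq, he⟩
  · have hq' : (G.QS Q1).card = 1 := hq
    obtain ⟨Q3, hQ3⟩ := Finset.card_pos.1 (by rw [hq']; exact Nat.one_pos)
    obtain ⟨m3, pQ3⟩ := mem_QS.1 hQ3
    obtain ⟨c, c1, c2, hT⟩ := two ht (mem_TS.2 ⟨mem_symm m1, hl⟩)
    have hcl' : c = l' := by
      rcases hT l' (mem_TS.2 ⟨mem_symm a1, hl'⟩) with h | h
      · exact absurd h hll'
      · exact h.symm
    subst hcl'
    obtain ⟨d, d1, d2, d3⟩ := dom m3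
    have hd : d = l ∨ d = c ∨ d = Q3 := by
      rcases d1.cases with h | h
      · rcases hT d (mem_TS.2 ⟨d2, h⟩) with h | h
        · exact Or.inl h
        · exact Or.inr (Or.inl h)
      · exact Or.inr (Or.inr (one hq hQ3 d (mem_QS.2 ⟨d2, h⟩)))
    rcases hd with rfl | rfl | rfl
    · rcases nl Q3 (mem_symm d3) with h | h | h | h
      · rw [h] at m3; exact G.irr _ m3
      · rw [h] at m3; exact h12 m3
      · exact ne_lp hl' pQ3 h.symm
      · exact ne_ph pQ3 hx h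
    · rcases y4 Q3 (mem_symm d3) with (h | h | h) | h
      · rw [h] at m3; exact G.irr _ m3
      · rw [h] at m3; exact h12 m3
      · exact ne_lp hl pQ3 h.symm
      · have : G.w Q3 = 2 := pQ3
        rw [h] at this
        omega
    · exact G.irr _ d3
  · obtain ⟨l3, l31, l32, l33, hT⟩ := three ht (mem_TS.2 ⟨mem_symm m1, hl⟩)
      (mem_TS.2 ⟨mem_symm a1, hl'⟩) hll'.symm
    obtain ⟨ml3, pl3⟩ := mem_TS.1 l31
    have hD : ∀ d ∈ G.nb Q1, G.Cls d → d = l ∨ d = l' ∨ d = l3 := by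
      intro d hd hc
      rcases hc.cases with h | h
      · exact hT d (mem_TS.2 ⟨hd, h⟩)
      · exfalso
        have h5 : d ∈ G.QS Q1 := mem_QS.2 ⟨hd, h⟩
        have h6 : (G.QS Q1).card = 0 := hq
        rw [Finset.card_eq_zero] at h6
        rw [h6] at h5
        simp at h5
    have nl3 : l3 ∉ G.nb l := by
      intro h
      rcases nl l3 h with h | h | h | h
      · exact ne_lp pl3 h1 h
      · exact ne_lp pl3 h2 h
      · exact l33 h
      · exact ne_lh pl3 hx h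
    have hyl3 : y = l3 := by
      obtain ⟨d, d1, d2, d3⟩ := dom ml3
      rcases hD d d2 d1 with rfl | rfl | rfl
      · exact absurd (mem_symm d3) nl3
      · rcases y4 l3 (mem_symm d3) with (h | h | h) | h
        · exact absurd h (ne_lp pl3 h1)
        · exact absurd h (ne_lp pl3 h2)
        · exact absurd h l32
        · exact h.symm
      · exact absurd d3 (G.irr _)
    subst hyl3
    have hub1 : ∀ h ∈ G.nb Q1, G.Hub h → h ≠ x → h ∈ G.nb y := by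
      intro h hh hhub hhx
      obtain ⟨d, d1, d2, d3⟩ := dom hh
      rcases hD d d2 d1 with rfl | rfl | rfl
      · exfalso
        rcases nl h (mem_symm d3) with h5 | h5 | h5 | h5
        · exact ne_ph h1 hhub h5.symm
        · exact ne_ph h2 hhub h5.symm
        · exact ne_lh hl' hhub h5.symm
        · exact hhx h5
      · exfalso
        rcases y4 h (mem_symm d3) with (h5 | h5 | h5) | h5
        · exact ne_ph h1 hhub h5.symm
        · exact ne_ph h2 hhub h5.symm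
        · exact ne_lh hl hhub h5.symm
        · exact ne_lh pl3 hhub h5.symm
      · exact mem_symm d3
    have he' : (G.ES Q1).card = 3 := he
    have he2 : ((G.ES Q1).erase x).card = 2 := by
      rw [Finset.card_erase_of_mem (mem_ES.2 ⟨hx1, hx⟩), he']
    obtain ⟨h, h', hne, hset⟩ := Finset.card_eq_two.1 he2
    have hh : h ∈ (G.ES Q1).erase x := by rw [hset]; simp
    have hh' : h' ∈ (G.ES Q1).erase x := by rw [hset]; simp
    rw [Finset.mem_erase, mem_ES] at hh hh'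
    obtain ⟨b1, b2, b3⟩ := hh
    obtain ⟨b1', b2', b3'⟩ := hh'
    have z1 := hub1 h b2 b3 b1
    have z2 := hub1 h' b2' b3' b1'
    have wh := Hub.w b3
    have wh' := Hub.w b3'
    have nd := nd4_20 (ne_lp hl' h1).symm (ne_ph h1 b3) (ne_ph h1 b3') (ne_lh hl' b3)
      (ne_lh hl' b3') hne
    obtain ⟨e, e1, e2, e3, e4⟩ := rest1 pl3.cls [Q1, l', h, h'] nd
      (all4_20 (mem_symm ml3) (mem_symm y1) z1 z2)
      (by simp only [lw_cons, lw_nil]; omega)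
    simp only [List.mem_cons, List.not_mem_nil, or_false, not_or] at e2 e4
    have eQ1 : e ∉ G.nb Q1 := by
      intro he
      have hcb := cbound h1.cls pl3.cls ml3 [l', h, h', e]
        (nd4_20 (ne_lh hl' b3) (ne_lh hl' b3') (Ne.symm e2.2.1) hne (Ne.symm e2.2.2.1)
          (Ne.symm e2.2.2.2))
        (all4_20 ⟨mem_symm a1, mem_symm y1⟩ ⟨b2, z1⟩ ⟨b2', z2⟩ ⟨he, e1⟩)
      simp only [lw_cons, lw_nil] at hcb
      omega
    have el' : e ∉ G.nb l' := by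
      intro he
      rcases y4 e he with (h5 | h5 | h5) | h5
      · exact e2.1 h5
      · rw [h5] at e3; omega
      · rw [h5] at e1; exact nl3 (mem_symm e1)
      · rw [h5] at e1; exact G.irr _ e1
    obtain ⟨d, d1, d2, d3⟩ := dom e1
    rcases e4 d d2 with (h5 | h5 | h5 | h5) | h5
    · rw [h5] at d3; exact eQ1 (mem_symm d3)
    · rw [h5] at d3; exact el' (mem_symm d3)
    · rw [h5] at d1; exact b3 d1
    · rw [h5] at d1; exact b3' d1
    · rw [h5] at d3; exact G.irr _ d3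

/-- the neighbourhood of a low vertex with one low neighbour and two pairs -/
theorem nbl20 {x l Q1 Q2 : C} (hx : G.Hub x) (hl : G.Low l) (hlx : l ∈ G.nb x)
    (ht : G.t l = 1) (h1 : G.Pr Q1) (m1 : Q1 ∈ G.nb l) (h2 : G.Pr Q2) (m2 : Q2 ∈ G.nb l)
    (nQ : Q1 ≠ Q2) : ∃ l', G.Low l' ∧ l' ∈ G.nb l ∧
      ∀ z ∈ G.nb l, z = Q1 ∨ z = Q2 ∨ z = l' ∨ z = x := by
  have ht' : (G.TS l).card = 1 := ht
  obtain ⟨l', hl'⟩ := Finset.card_pos.1 (by rw [ht']; exact Nat.one_pos)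
  obtain ⟨ml', pl'⟩ := mem_TS.1 hl'
  refine ⟨l', pl', ml', ?_⟩
  intro z hz
  have w1 : G.w Q1 = 2 := h1
  have w2 : G.w Q2 = 2 := h2
  have wl' := pl'.1
  have wx := Hub.w hx
  have h5 := full' hl.cls [Q1, Q2, l', x]
    (nd4_20 nQ (ne_lp pl' h1).symm (ne_ph h1 hx) (ne_lp pl' h2).symm (ne_ph h2 hx) (ne_lh pl' hx))
    (all4_20 m1 m2 ml' (mem_symm hlx)) (by simp only [lw_cons, lw_nil]; omega) hz
  simpa using h5

theorem t4a_20 (hP : G.StPair) : G.StT4a := by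
  intro x l Q1 Q2 hx hS hl hlx ht h1 m1 h2 m2 nQ
  by_contra h12
  obtain ⟨l', hl', hll, nl⟩ := nbl20 hx hl hlx ht h1 m1 h2 m2 nQ
  have w1 : G.w Q1 = 2 := h1
  have w2 : G.w Q2 = 2 := h2
  have wl := hl.1
  have wl' := hl'.1
  have wx := Hub.w hx
  have a1 : Q1 ∈ G.nb l' := by
    obtain ⟨d, d1, d2, d3⟩ := dom m1
    rcases nl d d2 with rfl | rfl | rfl | rfl
    · exact absurd d3 (G.irr _)
    · exact absurd d3 h12
    · exact mem_symm d3
    · exact absurd d1 hx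
  have a2 : Q2 ∈ G.nb l' := by
    obtain ⟨d, d1, d2, d3⟩ := dom m2
    rcases nl d d2 with rfl | rfl | rfl | rfl
    · exact absurd (mem_symm d3) h12
    · exact absurd d3 (G.irr _)
    · exact mem_symm d3
    · exact absurd d1 hx
  have hxl' : x ∉ G.nb l' := by
    intro h
    have hcb := cbound hl.cls hl'.cls hll [Q1, Q2, x]
      (nd3_20 nQ (ne_ph h1 hx) (ne_ph h2 hx))
      (all3_20 ⟨m1, a1⟩ ⟨m2, a2⟩ ⟨mem_symm hlx, h⟩)
    simp only [lw_cons, lw_nil] at hcb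
    omega
  obtain ⟨d, d1, d2, d3⟩ := dom (mem_symm hlx)
  rcases nl d d2 with h5 | h5 | h5 | h5
  · rw [h5] at d3
    exact t4aux20 hP hx hS hl h1 h2 m1 hl' hll h12 nQ a1 a2 nl (mem_symm d3)
  · rw [h5] at d3
    refine t4aux20 hP hx hS hl h2 h1 m2 hl' hll (fun h => h12 (mem_symm h)) nQ.symm a2 a1 ?_
      (mem_symm d3)
    intro z hz
    rcases nl z hz with h | h | h | h <;> simp [h]
  · rw [h5] at d3
    exact hxl' (mem_symm d3)
  · exact hx (h5 ▸ d1)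

/-- the core of T4b -/
theorem t4b_core20 {x l Q1 Q2 l' : C} (hx : G.Hub x) (hl : G.Low l)
    (h1 : G.Pr Q1) (h2 : G.Pr Q2) (m1 : Q1 ∈ G.nb l) (m2 : Q2 ∈ G.nb l) (hl' : G.Low l')
    (hlx : l ∈ G.nb x) (hll : l' ∈ G.nb l) (h12 : Q2 ∈ G.nb Q1) (nQ : Q1 ≠ Q2)
    (nl : ∀ z ∈ G.nb l, z = Q1 ∨ z = Q2 ∨ z = l' ∨ z = x)
    (hx' : l' ∈ G.nb x) (a1 : Q1 ∈ G.nb l') (hk : G.t l' + G.q l' ≤ 3) :
    G.t l' = 2 ∧ G.q l' = 1 := by
  have w1 : G.w Q1 = 2 := h1
  have w2 : G.w Q2 = 2 := h2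
  have wl := hl.1
  have wl' := hl'.1
  have wx := Hub.w hx
  have hll' : l' ≠ l := ne_of_mem hll
  have hQ2 : Q2 ∉ G.nb l' := by
    intro h
    have hcb := cbound hl.cls hl'.cls hll [Q1, Q2, x]
      (nd3_20 nQ (ne_ph h1 hx) (ne_ph h2 hx))
      (all3_20 ⟨m1, a1⟩ ⟨m2, h⟩ ⟨mem_symm hlx, mem_symm hx'⟩)
    simp only [lw_cons, lw_nil] at hcb
    omega
  have ht1 := one_le_t (mem_symm hll) hl
  have hq1 := one_le_q a1 h1
  have he1 := one_le_e (mem_symm hx') hx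
  have hc := cnt6 hl'.cls
  have hcase : (G.t l' = 2 ∧ G.q l' = 1) ∨ (G.t l' = 1 ∧ G.q l' = 2) ∨
      (G.t l' = 1 ∧ G.q l' = 1 ∧ G.e l' = 3) := by omega
  rcases hcase with h | ⟨ht, hq⟩ | ⟨ht, hq, he⟩
  · exact h
  · exfalso
    obtain ⟨Q3, q1, q2, q3⟩ := two hq (mem_QS.2 ⟨a1, h1⟩)
    obtain ⟨mQ3, pQ3⟩ := mem_QS.1 q1
    have w3 : G.w Q3 = 2 := pQ3
    have nl' : ∀ z ∈ G.nb l', z = Q1 ∨ z = Q3 ∨ z = l ∨ z = x := by
      intro z hz
      have h5 := full' hl'.cls [Q1, Q3, l, x]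
        (nd4_20 q2.symm (ne_lp hl h1).symm (ne_ph h1 hx) (ne_lp hl pQ3).symm (ne_ph pQ3 hx)
          (ne_lh hl hx))
        (all4_20 a1 mQ3 (mem_symm hll) (mem_symm hx')) (by simp only [lw_cons, lw_nil]; omega) hz
      simpa using h5
    have a3 : Q3 ∈ G.nb Q1 := by
      obtain ⟨d, d1, d2, d3⟩ := dom mQ3
      rcases nl' d d2 with h5 | h5 | h5 | h5
      · rw [h5] at d3; exact mem_symm d3
      · rw [h5] at d3; exact absurd d3 (G.irr _)
      · exfalso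
        rw [h5] at d3
        rcases nl Q3 (mem_symm d3) with h6 | h6 | h6 | h6
        · exact q2 h6
        · rw [h6] at mQ3; exact hQ2 mQ3
        · exact ne_lp hl' pQ3 h6.symm
        · exact ne_ph pQ3 hx h6
      · exact absurd (h5 ▸ d1) hx
    have nQ23 : Q2 ≠ Q3 := by
      rintro rfl
      exact hQ2 mQ3
    have nQ1 : ∀ z ∈ G.nb Q1, z = l ∨ z = l' ∨ z = Q2 ∨ z = Q3 := by
      intro z hz
      have h5 := full' h1.cls [l, l', Q2, Q3]
        (nd4_20 hll'.symm (ne_lp hl h2) (ne_lp hl pQ3) (ne_lp hl' h2) (ne_lp hl' pQ3) nQ23)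
        (all4_20 (mem_symm m1) (mem_symm a1) h12 a3) (by simp only [lw_cons, lw_nil]; omega) hz
      simpa using h5
    refine G.conn' [l, l', Q1] [Q2, Q3, x] (by simp) (all3_20 ?_ ?_ ?_) ?_ ?_
    · intro y hy
      rcases nl y hy with rfl | rfl | rfl | rfl <;> simp
    · intro y hy
      rcases nl' y hy with rfl | rfl | rfl | rfl <;> simp
    · intro y hy
      rcases nQ1 y hy with rfl | rfl | rfl | rfl <;> simp
    · simp only [lw_cons, lw_nil]; omega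
    · simp only [lw_cons, lw_nil]; omega
  · exfalso
    obtain ⟨hxe⟩ : Nonempty (x ∈ G.ES l') := ⟨mem_ES.2 ⟨mem_symm hx', hx⟩⟩
    have he' : (G.ES l').card = 3 := he
    have he2 : ((G.ES l').erase x).card = 2 := by
      rw [Finset.card_erase_of_mem hxe, he']
    obtain ⟨a, b, hne, hset⟩ := Finset.card_eq_two.1 he2
    have ha : a ∈ (G.ES l').erase x := by rw [hset]; simp
    have hb : b ∈ (G.ES l').erase x := by rw [hset]; simp
    rw [Finset.mem_erase, mem_ES] at ha hb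
    obtain ⟨b1, b2, b3⟩ := ha
    obtain ⟨b1', b2', b3'⟩ := hb
    have wa := Hub.w b3
    have wb := Hub.w b3'
    have nl' : ∀ z ∈ G.nb l', z = Q1 ∨ z = l ∨ z = x ∨ z = a ∨ z = b := by
      intro z hz
      have h5 := full' hl'.cls [Q1, l, x, a, b]
        (nd5_20 (ne_lp hl h1).symm (ne_ph h1 hx) (ne_ph h1 b3) (ne_ph h1 b3') (ne_lh hl hx)
          (ne_lh hl b3) (ne_lh hl b3') b1.symm b1'.symm hne)
        (all5_20 a1 (mem_symm hll) (mem_symm hx') b2 b2') (by simp only [lw_cons, lw_nil]; omega) hz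
      simpa using h5
    have cv : ∀ u ∈ G.nb l', G.Hub u → u ≠ x → u ∈ G.nb Q1 := by
      intro u hu hub hux
      obtain ⟨d, d1, d2, d3⟩ := dom hu
      rcases nl' d d2 with h5 | h5 | h5 | h5 | h5
      · rw [h5] at d3; exact mem_symm d3
      · exfalso
        rw [h5] at d3
        rcases nl u (mem_symm d3) with h6 | h6 | h6 | h6
        · exact ne_ph h1 hub h6.symm
        · exact ne_ph h2 hub h6.symm
        · exact ne_lh hl' hub h6.symm
        · exact hux h6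
      · exact absurd (h5 ▸ d1) hx
      · exact absurd (h5 ▸ d1) b3
      · exact absurd (h5 ▸ d1) b3'
    have ca := cv a b2 b3 b1
    have cb := cv b b2' b3' b1'
    have nQ1 : ∀ z ∈ G.nb Q1, z = l ∨ z = l' ∨ z = a ∨ z = b ∨ z = Q2 := by
      intro z hz
      have h5 := full' h1.cls [l, l', a, b, Q2]
        (nd5_20 hll'.symm (ne_lh hl b3) (ne_lh hl b3') (ne_lp hl h2) (ne_lh hl' b3)
          (ne_lh hl' b3') (ne_lp hl' h2) hne (ne_ph h2 b3).symm (ne_ph h2 b3').symm)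
        (all5_20 (mem_symm m1) (mem_symm a1) ca cb h12) (by simp only [lw_cons, lw_nil]; omega) hz
      simpa using h5
    refine G.conn' [l, l', Q1] [Q2, x, a, b] (by simp) (all3_20 ?_ ?_ ?_) ?_ ?_
    · intro y hy
      rcases nl y hy with rfl | rfl | rfl | rfl <;> simp
    · intro y hy
      rcases nl' y hy with rfl | rfl | rfl | rfl | rfl <;> simp
    · intro y hy
      rcases nQ1 y hy with rfl | rfl | rfl | rfl | rfl <;> simp
    · simp only [lw_cons, lw_nil]; omega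
    · simp only [lw_cons, lw_nil]; omega

theorem t4b_20 (hP : G.StPair) (hU : G.StU) : G.StT4b := by
  intro x l hx hS hl hlx ht hq
  have hq' : (G.QS l).card = 2 := hq
  obtain ⟨Q1, Q2, nQ, hset⟩ := Finset.card_eq_two.1 hq'
  have g1 : Q1 ∈ G.QS l := by rw [hset]; simp
  have g2 : Q2 ∈ G.QS l := by rw [hset]; simp
  obtain ⟨m1, h1⟩ := mem_QS.1 g1
  obtain ⟨m2, h2⟩ := mem_QS.1 g2
  obtain ⟨l', hl', hll, nl⟩ := nbl20 hx hl hlx ht h1 m1 h2 m2 nQ
  have h12 : Q2 ∈ G.nb Q1 := t4a_20 hP x l Q1 Q2 hx hS hl hlx ht h1 m1 h2 m2 nQ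
  have key : ∀ R1 R2 : C, G.Pr R1 → G.Pr R2 → R1 ∈ G.nb l → R2 ∈ G.nb l → R1 ≠ R2 →
      R2 ∈ G.nb R1 → R1 ∉ G.nb x := by
    intro R1 R2 p1 p2 n1 n2 hne hadj hcon
    exact hU l R1 R2 x l' hl p1 p2 hx
      (nd4_20 hne (ne_ph p1 hx) (ne_lp hl' p1).symm (ne_ph p2 hx) (ne_lp hl' p2).symm
        (ne_lh hl' hx).symm) n1 n2 (mem_symm hlx) hll hadj (mem_symm hcon) (hS R1 hcon p1.cls)
  have k1 := key Q1 Q2 h1 h2 m1 m2 nQ h12
  have k2 := key Q2 Q1 h2 h1 m2 m1 nQ.symm (mem_symm h12)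
  have hx' : l' ∈ G.nb x := by
    obtain ⟨d, d1, d2, d3⟩ := dom (mem_symm hlx)
    rcases nl d d2 with h5 | h5 | h5 | h5
    · exact absurd (h5 ▸ d3) k1
    · exact absurd (h5 ▸ d3) k2
    · exact h5 ▸ d3
    · exact absurd (h5 ▸ d1) hx
  refine ⟨?_, ?_⟩
  · intro Q pQ mQ
    have : Q ∈ G.QS l := mem_QS.2 ⟨mQ, pQ⟩
    rw [hset] at this
    simp only [Finset.mem_insert, Finset.mem_singleton] at this
    rcases this with rfl | rfl
    · exact k1
    · exact k2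
  · have hk := hS l' hx' hl'.cls
    obtain ⟨d, d1, d2, d3⟩ := dom hll
    rcases nl d d2 with h5 | h5 | h5 | h5
    · have a1 : Q1 ∈ G.nb l' := h5 ▸ (mem_symm (mem_symm d3))
      obtain ⟨r1, r2⟩ := t4b_core20 hx hl h1 h2 m1 m2 hl' hlx hll h12 nQ nl hx' a1 hk
      exact ⟨l', Q1, hl', hll, hx', r1, r2, h1, m1, a1⟩
    · have a1 : Q2 ∈ G.nb l' := h5 ▸ (mem_symm (mem_symm d3))
      obtain ⟨r1, r2⟩ := t4b_core20 hx hl h2 h1 m2 m1 hl' hlx hll (mem_symm h12) nQ.symm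
        (by
          intro z hz
          rcases nl z hz with h | h | h | h <;> simp [h]) hx' a1 hk
      exact ⟨l', Q2, hl', hll, hx', r1, r2, h2, m2, a1⟩
    · exact absurd (h5 ▸ d3) (G.irr _)
    · exact absurd (h5 ▸ d1) hx

theorem t4c_20 : G.StT4c := by
  intro x l s l' Q1 hx hl hs hls hlx hsx htl hql hts hqs hl' hlx' hll' hsl' _ h1 m1' m1 m1s f1 f2
  obtain ⟨Q2, q1, q2, -⟩ := two hql (mem_QS.2 ⟨m1, h1⟩)
  obtain ⟨R2, r1, r2, -⟩ := two hqs (mem_QS.2 ⟨m1s, h1⟩)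
  obtain ⟨mQ2, pQ2⟩ := mem_QS.1 q1
  obtain ⟨mR2, pR2⟩ := mem_QS.1 r1
  have w1 : G.w Q1 = 2 := h1
  have w2 : G.w Q2 = 2 := pQ2
  have w3 : G.w R2 = 2 := pR2
  have wl := hl.1
  have ws := hs.1
  have wl' := hl'.1
  have wx := Hub.w hx
  have hlnl' : l ≠ l' := (ne_of_mem hll').symm
  have hsnl' : s ≠ l' := (ne_of_mem hsl').symm
  have aQ2 := f1 Q2 pQ2 mQ2 q2
  have aR2 := f2 R2 pR2 mR2 r2
  have hQR : Q2 = R2 := by
    by_contra hne
    have h := lw_le' h1.cls [l, s, l', Q2, R2]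
      (nd5_20 hls hlnl' (ne_lp hl pQ2) (ne_lp hl pR2) hsnl' (ne_lp hs pQ2) (ne_lp hs pR2)
        (ne_lp hl' pQ2) (ne_lp hl' pR2) hne)
      (all5_20 (mem_symm m1) (mem_symm m1s) (mem_symm m1') aQ2 aR2)
    simp only [lw_cons, lw_nil] at h
    omega
  subst hQR
  have nbl : ∀ v : C, G.Low v → v ∈ G.nb x → Q1 ∈ G.nb v → Q2 ∈ G.nb v → l' ∈ G.nb v →
      ∀ z ∈ G.nb v, z = Q1 ∨ z = Q2 ∨ z = l' ∨ z = x := by
    intro v hv hvx e1 e2 e3 z hz
    have h5 := full' hv.cls [Q1, Q2, l', x]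
      (nd4_20 q2.symm (ne_lp hl' h1).symm (ne_ph h1 hx) (ne_lp hl' pQ2).symm (ne_ph pQ2 hx)
        (ne_lh hl' hx))
      (all4_20 e1 e2 e3 (mem_symm hvx)) (by simp only [lw_cons, lw_nil]; omega) hz
    simpa using h5
  have nl := nbl l hl hlx m1 mQ2 hll'
  have ns := nbl s hs hsx m1s mR2 hsl'
  obtain ⟨r, -, -, wr, nQ1⟩ := rest1 h1.cls [l, s, l', Q2]
    (nd4_20 hls hlnl' (ne_lp hl pQ2) hsnl' (ne_lp hs pQ2) (ne_lp hl' pQ2))
    (all4_20 (mem_symm m1) (mem_symm m1s) (mem_symm m1') aQ2)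
    (by simp only [lw_cons, lw_nil]; omega)
  obtain ⟨R, -, -, hR, nQ2⟩ := rest pQ2.cls [Q1, l, s]
    (nd3_20 (ne_lp hl h1).symm (ne_lp hs h1).symm hls)
    (all3_20 (mem_symm aQ2) (mem_symm mQ2) (mem_symm mR2))
  simp only [lw_cons, lw_nil] at hR
  refine G.conn' [l, s, Q1, Q2] (l' :: x :: r :: R) (by simp) (all4_20 ?_ ?_ ?_ ?_) ?_ ?_
  · intro y hy
    rcases nl y hy with rfl | rfl | rfl | rfl <;> simp
  · intro y hy
    rcases ns y hy with rfl | rfl | rfl | rfl <;> simp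
  · intro y hy
    rcases nQ1 y hy with h | h
    · simp only [List.mem_cons, List.not_mem_nil, or_false] at h
      rcases h with rfl | rfl | rfl | rfl <;> simp
    · simp [h]
  · intro y hy
    rcases nQ2 y hy with h | h
    · simp only [List.mem_cons, List.not_mem_nil, or_false] at h
      rcases h with rfl | rfl | rfl <;> simp
    · right
      simp [h]
  · simp only [lw_cons, lw_nil]; omega
  · simp only [lw_cons]; omega

end WG

end Pool.Agent.Lib.MP_e95c01_co.W
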