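import Pool.Agent.Lib.MP_e95c01_co.W.Loc87

/-!
# Module T56
-/

namespace Pool.Agent.Lib.MP_e95c01_co.W

variable {C : Type} [Fintype C] [DecidableEq C] {G : WG C}

namespace WG

theorem t56_60 (G : WG C) : G.StT56 := by
  intro x l Q hx hQ hxQ htQ hqQ hl hxl hlQ htl hql hD
  have hQ6 : G.wt (G.nb Q) = 6 := hQ.cls
  have hl6 : G.wt (G.nb l) = 6 := hl.2
  have cQ := G.count Q
  have cl := G.count l
  have hwQ : G.w Q = 2 := hQ
  have hwl : G.w l = 1 := hl.1
  have hwx : G.w x = 1 := hx.w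
  have hQl : Q ∈ G.nb l := mem_symm hlQ
  have hxlN : x ∈ G.nb l := mem_symm hxl
  have hxQN : x ∈ G.nb Q := mem_symm hxQ
  -- the low of `l`
  obtain ⟨l2, hl2⟩ := Finset.card_eq_one.1 (show (G.TS l).card = 1 from htl)
  obtain ⟨hl2l, hl2L⟩ := mem_TS.1 (show l2 ∈ G.TS l by rw [hl2]; simp)
  -- the pair of `l`
  obtain ⟨Q0, hQ0⟩ := Finset.card_eq_one.1 (show (G.QS l).card = 1 from hql)
  have hQQ0 : Q = Q0 := by
    have h1 : Q ∈ G.QS l := mem_QS.2 ⟨hQl, hQ⟩
    rw [hQ0] at h1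
    simpa using h1
  have clsl : ∀ d ∈ G.nb l, G.Cls d → d = l2 ∨ d = Q := by
    intro d hd hc
    rcases hc.cases with h1 | h1
    · left
      have h2 : d ∈ G.TS l := mem_TS.2 ⟨hd, h1⟩
      rw [hl2] at h2
      simpa using h2
    · right
      have h2 : d ∈ G.QS l := mem_QS.2 ⟨hd, h1⟩
      rw [hQ0] at h2
      rw [hQQ0]
      simpa using h2
  have hQS : G.QS Q = ∅ := Finset.card_eq_zero.1 (show (G.QS Q).card = 0 from hqQ)
  -- `l2 ~ Q`
  have hl2Q : l2 ∈ G.nb Q := by
    obtain ⟨d, hc, hd1, hd2⟩ := dom hQl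
    rcases clsl d hd1 hc with rfl | rfl
    · exact hd2
    · exact absurd hd2 (G.irr _)
  -- the lows of `Q`
  obtain ⟨l3, hl3, hl3l, hl3l2, hTQ⟩ := three (s := G.TS Q) htQ (mem_TS.2 ⟨hlQ, hl⟩)
    (mem_TS.2 ⟨hl2Q, hl2L⟩) (ne_of_mem hl2l).symm
  obtain ⟨hl3Q, hl3L⟩ := mem_TS.1 hl3
  have clsQ : ∀ d ∈ G.nb Q, G.Cls d → d = l ∨ d = l2 ∨ d = l3 := by
    intro d hd hc
    rcases hc.cases with h1 | h1
    · exact hTQ d (mem_TS.2 ⟨hd, h1⟩)
    · have h2 : d ∈ G.QS Q := mem_QS.2 ⟨hd, h1⟩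
      rw [hQS] at h2
      simp at h2
  -- hubs of `l` and `Q` besides `x`
  obtain ⟨h, h', hhne, hhs⟩ := Finset.card_eq_two.1 (show ((G.ES l).erase x).card = 2 by
    rw [Finset.card_erase_of_mem (mem_ES.2 ⟨hxlN, hx⟩)]
    have : (G.ES l).card = G.e l := rfl
    omega)
  obtain ⟨a, b, habne, habs⟩ := Finset.card_eq_two.1 (show ((G.ES Q).erase x).card = 2 by
    rw [Finset.card_erase_of_mem (mem_ES.2 ⟨hxQN, hx⟩)]
    have : (G.ES Q).card = G.e Q := rfl
    omega)
  have hh1 : h ∈ (G.ES l).erase x := by rw [hhs]; simp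
  have hh2 : h' ∈ (G.ES l).erase x := by rw [hhs]; simp
  have ha1 : a ∈ (G.ES Q).erase x := by rw [habs]; simp
  have hb1 : b ∈ (G.ES Q).erase x := by rw [habs]; simp
  obtain ⟨hhx, hh⟩ := Finset.mem_erase.1 hh1
  obtain ⟨hh'x, hh'⟩ := Finset.mem_erase.1 hh2
  obtain ⟨hax, ha⟩ := Finset.mem_erase.1 ha1
  obtain ⟨hbx, hb⟩ := Finset.mem_erase.1 hb1
  obtain ⟨hhl, hhH⟩ := mem_ES.1 hh
  obtain ⟨hh'l, hh'H⟩ := mem_ES.1 hh'
  obtain ⟨haQ, haH⟩ := mem_ES.1 ha
  obtain ⟨hbQ, hbH⟩ := mem_ES.1 hb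
  have hubl : ∀ y ∈ G.nb l, G.Hub y → y = x ∨ y = h ∨ y = h' := by
    intro y hy hyH
    by_cases h1 : y = x
    · exact Or.inl h1
    · right
      have h2 : y ∈ (G.ES l).erase x := Finset.mem_erase.2 ⟨h1, mem_ES.2 ⟨hy, hyH⟩⟩
      rw [hhs] at h2
      simpa using h2
  have hubQ : ∀ y ∈ G.nb Q, G.Hub y → y = x ∨ y = a ∨ y = b := by
    intro y hy hyH
    by_cases h1 : y = x
    · exact Or.inl h1
    · right
      have h2 : y ∈ (G.ES Q).erase x := Finset.mem_erase.2 ⟨h1, mem_ES.2 ⟨hy, hyH⟩⟩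
      rw [habs] at h2
      simpa using h2
  -- neighbours of `x`
  have Nx : ∀ y ∈ G.nb x, y ∈ [l, Q, h, h', a, b] := by
    intro y hy
    simp only [List.mem_cons, List.not_mem_nil, or_false]
    by_cases hyc : G.Cls y
    · rcases hD y hy hyc with h1 | h1
      · exact Or.inl h1
      · exact Or.inr (Or.inl h1)
    · obtain ⟨d, hc, hd1, hd2⟩ := dom hy
      have hyx : y ≠ x := ne_of_mem hy
      rcases hD d hd1 hc with rfl | rfl
      · rcases hubl y (mem_symm hd2) hyc with h1 | h1 | h1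
        · exact absurd h1 hyx
        · exact Or.inr (Or.inr (Or.inl h1))
        · exact Or.inr (Or.inr (Or.inr (Or.inl h1)))
      · rcases hubQ y (mem_symm hd2) hyc with h1 | h1 | h1
        · exact absurd h1 hyx
        · exact Or.inr (Or.inr (Or.inr (Or.inr (Or.inl h1))))
        · exact Or.inr (Or.inr (Or.inr (Or.inr (Or.inr h1))))
  have wh := hhH.w
  have wh' := hh'H.w
  have wa := haH.w
  have wb := hbH.w
  have small : ∀ L : List C, (∀ y ∈ G.nb x, y ∈ L) → 7 ≤ G.lw L := by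
    intro L hL
    have h1 := hx.deg
    have h2 : G.wt (G.nb x) ≤ G.wt L.toFinset := wt_mono fun y hy => by simpa using hL y hy
    have h3 := wt_toFinset_le (G := G) L
    omega
  -- distinctness
  have ne1 : h ≠ a := by
    intro e
    have h1 := small [l, Q, h, h', b] (fun y hy => by
      have h1 := Nx y hy
      rw [← e] at h1
      simp only [List.mem_cons, List.not_mem_nil, or_false] at h1 ⊢
      tauto)
    simp [hwQ, hwl, wh, wh', wb] at h1
  have ne2 : h ≠ b := by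
    intro e
    have h1 := small [l, Q, h, h', a] (fun y hy => by
      have h1 := Nx y hy
      rw [← e] at h1
      simp only [List.mem_cons, List.not_mem_nil, or_false] at h1 ⊢
      tauto)
    simp [hwQ, hwl, wh, wh', wa] at h1
  have ne3 : h' ≠ a := by
    intro e
    have h1 := small [l, Q, h, h', b] (fun y hy => by
      have h1 := Nx y hy
      rw [← e] at h1
      simp only [List.mem_cons, List.not_mem_nil, or_false] at h1 ⊢
      tauto)
    simp [hwQ, hwl, wh, wh', wb] at h1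
  have ne4 : h' ≠ b := by
    intro e
    have h1 := small [l, Q, h, h', a] (fun y hy => by
      have h1 := Nx y hy
      rw [← e] at h1
      simp only [List.mem_cons, List.not_mem_nil, or_false] at h1 ⊢
      tauto)
    simp [hwQ, hwl, wh, wh', wa] at h1
  -- `h, h'` are adjacent to `l2`
  have hl2h : ∀ y ∈ G.nb l, G.Hub y → y ≠ x → y ≠ a → y ≠ b → y ∈ G.nb l2 := by
    intro y hy hyH h1 h2 h3
    obtain ⟨d, hc, hd1, hd2⟩ := dom hy
    rcases clsl d hd1 hc with rfl | rfl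
    · exact mem_symm hd2
    · rcases hubQ y (mem_symm hd2) hyH with h4 | h4 | h4
      · exact absurd h4 h1
      · exact absurd h4 h2
      · exact absurd h4 h3
  have l2h : h ∈ G.nb l2 := hl2h h hhl hhH hhx ne1 ne2
  have l2h' : h' ∈ G.nb l2 := hl2h h' hh'l hh'H hh'x ne3 ne4
  -- `l3 ~ l2`
  have hl3nl : l3 ∉ G.nb l := by
    intro h1
    have h2 : l3 ∈ G.TS l := mem_TS.2 ⟨h1, hl3L⟩
    rw [hl2] at h2
    exact hl3l2 (by simpa using h2)
  have l2l3 : l3 ∈ G.nb l2 := by
    obtain ⟨d, hc, hd1, hd2⟩ := dom hl3Q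
    rcases clsQ d hd1 hc with rfl | rfl | rfl
    · exact absurd (mem_symm hd2) hl3nl
    · exact mem_symm hd2
    · exact absurd hd2 (G.irr _)
  have w2 : G.w l2 = 1 := hl2L.1
  have w3 : G.w l3 = 1 := hl3L.1
  -- the neighbourhood of `l2`
  have Nl2 : ∀ y ∈ G.nb l2, y ∈ [Q, l, h, h', l3] := by
    intro y hy
    refine full' (z := l2) hl2L.2 [Q, l, h, h', l3] ?_ ?_ ?_ hy
    · simp only [List.nodup_cons, List.mem_cons, List.not_mem_nil, or_false, not_or,
        not_false_eq_true, List.nodup_nil, and_true]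
      exact ⟨⟨(ne_lp hl hQ).symm, ne_ph hQ hhH, ne_ph hQ hh'H, (ne_lp hl3L hQ).symm⟩,
        ⟨ne_lh hl hhH, ne_lh hl hh'H, hl3l.symm⟩, ⟨hhne, (ne_lh hl3L hhH).symm⟩,
        (ne_lh hl3L hh'H).symm⟩
    · intro u hu
      simp only [List.mem_cons, List.not_mem_nil, or_false] at hu
      rcases hu with rfl | rfl | rfl | rfl | rfl
      · exact mem_symm hl2Q
      · exact mem_symm hl2l
      · exact l2h
      · exact l2h'
      · exact l2l3
    · simp [hwQ, hwl, wh, wh', w3]
  -- `a, b` are adjacent to `l3`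
  have hl3a : ∀ y ∈ G.nb Q, G.Hub y → y ≠ x → y ≠ h → y ≠ h' → y ∈ G.nb l3 := by
    intro y hy hyH h1 h2 h3
    obtain ⟨d, hc, hd1, hd2⟩ := dom hy
    rcases clsQ d hd1 hc with rfl | rfl | rfl
    · rcases hubl y (mem_symm hd2) hyH with h4 | h4 | h4
      · exact absurd h4 h1
      · exact absurd h4 h2
      · exact absurd h4 h3
    · have h4 := Nl2 y (mem_symm hd2)
      simp only [List.mem_cons, List.not_mem_nil, or_false] at h4
      rcases h4 with h4 | h4 | h4 | h4 | h4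
      · exact absurd h4.symm (ne_ph hQ hyH)
      · exact absurd h4.symm (ne_lh hl hyH)
      · exact absurd h4 h2
      · exact absurd h4 h3
      · exact absurd h4.symm (ne_lh hl3L hyH)
    · exact mem_symm hd2
  have l3a : a ∈ G.nb l3 := hl3a a haQ haH hax ne1.symm ne3.symm
  have l3b : b ∈ G.nb l3 := hl3a b hbQ hbH hbx ne2.symm ne4.symm
  -- the neighbourhood of `l3`
  obtain ⟨e3, -, -, we3, Nl3⟩ := rest1 (z := l3) hl3L.2 [Q, l2, a, b]
    (by
      simp only [List.nodup_cons, List.mem_cons, List.not_mem_nil, or_false, not_or,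
        not_false_eq_true, List.nodup_nil, and_true]
      exact ⟨⟨(ne_lp hl2L hQ).symm, ne_ph hQ haH, ne_ph hQ hbH⟩,
        ⟨ne_lh hl2L haH, ne_lh hl2L hbH⟩, habne⟩)
    (by
      intro u hu
      simp only [List.mem_cons, List.not_mem_nil, or_false] at hu
      rcases hu with rfl | rfl | rfl | rfl
      · exact mem_symm hl3Q
      · exact mem_symm l2l3
      · exact l3a
      · exact l3b)
    (by simp [hwQ, w2, wa, wb])
  -- conclusion
  apply G.conn' [x, l, l2, l3, Q] [h, h', a, b, e3] (by simp)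
  · intro z hz y hy
    simp only [List.mem_cons, List.not_mem_nil, or_false] at hz ⊢
    rcases hz with rfl | rfl | rfl | rfl | rfl
    · have h1 := Nx y hy
      simp only [List.mem_cons, List.not_mem_nil, or_false] at h1
      tauto
    · by_cases hyc : G.Cls y
      · have h1 := clsl y hy hyc
        tauto
      · have h1 := hubl y hy hyc
        tauto
    · have h1 := Nl2 y hy
      simp only [List.mem_cons, List.not_mem_nil, or_false] at h1
      tauto
    · have h1 := Nl3 y hy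
      simp only [List.mem_cons, List.not_mem_nil, or_false] at h1
      tauto
    · by_cases hyc : G.Cls y
      · have h1 := clsQ y hy hyc
        tauto
      · have h1 := hubQ y hy hyc
        tauto
  · simp [hwx, hwl, w2, w3, hwQ]
  · simp [wh, wh', wa, wb, we3]

end WG

end Pool.Agent.Lib.MP_e95c01_co.W
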