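import Pool.Agent.Lib.MP_e95c01_co.W.StmtsT

/-!
# From graphs to weighted class graphs: the transfer
-/

namespace Pool.Agent.Lib.MP_e95c01_co.W

namespace Transfer93

variable {V : Type} {G : SimpleGraph V}

theorem twin_symm {a b : V} (h : TwinPair G a b) : TwinPair G b a := by
  obtain ⟨h1, h2, h3⟩ := h
  refine ⟨h1.symm, ?_, fun v hv hv' => (h3 v hv' hv).symm⟩
  have hab : a ≠ b := h1.ne
  have e1 : insert a (G.neighborSet a) = insert b (G.neighborSet b) := by
    ext v
    simp only [Set.mem_insert_iff, SimpleGraph.mem_neighborSet]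
    by_cases hva : v = a
    · subst hva; simp [h1.symm]
    · by_cases hvb : v = b
      · subst hvb; simp [h1]
      · simp [hva, hvb, h3 v hva hvb]
  have f1 : (G.neighborSet a).Finite := Set.finite_of_ncard_ne_zero (by omega)
  have f2 : (G.neighborSet b).Finite := by
    have : (insert b (G.neighborSet b)).Finite := e1 ▸ f1.insert a
    exact this.subset (Set.subset_insert _ _)
  have e2 := congrArg Set.ncard e1
  rw [Set.ncard_insert_of_notMem (by simp) f1, Set.ncard_insert_of_notMem (by simp) f2] at e2
  omega

theorem twin_trans {a b c : V} (h : TwinPair G a b) (h' : TwinPair G b c) (hac : a ≠ c) :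
    TwinPair G a c := by
  obtain ⟨h1, h2, h3⟩ := h
  obtain ⟨k1, k2, k3⟩ := h'
  refine ⟨?_, h2, ?_⟩
  · exact (h3 c hac.symm k1.ne.symm).2 k1
  · intro v hva hvc
    by_cases hvb : v = b
    · subst hvb
      exact ⟨fun _ => k1.symm, fun _ => h1⟩
    · exact (h3 v hva hvb).trans (k3 v hvb hvc)

/-- the relation of the classes -/
def rel (G : SimpleGraph V) : Setoid V where
  r a b := a = b ∨ TwinPair G a b
  iseqv :=
    { refl := fun a => Or.inl rfl
      symm := by
        rintro a b (rfl | h)
        · exact Or.inl rfl
        · exact Or.inr (twin_symm h)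
      trans := by
        rintro a b c (rfl | h) (rfl | h')
        · exact Or.inl rfl
        · exact Or.inr h'
        · exact Or.inr h
        · by_cases hac : a = c
          · exact Or.inl hac
          · exact Or.inr (twin_trans h h' hac) }

/-- a vertex set of size at most 5 does not separate -/
theorem sep [Finite V] (hG : KConn 6 G) (S T : Set V) (hS : S.Nonempty) (hd : Disjoint S T)
    (hN : ∀ a ∈ S, ∀ v, G.Adj a v → v ∈ S ∨ v ∈ T) (hc : ∃ v, v ∉ S ∧ v ∉ T) :
    6 ≤ T.ncard := by
  by_contra hlt
  have hcon := (hG.2 T (by omega)).preconnected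
  obtain ⟨a, ha⟩ := hS
  obtain ⟨v, hv1, hv2⟩ := hc
  have haT : a ∈ Tᶜ := fun h => (Set.disjoint_left.1 hd) ha h
  obtain ⟨p⟩ := hcon ⟨a, haT⟩ ⟨v, hv2⟩
  have key : ∀ (u v : ↥(Tᶜ)) (_ : (G.induce Tᶜ).Walk u v), u.1 ∈ S → v.1 ∈ S := by
    intro u v q
    induction q with
    | nil => exact id
    | @cons u w v hadj q ih =>
      intro hu
      apply ih
      have hadj' : G.Adj u.1 w.1 := hadj
      rcases hN _ hu _ hadj' with h2 | h2
      · exact h2
      · exact absurd h2 w.2
  exact hv1 (key _ _ p ha)

section abstract

variable [Fintype V] {C : Type} [Fintype C] [DecidableEq C] {π : V → C}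

open Classical in
/-- weight of a class -/
noncomputable def ww (π : V → C) (z : C) : ℕ := (Finset.univ.filter fun v => π v = z).card

open Classical in
/-- adjacent classes -/
noncomputable def nn (G : SimpleGraph V) (π : V → C) (z : C) : Finset C :=
  Finset.univ.filter fun d => d ≠ z ∧ ∃ a b, π a = z ∧ π b = d ∧ G.Adj a b

theorem mem_nn {z d : C} : d ∈ nn G π z ↔ d ≠ z ∧ ∃ a b, π a = z ∧ π b = d ∧ G.Adj a b := by
  simp [nn]

omit [Fintype V] [Fintype C] [DecidableEq C] in
theorem adj_of (hker : ∀ a b, π a = π b ↔ a = b ∨ TwinPair G a b) {a a' v : V}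
    (h : π a = π a') (hv : π v ≠ π a) (hadj : G.Adj a v) : G.Adj a' v := by
  rcases (hker a a').1 h with rfl | h1
  · exact hadj
  · refine (h1.2.2 v ?_ ?_).1 hadj
    · rintro rfl; exact hv rfl
    · rintro rfl; exact hv h.symm

theorem adj_iff (hker : ∀ a b, π a = π b ↔ a = b ∨ TwinPair G a b) {a b : V}
    (h : π a ≠ π b) : G.Adj a b ↔ π b ∈ nn G π (π a) := by
  rw [mem_nn]
  constructor
  · intro h1
    exact ⟨h.symm, a, b, rfl, rfl, h1⟩
  · rintro ⟨-, a', b', ha, hb, h1⟩
    have h2 : G.Adj a b' := adj_of hker ha (by rw [hb, ha]; exact h.symm) h1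
    exact (adj_of hker hb (by rw [hb]; exact h) h2.symm).symm

omit [Fintype C] in
open Classical in
theorem sum_ww (π : V → C) (M : Finset C) :
    ∑ z ∈ M, ww π z = (Finset.univ.filter fun v => π v ∈ M).card := by
  have := Finset.card_eq_sum_card_fiberwise (f := π) (s := Finset.univ.filter fun v => π v ∈ M)
    (t := M) (by intro v hv; simpa using hv)
  rw [this]
  apply Finset.sum_congr rfl
  intro z hz
  rw [ww]
  congr 1
  ext v
  simp only [Finset.mem_filter, Finset.mem_univ, true_and]
  constructor
  · rintro rfl; exact ⟨hz, rfl⟩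
  · exact fun h => h.2

omit [Fintype V] [Fintype C] [DecidableEq C] in
theorem adj_of' (hker : ∀ a b, π a = π b ↔ a = b ∨ TwinPair G a b) {a b : V}
    (h : π a = π b) (hne : a ≠ b) : TwinPair G a b := by
  rcases (hker a b).1 h with h1 | h1
  · exact absurd h1 hne
  · exact h1

open Classical in
theorem deg_formula (hker : ∀ a b, π a = π b ↔ a = b ∨ TwinPair G a b) (v : V) :
    (G.neighborSet v).ncard + 1 = ∑ z ∈ nn G π (π v), ww π z + ww π (π v) := by
  rw [sum_ww, ww, ← Finset.card_union_of_disjoint]
  · have h1 : (insert v (G.neighborSet v)).ncard = (G.neighborSet v).ncard + 1 :=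
      Set.ncard_insert_of_notMem (by simp) (Set.toFinite _)
    rw [← h1, ← Set.ncard_coe_finset]
    congr 1
    ext u
    simp only [Set.mem_insert_iff, SimpleGraph.mem_neighborSet, Finset.coe_union,
      Finset.coe_filter, Finset.mem_univ, true_and, Set.mem_union, Set.mem_setOf_eq]
    by_cases h : π u = π v
    · constructor
      · exact fun _ => Or.inr h
      · intro _
        by_cases huv : u = v
        · exact Or.inl huv
        · exact Or.inr (adj_of' hker h huv).1.symm
    · have h2 : u ≠ v := by rintro rfl; exact h rfl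
      rw [adj_iff hker (Ne.symm h)]
      simp [h, h2]
  · rw [Finset.disjoint_left]
    intro u hu hu'
    simp only [Finset.mem_filter, Finset.mem_univ, true_and] at hu hu'
    rw [hu', mem_nn] at hu
    exact hu.1 rfl

theorem ww_pos (hs : Function.Surjective π) (z : C) : 1 ≤ ww π z := by
  classical
  obtain ⟨v, rfl⟩ := hs z
  exact Finset.card_pos.2 ⟨v, by simp⟩

theorem sum_of_two (hker : ∀ a b, π a = π b ↔ a = b ∨ TwinPair G a b) {z : C}
    (h : 2 ≤ ww π z) : ∑ y ∈ nn G π z, ww π y + ww π z = 8 := by
  classical
  obtain ⟨a, ha, b, hb, hab⟩ := Finset.one_lt_card.1 (show 1 < _ from h)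
  simp only [Finset.mem_filter, Finset.mem_univ, true_and] at ha hb
  have h1 : TwinPair G a b := adj_of' hker (ha.trans hb.symm) hab
  have h2 := deg_formula hker a
  rw [h1.2.1, ha] at h2
  omega

theorem conn_of (hG : KConn 6 G) (hker : ∀ a b, π a = π b ↔ a = b ∨ TwinPair G a b)
    (hs : Function.Surjective π) (S T : Finset C) (hS : S.Nonempty)
    (hN : ∀ z ∈ S, nn G π z ⊆ S ∪ T)
    (hc : ∑ z ∈ S, ww π z + ∑ z ∈ T, ww π z < Nat.card V) : 6 ≤ ∑ z ∈ T, ww π z := by
  classical
  rw [sum_ww, sum_ww, Nat.card_eq_fintype_card] at hc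
  have h1 : 6 ≤ ({v : V | π v ∈ T \ S} : Set V).ncard := by
    apply sep hG {v | π v ∈ S}
    · obtain ⟨z, hz⟩ := hS
      obtain ⟨v, rfl⟩ := hs z
      exact ⟨v, hz⟩
    · rw [Set.disjoint_left]
      intro v hv hv'
      simp only [Set.mem_setOf_eq, Finset.mem_sdiff] at hv hv'
      exact hv'.2 hv
    · intro a ha v hv
      simp only [Set.mem_setOf_eq, Finset.mem_sdiff] at ha ⊢
      by_cases h : π v ∈ S
      · exact Or.inl h
      · right
        refine ⟨?_, h⟩
        have h2 : π a ≠ π v := by
          intro h3
          rw [← h3] at h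
          exact h ha
        have h3 := hN _ ha ((adj_iff hker h2).1 hv)
        rw [Finset.mem_union] at h3
        exact h3.resolve_left h
    · by_contra hcon
      push_neg at hcon
      have h2 : (Finset.univ : Finset V) ⊆ (Finset.univ.filter fun v => π v ∈ S) ∪
          (Finset.univ.filter fun v => π v ∈ T) := by
        intro v _
        simp only [Finset.mem_union, Finset.mem_filter, Finset.mem_univ, true_and]
        by_cases h : π v ∈ S
        · exact Or.inl h
        · right
          have := hcon v h
          simp only [Set.mem_setOf_eq, Finset.mem_sdiff] at this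
          exact this.1
      have h3 := (Finset.card_le_card h2).trans (Finset.card_union_le _ _)
      rw [Finset.card_univ] at h3
      omega
  rw [sum_ww]
  refine h1.trans ?_
  rw [← Set.ncard_coe_finset]
  apply Set.ncard_le_ncard _ (Set.toFinite _)
  intro v hv
  simp only [Set.mem_setOf_eq, Finset.mem_sdiff] at hv
  simp [hv.1]

theorem ww_le (hG : KConn 6 G) (hn : 12 ≤ Nat.card V)
    (hker : ∀ a b, π a = π b ↔ a = b ∨ TwinPair G a b)
    (hs : Function.Surjective π) (z : C) : ww π z ≤ 2 := by
  by_contra h
  have h1 := sum_of_two (G := G) hker (z := z) (by omega)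
  have h2 := conn_of hG hker hs {z} (nn G π z) ⟨z, by simp⟩ (by
    intro y hy
    simp only [Finset.mem_singleton] at hy
    subst hy
    exact Finset.subset_union_right) (by rw [Finset.sum_singleton]; omega)
  omega

/-- the class graph -/
noncomputable def mk (hG : KConn 6 G) (hn : 12 ≤ Nat.card V)
    (hcov : ∀ x y, G.Adj x y → Covered G x y)
    (hker : ∀ a b, π a = π b ↔ a = b ∨ TwinPair G a b)
    (hs : Function.Surjective π) : WG C where
  nb := nn G π
  w := ww π
  irr z h := (mem_nn.1 h).1 rfl
  sym z y h := by
    rw [mem_nn] at h ⊢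
    obtain ⟨h1, a, b, ha, hb, hab⟩ := h
    exact ⟨h1.symm, b, a, hb, ha, hab.symm⟩
  w12 z := by
    have h1 := ww_le hG hn hker hs z
    have h2 := ww_pos hs z
    omega
  deg z := by
    by_contra h
    have h1 := ww_le hG hn hker hs z
    have h2 := conn_of hG hker hs {z} (nn G π z) ⟨z, by simp⟩ (by
      intro y hy
      simp only [Finset.mem_singleton] at hy
      subst hy
      exact Finset.subset_union_right) (by rw [Finset.sum_singleton]; omega)
    omega
  pr z hz := by
    have h1 := sum_of_two (G := G) hker (z := z) (by omega)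
    omega
  conn S T hS hN h6 := by
    by_contra h
    exact h (conn_of hG hker hs S T hS hN (by omega))
  cov a b hab := by
    rw [mem_nn] at hab
    obtain ⟨h1, x, y, hx, hy, hxy⟩ := hab
    rcases hcov x y hxy with ⟨v, hv, hvx, hvy⟩ | ⟨c, d, hcd, hxd, hyd, hcx, hcy⟩
    · have hcl : ∀ u, π u = π v → u = v := by
        intro u hu
        by_contra hne
        have h2 := adj_of' hker hu.symm (Ne.symm hne)
        have := h2.2.1
        omega
      have hw : ww π (π v) = 1 := by
        by_contra hw
        have h2 := ww_pos hs (π v)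
        have h3 := sum_of_two (G := G) hker (z := π v) (by omega)
        have h4 := deg_formula hker v
        omega
      have h4 := deg_formula hker v
      refine ⟨π v, by omega, ?_, ?_⟩
      · rw [← hx, ← adj_iff hker]
        · exact hvx
        · intro h5
          exact hvx.ne (hcl x h5.symm).symm
      · rw [← hy, ← adj_iff hker]
        · exact hvy
        · intro h5
          exact hvy.ne (hcl y h5.symm).symm
    · have hcd' : π c = π d := (hker c d).2 (Or.inr hcd)
      have hw2 : 2 ≤ ww π (π c) := by
        classical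
        have : 1 < ww π (π c) :=
          Finset.one_lt_card.2 ⟨c, by simp, d, by simp [hcd'], hcd.1.ne⟩
        omega
      have hw := ww_le hG hn hker hs (π c)
      have h3 := sum_of_two (G := G) hker hw2
      have hcl : ∀ u, π u = π c → u = c ∨ u = d := by
        classical
        intro u hu
        by_contra hne
        push_neg at hne
        have : 2 < ww π (π c) :=
          Finset.two_lt_card.2 ⟨u, by simp [hu], c, by simp, d, by simp [hcd'], hne.1, hne.2,
            hcd.1.ne⟩
        omega
      refine ⟨π c, by omega, ?_, ?_⟩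
      · rw [← hx, ← adj_iff hker]
        · exact hcx
        · intro h5
          rcases hcl x h5.symm with h6 | h6
          · exact hcx.ne h6.symm
          · exact hxd h6
      · rw [← hy, ← adj_iff hker]
        · exact hcy
        · intro h5
          rcases hcl y h5.symm with h6 | h6
          · exact hcy.ne h6.symm
          · exact hyd h6

end abstract

end Transfer93

/-- the class graph of a covered 6-connected graph -/
theorem transfer : StTransfer := by
  intro V _ G hG hn hcov
  classical
  have : Fintype V := Fintype.ofFinite V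
  let s := Transfer93.rel G
  let C := Quotient s
  have iC : Fintype C := Fintype.ofFinite C
  let π : V → C := Quotient.mk s
  have hker : ∀ a b, π a = π b ↔ a = b ∨ TwinPair G a b := fun a b => Quotient.eq (r := s)
  have hs : Function.Surjective π := Quotient.mk_surjective
  refine ⟨C, iC, inferInstance, Transfer93.mk hG hn hcov hker hs, ?_, ?_⟩
  · change ∑ z, Transfer93.ww π z = _
    rw [Transfer93.sum_ww]
    simp
  · rw [numDeg, ← Set.ncard_coe_finset]
    have hch : ∀ z : C, ∃ v, π v = z := hs
    choose ρ hρ using hch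
    apply Set.ncard_le_ncard_of_injOn ρ _ _ (Set.toFinite _)
    · intro z hz
      simp only [Finset.coe_filter, Finset.mem_univ, true_and, Set.mem_setOf_eq] at hz ⊢
      have h1 := Transfer93.deg_formula hker (ρ z)
      rw [hρ] at h1
      have h2 : Transfer93.ww π z = 1 := hz.1
      have h3 : ∑ y ∈ Transfer93.nn G π z, Transfer93.ww π y = 6 := hz.2
      omega
    · intro z _ z' _ h
      rw [← hρ z, ← hρ z', h]

end Pool.Agent.Lib.MP_e95c01_co.W
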