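import Pool.Agent.Lib.MP_e95c01_co.W.Loc87

/-!
# Modules U, T3, Q0, ADJ
-/

namespace Pool.Agent.Lib.MP_e95c01_co.W

variable {C : Type} [Fintype C] [DecidableEq C] {G : WG C}

namespace WG

theorem stQ0 : G.StQ0 := by
  intro x z hz hx hq
  have hlow : ∀ d ∈ G.nb z, G.Cls d → G.Low d := by
    intro d hd hc
    rcases Cls.cases hc with h | h
    · exact h
    · exfalso
      have h1 : d ∈ G.QS z := mem_QS.2 ⟨hd, h⟩
      have h2 : (G.QS z).card = 0 := hq
      rw [Finset.card_eq_zero] at h2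
      rw [h2] at h1
      simp at h1
  obtain ⟨d, h1, h2, h3⟩ := dom (mem_symm hx)
  obtain ⟨d', h4, h5, h6⟩ := dom h2
  refine ⟨d, hlow d h2 h1, h2, h3, ?_⟩
  have h7 : z ∈ G.TS d := mem_TS.2 ⟨mem_symm h2, hz⟩
  have h8 : d' ∈ G.TS d := mem_TS.2 ⟨h6, hlow d' h5 h4⟩
  have h9 : z ≠ d' := (ne_of_mem h5).symm
  have h10 : ({z, d'} : Finset C) ⊆ G.TS d := by
    intro a ha
    simp only [Finset.mem_insert, Finset.mem_singleton] at ha
    rcases ha with rfl | rfl <;> assumption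
  have h11 := Finset.card_le_card h10
  rw [Finset.card_pair h9] at h11
  exact h11

theorem cnt6 {z : C} (h : G.Cls z) : G.t z + 2 * G.q z + G.e z = 6 := (G.count z).trans h

theorem one_le_t {z l : C} (hl : l ∈ G.nb z) (h : G.Low l) : 1 ≤ G.t z :=
  Finset.card_pos.2 ⟨l, mem_TS.2 ⟨hl, h⟩⟩
theorem one_le_q {z l : C} (hl : l ∈ G.nb z) (h : G.Pr l) : 1 ≤ G.q z :=
  Finset.card_pos.2 ⟨l, mem_QS.2 ⟨hl, h⟩⟩
theorem one_le_e {z l : C} (hl : l ∈ G.nb z) (h : G.Hub l) : 1 ≤ G.e z :=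
  Finset.card_pos.2 ⟨l, mem_ES.2 ⟨hl, h⟩⟩

omit [Fintype C] [DecidableEq C] in
theorem one {s : Finset C} (h : s.card = 1) {a : C} (ha : a ∈ s) : ∀ c ∈ s, c = a := by
  rw [Finset.card_eq_one] at h
  obtain ⟨c, rfl⟩ := h
  intro d hd
  rw [Finset.mem_singleton] at ha hd
  rw [ha, hd]

theorem stU (hP : G.StPair) : G.StU := by
  intro l Q1 Q2 x y hl h1 h2 hx hnd m1 m2 mx my m12 mx1 hk
  have hlQ1 := ne_lp hl h1
  have hlQ2 := ne_lp hl h2
  have w1 : G.w Q1 = 2 := h1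
  have w2 : G.w Q2 = 2 := h2
  have wx : G.w x = 1 := hx.w
  have wl : G.w l = 1 := hl.1
  have hnd' := hnd
  simp only [List.nodup_cons, List.mem_cons, List.not_mem_nil, or_false, not_or,
    List.nodup_nil, and_true, not_false_eq_true] at hnd'
  obtain ⟨⟨n12, n1x, n1y⟩, ⟨n2x, n2y⟩, nxy⟩ := hnd'
  have mem_l : ∀ z ∈ [Q1, Q2, x, y], z ∈ G.nb l := by
    intro z hz
    simp only [List.mem_cons, List.not_mem_nil, or_false] at hz
    rcases hz with rfl | rfl | rfl | rfl <;> assumption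
  have wy : G.w y = 1 := by
    have h3 := lw_le' hl.2 _ hnd mem_l
    simp only [lw_cons, lw_nil] at h3
    have := G.w_pos y
    omega
  have nl : ∀ z ∈ G.nb l, z = Q1 ∨ z = Q2 ∨ z = x ∨ z = y := by
    intro z hz
    have h3 := full' hl.2 _ hnd mem_l (by simp only [lw_cons, lw_nil]; omega) hz
    simpa using h3
  -- y is not adjacent to Q1
  have hy1 : y ∉ G.nb Q1 := by
    intro h
    have h3 := cbound (G := G) h1.cls hl.2 (mem_symm m1) [Q2, x, y] (by simp [n2x, n2y, nxy]) (by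
      intro z hz
      simp only [List.mem_cons, List.not_mem_nil, or_false] at hz
      rcases hz with rfl | rfl | rfl
      · exact ⟨m12, m2⟩
      · exact ⟨mx1, mx⟩
      · exact ⟨h, my⟩)
    simp only [lw_cons, lw_nil] at h3
    omega
  -- the type of Q1
  obtain ⟨a1, a2⟩ := hP Q1 h1
  have a3 := one_le_q m12 h2
  have a4 := cnt6 h1.cls
  have ht : G.t Q1 = 2 := by omega
  have hq : G.q Q1 = 1 := by omega
  have he : G.e Q1 = 2 := by omega
  obtain ⟨l', hl', nll', Tl⟩ := two ht (mem_TS.2 ⟨mem_symm m1, hl⟩)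
  obtain ⟨h, hh, nhx, Eh⟩ := two he (mem_ES.2 ⟨mx1, hx⟩)
  have Qh := one hq (mem_QS.2 ⟨m12, h2⟩)
  obtain ⟨ml', lowl'⟩ := mem_TS.1 hl'
  obtain ⟨mh, hubh⟩ := mem_ES.1 hh
  have nQ1 : ∀ z ∈ G.nb Q1, z = Q2 ∨ z = l ∨ z = l' ∨ z = x ∨ z = h := by
    intro z hz
    rcases nb_cases hz with h3 | h3 | h3
    · rcases Tl z h3 with h4 | h4 <;> simp [h4]
    · simp [Qh z h3]
    · rcases Eh z h3 with h4 | h4 <;> simp [h4]
  -- y is adjacent to Q2
  have hy2 : y ∈ G.nb Q2 := by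
    obtain ⟨d, d1, d2, d3⟩ := dom my
    rcases nl d d2 with rfl | rfl | rfl | rfl
    · exact absurd (mem_symm d3) hy1
    · exact mem_symm d3
    · exact absurd d1 hx
    · exact absurd d3 (G.irr _)
  -- l' is adjacent to Q2
  have hl2 : l' ∈ G.nb Q2 := by
    obtain ⟨d, d1, d2, d3⟩ := dom ml'
    rcases nQ1 d d2 with rfl | rfl | rfl | rfl | rfl
    · exact mem_symm d3
    · exfalso
      rcases nl l' (mem_symm d3) with h3 | h3 | h3 | h3
      · exact ne_lp lowl' h1 h3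
      · exact ne_lp lowl' h2 h3
      · exact ne_lh lowl' hx h3
      · rw [h3] at ml'
        exact hy1 ml'
    · exact absurd d3 (G.irr _)
    · exact absurd d1 hx
    · exact absurd d1 hubh
  -- the last neighbour of Q2
  have nly : l ≠ y := (ne_of_mem my).symm
  have nl'y : l' ≠ y := ne_nb ml' hy1
  obtain ⟨y2, -, -, wy2, nQ2⟩ := rest1 h2.cls [Q1, l, l', y] (by
      simp [Ne.symm hlQ1, Ne.symm (ne_lp lowl' h1), n1y, Ne.symm nll', nly, nl'y]) (by
      intro z hz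
      simp only [List.mem_cons, List.not_mem_nil, or_false] at hz
      rcases hz with rfl | rfl | rfl | rfl
      · exact mem_symm m12
      · exact mem_symm m2
      · exact hl2
      · exact hy2) (by
      simp only [lw_cons, lw_nil, lowl'.1]; omega)
  apply G.conn' [l, Q1, Q2] [x, y, l', h, y2] (by simp)
  · intro z hz u hu
    simp only [List.mem_cons, List.not_mem_nil, or_false] at hz
    rcases hz with rfl | rfl | rfl
    · rcases nl u hu with rfl | rfl | rfl | rfl <;> simp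
    · rcases nQ1 u hu with rfl | rfl | rfl | rfl | rfl <;> simp
    · rcases nQ2 u hu with h3 | rfl
      · simp only [List.mem_cons, List.not_mem_nil, or_false] at h3
        rcases h3 with rfl | rfl | rfl | rfl <;> simp
      · simp
  · simp only [lw_cons, lw_nil]; omega
  · simp only [lw_cons, lw_nil, lowl'.1, hubh.w]; omega

theorem stT3 (hP : G.StPair) : G.StT3 := by
  intro x l hx hS hl hlx ⟨ht, hq⟩
  have hc := cnt6 hl.2
  obtain ⟨Q1, hQ1⟩ := Finset.card_pos.1 (by have : (G.QS l).card = 2 := hq; omega : 0 < (G.QS l).card)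
  obtain ⟨Q2, hQ2, n21, hall⟩ := two hq hQ1
  obtain ⟨m1, p1⟩ := mem_QS.1 hQ1
  obtain ⟨m2, p2⟩ := mem_QS.1 hQ2
  have he2 : G.e l = 2 := by omega
  obtain ⟨y, hy, nyx, Ex⟩ := two (s := G.ES l) he2 (mem_ES.2 ⟨mem_symm hlx, hx⟩)
  obtain ⟨my, hubY⟩ := mem_ES.1 hy
  have hD : ∀ d ∈ G.nb l, G.Cls d → d = Q1 ∨ d = Q2 := by
    intro d hd hc
    rcases nb_cases hd with h | h | h
    · exfalso
      have h1 := one_le_t hd (mem_TS.1 h).2
      omega
    · exact hall d h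
    · exact absurd hc (mem_ES.1 h).2
  have h12 : Q2 ∈ G.nb Q1 := by
    obtain ⟨d, d1, d2, d3⟩ := dom m1
    rcases hD d d2 d1 with rfl | rfl
    · exact absurd d3 (G.irr _)
    · exact d3
  obtain ⟨d, d1, d2, d3⟩ := dom (mem_symm hlx)
  rcases hD d d2 d1 with rfl | rfl
  · exact stU hP l d Q2 x y hl p1 p2 hx (by simp [Ne.symm n21, ne_ph p1 hx, ne_ph p1 hubY,
      ne_ph p2 hx, ne_ph p2 hubY, Ne.symm nyx]) m1 m2 (mem_symm hlx) my h12 (mem_symm d3)
      (hS d d3 p1.cls)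
  · exact stU hP l d Q1 x y hl p2 p1 hx (by simp [n21, ne_ph p1 hx, ne_ph p1 hubY,
      ne_ph p2 hx, ne_ph p2 hubY, Ne.symm nyx]) m2 m1 (mem_symm hlx) my (mem_symm h12)
      (mem_symm d3) (hS d d3 p2.cls)

theorem stAdj (hP : G.StPair) : G.StAdj := by
  intro x Q Q' hx hS h1 h2 mQx mQ'x hQQ
  have w1 : G.w Q = 2 := h1
  have w2 : G.w Q' = 2 := h2
  have wx : G.w x = 1 := hx.w
  have key : ∀ A, G.Pr A → A ∈ G.nb x → 1 ≤ G.q A → G.t A = 2 ∧ G.q A = 1 ∧ G.e A = 2 := by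
    intro A hA mA hq
    obtain ⟨a1, a2⟩ := hP A hA
    have a3 := hS A mA hA.cls
    have a4 := cnt6 hA.cls
    omega
  obtain ⟨t1, q1, e1⟩ := key Q h1 mQx (one_le_q hQQ h2)
  obtain ⟨t2, q2, e2⟩ := key Q' h2 mQ'x (one_le_q (mem_symm hQQ) h1)
  have Q1u := one (s := G.QS Q) q1 (mem_QS.2 ⟨hQQ, h2⟩)
  have Q2u := one (s := G.QS Q') q2 (mem_QS.2 ⟨mem_symm hQQ, h1⟩)
  obtain ⟨h, hh, nhx, Eh⟩ := two (s := G.ES Q) e1 (mem_ES.2 ⟨mem_symm mQx, hx⟩)
  obtain ⟨h', hh', nhx', Eh'⟩ := two (s := G.ES Q') e2 (mem_ES.2 ⟨mem_symm mQ'x, hx⟩)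
  -- a low vertex adjacent to both
  obtain ⟨l, dl, ml, ml'⟩ := dom hQQ
  have lowl : G.Low l := by
    rcases nb_cases ml with h3 | h3 | h3
    · exact (mem_TS.1 h3).2
    · rw [Q1u l h3] at ml'
      exact absurd ml' (G.irr _)
    · exact absurd dl (mem_ES.1 h3).2
  obtain ⟨l2, hl2, nl2, Tl⟩ := two (s := G.TS Q) t1 (mem_TS.2 ⟨ml, lowl⟩)
  obtain ⟨l4, hl4, nl4, Tl'⟩ := two (s := G.TS Q') t2 (mem_TS.2 ⟨ml', lowl⟩)
  obtain ⟨ml2, lowl2⟩ := mem_TS.1 hl2
  obtain ⟨ml4, lowl4⟩ := mem_TS.1 hl4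
  have nQ : ∀ z ∈ G.nb Q, z = Q' ∨ z = l ∨ z = l2 ∨ z = x ∨ z = h := by
    intro z hz
    rcases nb_cases hz with h3 | h3 | h3
    · rcases Tl z h3 with h4 | h4 <;> simp [h4]
    · simp [Q1u z h3]
    · rcases Eh z h3 with h4 | h4 <;> simp [h4]
  have nQ' : ∀ z ∈ G.nb Q', z = Q ∨ z = l ∨ z = l4 ∨ z = x ∨ z = h' := by
    intro z hz
    rcases nb_cases hz with h3 | h3 | h3
    · rcases Tl' z h3 with h4 | h4 <;> simp [h4]
    · simp [Q2u z h3]
    · rcases Eh' z h3 with h4 | h4 <;> simp [h4]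
  -- no third common neighbour
  have hcom : ∀ u, u ∈ G.nb Q → u ∈ G.nb Q' → G.Low u → u = l := by
    intro u hu hu' hlu
    by_contra hne
    have h3 := cbound (G := G) h1.cls h2.cls hQQ [x, l, u] (by
        simp [Ne.symm (ne_lh lowl hx), Ne.symm (ne_lh hlu hx), Ne.symm hne]) (by
      intro z hz
      simp only [List.mem_cons, List.not_mem_nil, or_false] at hz
      rcases hz with rfl | rfl | rfl
      · exact ⟨mem_symm mQx, mem_symm mQ'x⟩
      · exact ⟨ml, ml'⟩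
      · exact ⟨hu, hu'⟩)
    simp only [lw_cons, lw_nil, lowl.1, hlu.1] at h3
    omega
  have hll2 : l2 ∈ G.nb l := by
    obtain ⟨d, d1, d2, d3⟩ := dom ml2
    rcases nQ d d2 with rfl | rfl | rfl | rfl | rfl
    · exact absurd (hcom l2 ml2 (mem_symm d3) lowl2) nl2
    · exact mem_symm d3
    · exact absurd d3 (G.irr _)
    · exact absurd d1 hx
    · exact absurd d1 (mem_ES.1 hh).2
  have hll4 : l4 ∈ G.nb l := by
    obtain ⟨d, d1, d2, d3⟩ := dom ml4
    rcases nQ' d d2 with rfl | rfl | rfl | rfl | rfl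
    · exact absurd (hcom l4 (mem_symm d3) ml4 lowl4) nl4
    · exact mem_symm d3
    · exact absurd d3 (G.irr _)
    · exact absurd d1 hx
    · exact absurd d1 (mem_ES.1 hh').2
  have n24 : l2 ≠ l4 := by
    rintro rfl
    exact nl2 (hcom l2 ml2 ml4 lowl2)
  have nl : ∀ z ∈ G.nb l, z = Q ∨ z = Q' ∨ z = l2 ∨ z = l4 := by
    intro z hz
    have h3 := full' lowl.2 [Q, Q', l2, l4] (by
      simp [(ne_of_mem hQQ).symm, Ne.symm (ne_lp lowl2 h1), Ne.symm (ne_lp lowl4 h1),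
        Ne.symm (ne_lp lowl2 h2), Ne.symm (ne_lp lowl4 h2), n24]) (by
      intro z hz
      simp only [List.mem_cons, List.not_mem_nil, or_false] at hz
      rcases hz with rfl | rfl | rfl | rfl
      · exact mem_symm ml
      · exact mem_symm ml'
      · exact hll2
      · exact hll4) (by simp only [lw_cons, lw_nil, lowl2.1, lowl4.1]; omega) hz
    simpa using h3
  apply G.conn' [l, Q, Q'] [x, l2, h, l4, h'] (by simp)
  · intro z hz u hu
    simp only [List.mem_cons, List.not_mem_nil, or_false] at hz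
    rcases hz with rfl | rfl | rfl
    · rcases nl u hu with rfl | rfl | rfl | rfl <;> simp
    · rcases nQ u hu with rfl | rfl | rfl | rfl | rfl <;> simp
    · rcases nQ' u hu with rfl | rfl | rfl | rfl | rfl <;> simp
  · simp only [lw_cons, lw_nil, lowl.1]; omega
  · simp only [lw_cons, lw_nil, lowl2.1, lowl4.1, (mem_ES.1 hh).2.w, (mem_ES.1 hh').2.w]; omega

end WG

end Pool.Agent.Lib.MP_e95c01_co.W
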