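import Pool.Agent.Lib.MP_e95c01_co.Six
import Pool.Agent.Lib.MP_e95c01_co.W.Fin93
import Pool.Agent.Lib.MP_e95c01_co.W.Transfer93
import Pool.Agent.Lib.MP_e95c01_co.W.Pair36
import Pool.Agent.Lib.MP_e95c01_co.W.T2_60
import Pool.Agent.Lib.MP_e95c01_co.W.T56_60
import Pool.Agent.Lib.MP_e95c01_co.W.T420
import Pool.Agent.Lib.MP_e95c01_co.W.UA87
import Pool.Agent.Lib.MP_e95c01_co.W.Hub87

/-!
# Assembly: `3 n_6 ≥ n` for covered 6-connected graphs, and sharpness
-/

namespace Pool.Agent.Lib.MP_e95c01_co.W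

theorem stAll : StAll := by
  intro C _ _ W
  have hP : W.StPair := WG.stPair_36 W
  have hL : W.StLow := WG.stLow_36 W
  have hU : W.StU := WG.stU hP
  exact WG.fin_of W hP hL (WG.stHub hP hL (WG.stAdj hP) (WG.stT3 hP) WG.stQ0 (WG.t4a_20 hP)
    (WG.t4b_20 hP hU) WG.t4c_20 (WG.t2_60 W) (WG.t56_60 W))

/-- 6-connected graphs with at least 12 vertices all of whose edges are covered -/
theorem bound (V : Type) [Finite V] (G : SimpleGraph V) (hG : KConn 6 G) (hn : 12 ≤ Nat.card V)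
    (hc : ∀ x y, G.Adj x y → Covered G x y) : Nat.card V ≤ 3 * numDeg 6 G :=
  main_of transfer stAll V G hG hn hc

/-- such graphs are 6-contraction-critical -/
theorem critical_of (V : Type) [Finite V] (G : SimpleGraph V) (hG : KConn 6 G)
    (hn : 12 ≤ Nat.card V) (hc : ∀ x y, G.Adj x y → Covered G x y) : Critical 6 G := by
  refine ⟨hG, ?_⟩
  intro x y hxy
  rcases hc x y hxy with ⟨a, ha, hax, hay⟩ | ⟨a, b, ⟨hab, ha, htw⟩, hxb, hyb, hax, hay⟩
  · obtain ⟨b, hb⟩ : ∃ b, b ∉ G.neighborSet a ∪ {a} := by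
      by_contra h
      push Not at h
      have h1 : (G.neighborSet a ∪ {a}) = Set.univ := Set.eq_univ_of_forall h
      have h2 := Set.ncard_union_le (G.neighborSet a) {a}
      rw [h1, Set.ncard_univ, Set.ncard_singleton, ha] at h2
      omega
    simp only [Set.mem_union, Set.mem_singleton_iff, not_or] at hb
    refine not_kconn_contract (G.neighborSet a) {a} hax hay ha.le (a := a) (b := b) rfl
      (by simp) (by simpa using hb.2) hb.1 ?_
    intro u hu v huv
    rw [Set.mem_singleton_iff] at hu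
    subst hu
    exact Or.inr huv
  · obtain ⟨c, hc⟩ : ∃ c, c ∉ G.neighborSet a ∪ {a} := by
      by_contra h
      push Not at h
      have h1 : (G.neighborSet a ∪ {a}) = Set.univ := Set.eq_univ_of_forall h
      have h2 := Set.ncard_union_le (G.neighborSet a) {a}
      rw [h1, Set.ncard_univ, Set.ncard_singleton, ha] at h2
      omega
    simp only [Set.mem_union, Set.mem_singleton_iff, not_or] at hc
    have hcb : c ≠ b := by
      rintro rfl
      exact hc.1 hab
    refine not_kconn_contract (G.neighborSet a \ {b}) {a, b} ⟨hax, hxb⟩ ⟨hay, hyb⟩ ?_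
      (a := a) (b := c) (by simp) (by simp) (by simp [hc.2, hcb]) (fun h => hc.1 h.1) ?_
    · have h1 := Set.ncard_sdiff_singleton_of_mem (s := G.neighborSet a) hab
      omega
    · intro u hu v huv
      simp only [Set.mem_insert_iff, Set.mem_singleton_iff] at hu
      by_cases hva : v = a
      · exact Or.inl (by simp [hva])
      by_cases hvb : v = b
      · exact Or.inl (by simp [hvb])
      right
      rcases hu with rfl | rfl
      · exact ⟨huv, hvb⟩
      · exact ⟨(htw v hva hvb).2 huv, hvb⟩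

theorem Covered.symm {V : Type} {G : SimpleGraph V} {x y : V} (h : Covered G x y) :
    Covered G y x := by
  rcases h with ⟨a, h1, h2, h3⟩ | ⟨a, b, h1, h2, h3, h4, h5⟩
  · exact Or.inl ⟨a, h1, h3, h2⟩
  · exact Or.inr ⟨a, b, h1, h3, h2, h5, h4⟩

variable {m : ℕ}

theorem cov0 (hm : 3 ≤ m) {x : ZMod (3 * m)} (hx : res m x = 0) {d e : ℤ}
    (hd : d ∈ F 0) (he : e ∈ F 0) :
    Covered (G6 m) (x + (d : ZMod (3 * m))) (x + (e : ZMod (3 * m))) := by
  refine Or.inl ⟨x, ?_, ?_, ?_⟩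
  · rw [nbr_card hm, hx]; decide
  · rw [MP_e95c01_co.adj_iff hm, hx]; exact ⟨d, hd, rfl⟩
  · rw [MP_e95c01_co.adj_iff hm, hx]; exact ⟨e, he, rfl⟩

theorem cov1 (hm : 3 ≤ m) {x : ZMod (3 * m)} (hx : res m x = 1) {d e : ℤ}
    (hd : d ∈ F1) (he : e ∈ F1) :
    Covered (G6 m) (x + (d : ZMod (3 * m))) (x + (e : ZMod (3 * m))) := by
  have hF : ∀ d ∈ F1, d ∈ F 1 ∧ d ≠ 1 := by decide
  have hne : ∀ d ∈ F1, x + (d : ZMod (3 * m)) ≠ x + ((1 : ℤ) : ZMod (3 * m)) := by
    intro d hd h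
    exact (hF d hd).2 (cast_inj hm (F_abs 1 d (hF d hd).1) (by norm_num) (add_left_cancel h))
  have hr : res m (x + ((1 : ℤ) : ZMod (3 * m))) = 2 := by
    rw [map_add, map_intCast, hx]; decide
  refine Or.inr ⟨x, x + ((1 : ℤ) : ZMod (3 * m)), ⟨?_, ?_, ?_⟩, hne d hd, hne e he, ?_, ?_⟩
  · rw [MP_e95c01_co.adj_iff hm, hx]; exact ⟨1, by decide, rfl⟩
  · rw [nbr_card hm, hx]; decide
  · intro v hvx hvx1
    rw [MP_e95c01_co.adj_iff hm, MP_e95c01_co.adj_iff hm, hx, hr]
    have k1 : ∀ d ∈ F 1, d ≠ 1 → d - 1 ∈ F 2 := by decide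
    have k2 : ∀ d ∈ F 2, d ≠ -1 → d + 1 ∈ F 1 := by decide
    constructor
    · rintro ⟨d, hd, rfl⟩
      refine ⟨d - 1, k1 d hd ?_, ?_⟩
      · rintro rfl
        exact hvx1 rfl
      · push_cast; ring
    · rintro ⟨d, hd, rfl⟩
      refine ⟨d + 1, k2 d hd ?_, ?_⟩
      · rintro rfl
        apply hvx
        push_cast; ring
      · push_cast; ring
  · rw [MP_e95c01_co.adj_iff hm, hx]; exact ⟨d, (hF d hd).1, rfl⟩
  · rw [MP_e95c01_co.adj_iff hm, hx]; exact ⟨e, (hF e he).1, rfl⟩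

theorem covered6 (hm : 3 ≤ m) : ∀ x y, (G6 m).Adj x y → Covered (G6 m) x y := by
  intro x y hxy
  have h2 := hxy
  rw [MP_e95c01_co.adj_iff hm] at h2
  obtain ⟨d, hd, rfl⟩ := h2
  rcases lt_trichotomy d 0 with hneg | h0 | hpos
  · have h3 := hxy.symm
    rw [MP_e95c01_co.adj_iff hm] at h3
    obtain ⟨e, he, h4⟩ := h3
    have hed : e = -d := by
      have h5 : ((d + e : ℤ) : ZMod (3 * m)) = 0 := by
        have h6 : x = x + ((d + e : ℤ) : ZMod (3 * m)) := by
          push_cast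
          rw [← add_assoc]
          exact h4
        exact left_eq_add.mp h6
      have h7 : ((e : ℤ) : ZMod (3 * m)) = ((-d : ℤ) : ZMod (3 * m)) := by
        push_cast at h5 ⊢
        exact eq_neg_of_add_eq_zero_right h5
      exact cast_inj hm (F_abs _ e he) (by rw [abs_neg]; exact F_abs _ d hd) h7
    have h8 := not_contractible_pos (x + (d : ZMod (3 * m))) he (by omega)
      (fun u v => Covered (G6 m) v u)
      (fun x hx d hd e he => cov0 hm hx he hd) (fun x hx d hd e he => cov1 hm hx he hd)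
    rw [← h4] at h8
    exact h8
  · exact absurd h0 (F_ne _ d hd)
  · exact not_contractible_pos x hd hpos (fun u v => Covered (G6 m) u v)
      (fun x hx d hd e he => cov0 hm hx hd he) (fun x hx d hd e he => cov1 hm hx hd he)

end Pool.Agent.Lib.MP_e95c01_co.W
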