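import Pool.Agent.Lib.MP_e95c01_co.W.Stmts

/-!
# Helpers for the local modules
-/

namespace Pool.Agent.Lib.MP_e95c01_co.W

variable {C : Type} [Fintype C] [DecidableEq C] {G : WG C}

namespace WG

theorem ne_lp {a b : C} (ha : G.Low a) (hb : G.Pr b) : a ≠ b := by
  rintro rfl
  have h1 := ha.1
  have h2 : G.w a = 2 := hb
  omega

theorem ne_lh {a b : C} (ha : G.Low a) (hb : G.Hub b) : a ≠ b := by
  rintro rfl
  exact hb ha.2

theorem ne_ph {a b : C} (ha : G.Pr a) (hb : G.Hub b) : a ≠ b := by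
  rintro rfl
  exact hb ha.cls

theorem ne_nb {z a b : C} (ha : a ∈ G.nb z) (hb : b ∉ G.nb z) : a ≠ b := by
  rintro rfl
  exact hb ha

theorem two {s : Finset C} (h : s.card = 2) {a : C} (ha : a ∈ s) :
    ∃ b ∈ s, b ≠ a ∧ ∀ c ∈ s, c = a ∨ c = b := by
  rw [Finset.card_eq_two] at h
  obtain ⟨u, v, huv, rfl⟩ := h
  simp only [Finset.mem_insert, Finset.mem_singleton] at ha
  rcases ha with rfl | rfl
  · exact ⟨v, by simp, huv.symm, by simp⟩
  · refine ⟨u, by simp, huv, ?_⟩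
    intro c hc
    simp only [Finset.mem_insert, Finset.mem_singleton] at hc
    exact hc.symm

theorem three {s : Finset C} (h : s.card = 3) {a b : C} (ha : a ∈ s) (hb : b ∈ s) (hab : a ≠ b) :
    ∃ c ∈ s, c ≠ a ∧ c ≠ b ∧ ∀ d ∈ s, d = a ∨ d = b ∨ d = c := by
  have h1 : (s.erase a).card = 2 := by rw [Finset.card_erase_of_mem ha, h]
  obtain ⟨c, hc, hcb, hall⟩ := two h1 (Finset.mem_erase.2 ⟨hab.symm, hb⟩)
  obtain ⟨hca, hcs⟩ := Finset.mem_erase.1 hc
  refine ⟨c, hcs, hca, hcb, ?_⟩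
  intro d hd
  by_cases hda : d = a
  · exact Or.inl hda
  · exact Or.inr (hall d (Finset.mem_erase.2 ⟨hda, hd⟩))

/-- low neighbours -/
def TS (G : WG C) (z : C) : Finset C := (G.nb z).filter fun y => G.Low y
/-- neighbouring pairs -/
def QS (G : WG C) (z : C) : Finset C := (G.nb z).filter fun y => G.Pr y
/-- neighbouring hubs -/
def ES (G : WG C) (z : C) : Finset C := (G.nb z).filter fun y => G.Hub y

theorem mem_TS {z y : C} : y ∈ G.TS z ↔ y ∈ G.nb z ∧ G.Low y := by simp [TS]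
theorem mem_QS {z y : C} : y ∈ G.QS z ↔ y ∈ G.nb z ∧ G.Pr y := by simp [QS]
theorem mem_ES {z y : C} : y ∈ G.ES z ↔ y ∈ G.nb z ∧ G.Hub y := by simp [ES]

theorem nb_cases {z y : C} (h : y ∈ G.nb z) : y ∈ G.TS z ∨ y ∈ G.QS z ∨ y ∈ G.ES z := by
  rcases G.cases y with h1 | h1 | h1
  · exact Or.inl (mem_TS.2 ⟨h, h1⟩)
  · exact Or.inr (Or.inl (mem_QS.2 ⟨h, h1⟩))
  · exact Or.inr (Or.inr (mem_ES.2 ⟨h, h1⟩))

/-- the remaining neighbours -/
theorem rest {z : C} (hz : G.Cls z) (L : List C) (hL : L.Nodup) (h : ∀ y ∈ L, y ∈ G.nb z) :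
    ∃ R : List C, R.Nodup ∧ (∀ y ∈ R, y ∈ G.nb z ∧ y ∉ L) ∧ G.lw L + G.lw R = 6 ∧
      ∀ u ∈ G.nb z, u ∈ L ∨ u ∈ R := by
  refine ⟨(G.nb z \ L.toFinset).toList, Finset.nodup_toList _, by simp, ?_, ?_⟩
  · have h1 : G.lw (G.nb z \ L.toFinset).toList = G.wt (G.nb z \ L.toFinset) := by
      rw [← wt_toFinset (Finset.nodup_toList _), Finset.toList_toFinset]
    rw [h1, ← wt_toFinset hL]
    have h2 : G.wt (G.nb z \ L.toFinset) + G.wt L.toFinset = G.wt (G.nb z) := by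
      apply Finset.sum_sdiff
      intro y hy
      exact h y (by simpa using hy)
    have h3 : G.wt (G.nb z) = 6 := hz
    omega
  · intro u hu
    by_cases h1 : u ∈ L
    · exact Or.inl h1
    · right
      simp [hu, h1]

/-- one more neighbour of weight one -/
theorem rest1 {z : C} (hz : G.Cls z) (L : List C) (hL : L.Nodup) (h : ∀ y ∈ L, y ∈ G.nb z)
    (h5 : G.lw L = 5) : ∃ y, y ∈ G.nb z ∧ y ∉ L ∧ G.w y = 1 ∧ ∀ u ∈ G.nb z, u ∈ L ∨ u = y := by
  obtain ⟨R, h1, h2, h3, h4⟩ := rest hz L hL h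
  rw [h5] at h3
  match R, h1, h2, h3, h4 with
  | [], _, _, h3, _ => simp at h3
  | [y], _, h2, h3, h4 =>
    simp only [lw_cons, lw_nil] at h3
    obtain ⟨a1, a2⟩ := h2 y (by simp)
    exact ⟨y, a1, a2, by omega, fun u hu => by simpa using h4 u hu⟩
  | y :: y' :: R', _, _, h3, _ =>
    simp only [lw_cons] at h3
    have a1 := G.w_pos y
    have a2 := G.w_pos y'
    omega

theorem full' {z : C} (hz : G.Cls z) (L : List C) (hL : L.Nodup) (h : ∀ y ∈ L, y ∈ G.nb z)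
    (hw : G.lw L = 6) {y : C} (hy : y ∈ G.nb z) : y ∈ L :=
  full L hL h (by have : G.wt (G.nb z) = 6 := hz; omega) hy

theorem lw_le' {z : C} (hz : G.Cls z) (L : List C) (hL : L.Nodup) (h : ∀ y ∈ L, y ∈ G.nb z) :
    G.lw L ≤ 6 := (lw_le L hL h).trans (le_of_eq hz)

end WG

end Pool.Agent.Lib.MP_e95c01_co.W
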