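import Pool.Agent.Lib.MP_e95c01_co.W.Basic

/-!
# Weighted class graphs: splitting of neighbourhoods and the module statements
-/

namespace Pool.Agent.Lib.MP_e95c01_co.W

variable {C : Type} [Fintype C] [DecidableEq C]

namespace WG

/-- `k(z)` = number of class nodes adjacent to `z` -/
def k (G : WG C) (z : C) : ℕ := G.t z + G.q z

/-- every class node adjacent to `x` has `k ≤ 3` -/
def Small (G : WG C) (x : C) : Prop := ∀ z ∈ G.nb x, G.Cls z → G.t z + G.q z ≤ 3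

theorem not_hub_of_cls {G : WG C} {z : C} (h : G.Cls z) : ¬ G.Hub z := fun h1 => h1 h

/-- the neighbours of `z`, sorted by kind -/
theorem split (G : WG C) (z : C) : ∃ Lt Lq Le : List C,
    (Lt ++ (Lq ++ Le)).Nodup ∧ Lt.length = G.t z ∧ Lq.length = G.q z ∧ Le.length = G.e z ∧
    (∀ y, y ∈ Lt ↔ y ∈ G.nb z ∧ G.Low y) ∧ (∀ y, y ∈ Lq ↔ y ∈ G.nb z ∧ G.Pr y) ∧
    (∀ y, y ∈ Le ↔ y ∈ G.nb z ∧ G.Hub y) := by
  refine ⟨((G.nb z).filter fun y => G.Low y).toList, ((G.nb z).filter fun y => G.Pr y).toList,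
    ((G.nb z).filter fun y => G.Hub y).toList, ?_, by simp [t], by simp [q], by simp [e],
    by simp, by simp, by simp⟩
  rw [List.nodup_append, List.nodup_append]
  refine ⟨Finset.nodup_toList _, ⟨Finset.nodup_toList _, Finset.nodup_toList _, ?_⟩, ?_⟩
  · intro a ha b hb hab
    simp only [Finset.mem_toList, Finset.mem_filter] at ha hb
    subst hab
    exact hb.2 (Pr.cls ha.2)
  · intro a ha b hb hab
    simp only [Finset.mem_toList, Finset.mem_filter, List.mem_append] at ha hb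
    subst hab
    rcases hb with hb | hb
    · have h1 := ha.2.1
      have h2 : G.w a = 2 := hb.2
      omega
    · exact hb.2 ha.2.2

/-- `wt (nb z) = t + 2 q + e` -/
theorem count (G : WG C) (z : C) : G.t z + 2 * G.q z + G.e z = G.wt (G.nb z) := by
  have h1 : ∀ y ∈ G.nb z, G.w y = (if G.Low y then 1 else 0) + (if G.Pr y then 2 else 0) +
      (if G.Hub y then 1 else 0) := by
    intro y _
    rcases G.cases y with h | h | h
    · have h1 : ¬ G.Pr y := by intro h2; have := h.1; have h3 : G.w y = 2 := h2; omega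
      have h2 : ¬ G.Hub y := fun h2 => h2 h.2
      rw [if_pos h, if_neg h1, if_neg h2, h.1]
    · have h1 : ¬ G.Low y := by intro h2; have := h2.1; have h3 : G.w y = 2 := h; omega
      have h2 : ¬ G.Hub y := fun h2 => h2 h.cls
      rw [if_pos h, if_neg h1, if_neg h2]; exact h
    · have h1 : ¬ G.Low y := fun h2 => h h2.2
      have h2 : ¬ G.Pr y := fun h2 => h h2.cls
      rw [if_pos h, if_neg h1, if_neg h2]; exact h.w
  rw [wt, Finset.sum_congr rfl h1, Finset.sum_add_distrib, Finset.sum_add_distrib,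
    ← Finset.sum_filter, ← Finset.sum_filter, ← Finset.sum_filter]
  simp [t, q, e, mul_comm]

/-! ### Statements of the modules -/

/-- every pair has at least two low neighbours, and no pair is of type (2,0,4) -/
def StPair (G : WG C) : Prop := ∀ z, G.Pr z → 2 ≤ G.t z ∧ ¬ (G.t z = 2 ∧ G.q z = 0)

/-- a low vertex has at most two neighbouring pairs; every class node has `k ≥ 2` -/
def StLow (G : WG C) : Prop := (∀ z, G.Low z → G.q z ≤ 2) ∧ ∀ z, G.Cls z → 2 ≤ G.t z + G.q z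

/-- Lemma U -/
def StU (G : WG C) : Prop := ∀ l Q1 Q2 x y, G.Low l → G.Pr Q1 → G.Pr Q2 → G.Hub x →
  [Q1, Q2, x, y].Nodup → Q1 ∈ G.nb l → Q2 ∈ G.nb l → x ∈ G.nb l → y ∈ G.nb l →
  Q2 ∈ G.nb Q1 → x ∈ G.nb Q1 → ¬ G.t Q1 + G.q Q1 ≤ 3

/-- no two adjacent pairs in `D(x)` -/
def StAdj (G : WG C) : Prop := ∀ x Q Q', G.Hub x → G.Small x → G.Pr Q → G.Pr Q' → Q ∈ G.nb x →
  Q' ∈ G.nb x → Q' ∈ G.nb Q → False

/-- T3, T7, T9 do not occur in `D(x)` (T7 and T9 because their partner also has share `≥ 1/2`) -/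
def StT3 (G : WG C) : Prop := ∀ x l, G.Hub x → G.Small x → G.Low l → l ∈ G.nb x →
  ¬ (G.t l = 0 ∧ G.q l = 2)

/-- a low `z ∈ D(x)` with `q z = 0`, `k ≤ 3` has a low neighbour in `D(x)` with at least two low
neighbours -/
def StQ0 (G : WG C) : Prop := ∀ x z, G.Low z → z ∈ G.nb x → G.q z = 0 →
  ∃ d, G.Low d ∧ d ∈ G.nb z ∧ d ∈ G.nb x ∧ 2 ≤ G.t d

/-- T4 low vertices in `D(x)`, first part: the two pairs are adjacent -/
def StT4a (G : WG C) : Prop := ∀ x l Q1 Q2, G.Hub x → G.Small x → G.Low l → l ∈ G.nb x →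
  G.t l = 1 → G.Pr Q1 → Q1 ∈ G.nb l → G.Pr Q2 → Q2 ∈ G.nb l → Q1 ≠ Q2 → Q2 ∈ G.nb Q1

/-- T4 low vertices in `D(x)`, second part -/
def StT4b (G : WG C) : Prop := ∀ x l, G.Hub x → G.Small x → G.Low l → l ∈ G.nb x →
  G.t l = 1 → G.q l = 2 →
  (∀ Q, G.Pr Q → Q ∈ G.nb l → Q ∉ G.nb x) ∧
  ∃ l' Q1, G.Low l' ∧ l' ∈ G.nb l ∧ l' ∈ G.nb x ∧ G.t l' = 2 ∧ G.q l' = 1 ∧ G.Pr Q1 ∧
    Q1 ∈ G.nb l ∧ Q1 ∈ G.nb l'

/-- at most one T4 low vertex per partner -/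
def StT4c (G : WG C) : Prop := ∀ x l s l' Q1, G.Hub x → G.Low l → G.Low s → l ≠ s →
  l ∈ G.nb x → s ∈ G.nb x → G.t l = 1 → G.q l = 2 → G.t s = 1 → G.q s = 2 →
  G.Low l' → l' ∈ G.nb x → l' ∈ G.nb l → l' ∈ G.nb s → G.q l' = 1 →
  G.Pr Q1 → Q1 ∈ G.nb l' → Q1 ∈ G.nb l → Q1 ∈ G.nb s →
  (∀ Q, G.Pr Q → Q ∈ G.nb l → Q ≠ Q1 → Q ∈ G.nb Q1) →
  (∀ Q, G.Pr Q → Q ∈ G.nb s → Q ≠ Q1 → Q ∈ G.nb Q1) → False

/-- a T2 pair `Q` in `D(x)` and a T6 low vertex in `D(x) ∩ D(Q)` is impossible -/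
def StT2 (G : WG C) : Prop := ∀ x Q l, G.Hub x → G.Pr Q → Q ∈ G.nb x → G.t Q = 2 →
  G.q Q = 1 → G.Low l → l ∈ G.nb x → l ∈ G.nb Q → G.t l = 1 → G.q l = 1 → False

/-- the last case: `D(x)` = {T6 low vertex, T5 pair} -/
def StT56 (G : WG C) : Prop := ∀ x l Q, G.Hub x → G.Pr Q → Q ∈ G.nb x → G.t Q = 3 →
  G.q Q = 0 → G.Low l → l ∈ G.nb x → l ∈ G.nb Q → G.t l = 1 → G.q l = 1 →
  (∀ z ∈ G.nb x, G.Cls z → z = l ∨ z = Q) → False

/-- the hub claim -/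
def StHub (G : WG C) : Prop := ∀ x, G.Hub x →
  1 ≤ ∑ z ∈ (G.nb x).filter (fun z => G.Cls z), G.g z

/-- the final inequality -/
def StFin (G : WG C) : Prop :=
  ∑ z, G.w z ≤ 3 * (Finset.univ.filter fun z => G.Low z).card

end WG

end Pool.Agent.Lib.MP_e95c01_co.W
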