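import Pool.Agent.Lib.MP_e95c01_co.Basic
import Pool.Agent.Lib.MP_e95c01_co.W.Stmts

/-!
# From graphs to weighted class graphs: statements
-/

namespace Pool.Agent.Lib.MP_e95c01_co.W

/-- `a`, `b` are adjacent twins of degree 7: adjacent, of degree 7, with the same other
neighbours. -/
def TwinPair {V : Type} (G : SimpleGraph V) (a b : V) : Prop :=
  G.Adj a b ∧ (G.neighborSet a).ncard = 7 ∧ ∀ v, v ≠ a → v ≠ b → (G.Adj a v ↔ G.Adj b v)

/-- The vertices `x`, `y` are neighbours of a common vertex of degree 6, or of a common twin pair of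
degree 7 (and outside of this pair). -/
def Covered {V : Type} (G : SimpleGraph V) (x y : V) : Prop :=
  (∃ a, (G.neighborSet a).ncard = 6 ∧ G.Adj a x ∧ G.Adj a y) ∨
  ∃ a b, TwinPair G a b ∧ x ≠ b ∧ y ≠ b ∧ G.Adj a x ∧ G.Adj a y

/-- the class graph of a covered 6-connected graph -/
def StTransfer : Prop := ∀ (V : Type) [Finite V] (G : SimpleGraph V), KConn 6 G →
  12 ≤ Nat.card V → (∀ x y, G.Adj x y → Covered G x y) →
  ∃ (C : Type) (_ : Fintype C) (_ : DecidableEq C) (W : WG C),
    ∑ z, W.w z = Nat.card V ∧ (Finset.univ.filter fun z => W.Low z).card ≤ numDeg 6 G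

/-- all statements on class graphs -/
def StAll : Prop := ∀ (C : Type) [Fintype C] [DecidableEq C] (W : WG C), W.StFin

/-- the theorem -/
theorem main_of (hT : StTransfer) (hA : StAll) (V : Type) [Finite V] (G : SimpleGraph V)
    (hG : KConn 6 G) (hn : 12 ≤ Nat.card V) (hc : ∀ x y, G.Adj x y → Covered G x y) :
    Nat.card V ≤ 3 * numDeg 6 G := by
  obtain ⟨C, i1, i2, W, h1, h2⟩ := hT V G hG hn hc
  have h3 : ∑ z, W.w z ≤ 3 * (Finset.univ.filter fun z => W.Low z).card := hA C W
  omega

end Pool.Agent.Lib.MP_e95c01_co.W
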