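import Pool.Agent.Lib.MP_e95c01_co.W.StmtsT

/-!
# From graphs to weighted class graphs
-/

namespace Pool.Agent.Lib.MP_e95c01_co.W

namespace TR98

open scoped Classical in
/-- closed neighbourhood -/
noncomputable def CN {V : Type} [Fintype V] (G : SimpleGraph V) (a : V) : Finset V :=
  Finset.univ.filter fun b => b = a ∨ G.Adj a b

open scoped Classical in
/-- the class of a vertex -/
noncomputable def cl {V : Type} [Fintype V] (G : SimpleGraph V) (a : V) : Finset V :=
  Finset.univ.filter fun b => a = b ∨ ((CN G a).card = 8 ∧ CN G a = CN G b)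

section
variable {V : Type} [Fintype V] {G : SimpleGraph V}

theorem mem_CN {a b : V} : b ∈ CN G a ↔ b = a ∨ G.Adj a b := by simp [CN]

theorem mem_cl {a b : V} : b ∈ cl G a ↔ a = b ∨ ((CN G a).card = 8 ∧ CN G a = CN G b) := by
  simp [cl]

theorem CN_comm {a b : V} : b ∈ CN G a ↔ a ∈ CN G b := by
  rw [mem_CN, mem_CN, eq_comm, G.adj_comm]

theorem self_CN (a : V) : a ∈ CN G a := by simp [mem_CN]

theorem self_cl (a : V) : a ∈ cl G a := by simp [mem_cl]

theorem cl_CN {a b : V} (h : b ∈ cl G a) : CN G a = CN G b := by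
  rw [mem_cl] at h
  rcases h with rfl | h
  · rfl
  · exact h.2

theorem cl_eq {a b : V} (h : b ∈ cl G a) : cl G b = cl G a := by
  have h0 := cl_CN h
  rw [mem_cl] at h
  rcases h with rfl | h
  · rfl
  · ext v
    rw [mem_cl, mem_cl, ← h0]
    constructor
    · rintro (rfl | h1)
      · exact Or.inr ⟨h.1, h0⟩
      · exact Or.inr h1
    · rintro (rfl | h1)
      · exact Or.inr ⟨h.1, rfl⟩
      · exact Or.inr h1

theorem cl_sub (a : V) : cl G a ⊆ CN G a := by
  intro b hb
  rw [cl_CN hb]
  exact self_CN b

theorem ncard_add (a : V) : (CN G a).card = (G.neighborSet a).ncard + 1 := by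
  classical
  have h1 : (CN G a : Set V) = insert a (G.neighborSet a) := by
    ext v
    simp [mem_CN]
  rw [← Set.ncard_coe_finset, h1, Set.ncard_insert_of_notMem (by simp) (Set.toFinite _)]

theorem tw_CN {a b : V} (h : TwinPair G a b) : CN G a = CN G b := by
  ext v
  rw [mem_CN, mem_CN]
  by_cases h1 : v = a
  · subst h1; simp [h.1.symm]
  by_cases h2 : v = b
  · subst h2; simp [h.1]
  · simp [h1, h2, h.2.2 v h1 h2]

theorem tw_cl {a b : V} (h : TwinPair G a b) : b ∈ cl G a := by
  rw [mem_cl]
  exact Or.inr ⟨by rw [ncard_add, h.2.1], tw_CN h⟩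

/-- the cut lemma -/
theorem cut (hG : KConn 6 G) {A B : Finset V} (hA : A.Nonempty)
    (hcl : ∀ u ∈ A, ∀ v, G.Adj u v → v ∈ A ∨ v ∈ B) (hB : B.card ≤ 5)
    (hAB : A.card + B.card < Nat.card V) : False := by
  classical
  obtain ⟨a, ha⟩ := hA
  obtain ⟨b, hb⟩ : ∃ b, b ∉ A ∪ B := by
    by_contra hcon
    push Not at hcon
    have h1 : (Finset.univ : Finset V) ⊆ A ∪ B := fun v _ => hcon v
    have h2 := Finset.card_le_card h1
    have h3 := Finset.card_union_le A B
    rw [Finset.card_univ, ← Nat.card_eq_fintype_card] at h2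
    omega
  rw [Finset.mem_union, not_or] at hb
  let S : Set V := ((B \ A : Finset V) : Set V)
  have hS : S.ncard < 6 := by
    rw [Set.ncard_coe_finset]
    have := Finset.card_le_card (Finset.sdiff_subset (s := B) (t := A))
    omega
  have hc := (hG.2 S hS).preconnected
  have haS : a ∈ Sᶜ := by simp [S, ha]
  have hbS : b ∈ Sᶜ := by simp [S, hb.2]
  obtain ⟨p⟩ := hc ⟨a, haS⟩ ⟨b, hbS⟩
  have key : ∀ (u v : ↥(Sᶜ)) (_ : (G.induce Sᶜ).Walk u v), u.1 ∈ A → v.1 ∈ A := by
    intro u v q
    induction q with
    | nil => exact id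
    | @cons u w v hadj q ih =>
      intro hu
      apply ih
      have hadj' : G.Adj u.1 w.1 := hadj
      rcases hcl _ hu _ hadj' with h2 | h2
      · exact h2
      · by_contra h3
        exact w.2 (by simp [S, h2, h3])
  exact hb.1 (key _ _ p ha)

variable (hG : KConn 6 G) (hn : 12 ≤ Nat.card V)

include hG hn

theorem seven_le (a : V) : 7 ≤ (CN G a).card := by
  classical
  by_contra hcon
  apply cut hG (A := {a}) (B := (CN G a).erase a) ⟨a, by simp⟩
  · intro u hu v hv
    rw [Finset.mem_singleton] at hu
    subst hu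
    right
    rw [Finset.mem_erase, mem_CN]
    exact ⟨hv.ne', Or.inr hv⟩
  · rw [Finset.card_erase_of_mem (self_CN a)]
    omega
  · rw [Finset.card_erase_of_mem (self_CN a), Finset.card_singleton]
    omega

theorem cl_two (a : V) : (cl G a).card = 1 ∨ ((cl G a).card = 2 ∧ (CN G a).card = 8) := by
  classical
  have h1 : 1 ≤ (cl G a).card := Finset.card_pos.2 ⟨a, self_cl a⟩
  by_cases h8 : (CN G a).card = 8
  · have h2 : (CN G a \ cl G a).card + (cl G a).card = 8 := by
      rw [Finset.card_sdiff_add_card_eq_card (cl_sub a), h8]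
    have h3 : ¬ 3 ≤ (cl G a).card := by
      intro h3
      apply cut hG (A := cl G a) (B := CN G a \ cl G a) ⟨a, self_cl a⟩
      · intro u hu v hv
        by_cases h4 : v ∈ cl G a
        · exact Or.inl h4
        · right
          rw [Finset.mem_sdiff, cl_CN hu, mem_CN]
          exact ⟨Or.inr hv, h4⟩
      · omega
      · omega
    omega
  · left
    have h2 : cl G a = {a} := by
      ext b
      rw [mem_cl, Finset.mem_singleton]
      constructor
      · rintro (h | h)
        · exact h.symm
        · exact absurd h.1 h8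
      · intro h
        exact Or.inl h.symm
    rw [h2, Finset.card_singleton]

end

/-! ### the classes -/

section
variable {V : Type} [Fintype V] {G : SimpleGraph V}

/-- the type of classes -/
abbrev Cs {V : Type} [Fintype V] (G : SimpleGraph V) : Type := {S : Finset V // ∃ a, cl G a = S}

/-- the class of a vertex -/
noncomputable def mk {V : Type} [Fintype V] (G : SimpleGraph V) (a : V) : Cs G := ⟨cl G a, a, rfl⟩

theorem mk_surj (S : Cs G) : ∃ a, mk G a = S := by
  obtain ⟨S, a, ha⟩ := S
  exact ⟨a, Subtype.ext ha⟩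

theorem mk_eq {a b : V} : mk G b = mk G a ↔ b ∈ cl G a := by
  constructor
  · intro h
    have h1 : cl G b = cl G a := congrArg Subtype.val h
    rw [← h1]
    exact self_cl b
  · intro h
    exact Subtype.ext (cl_eq h)

theorem mem_mk {a : V} {S : Cs G} : a ∈ S.1 ↔ mk G a = S := by
  obtain ⟨b, rfl⟩ := mk_surj S
  rw [mk_eq]
  rfl

open scoped Classical in
/-- the adjacent classes -/
noncomputable def nbc {V : Type} [Fintype V] (G : SimpleGraph V) (S : Cs G) : Finset (Cs G) :=
  Finset.univ.filter fun T => T ≠ S ∧ ∃ a ∈ S.1, ∃ b ∈ T.1, G.Adj a b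

theorem mem_nbc {a b : V} : mk G b ∈ nbc G (mk G a) ↔ mk G b ≠ mk G a ∧ G.Adj a b := by
  simp only [nbc, Finset.mem_filter, Finset.mem_univ, true_and]
  constructor
  · rintro ⟨h, a', ha, b', hb, hab⟩
    refine ⟨h, ?_⟩
    have h1 : b' ∈ CN G a := by
      rw [cl_CN (G := G) (a := a) (b := a') ha, mem_CN]
      exact Or.inr hab
    have h2 : b ∈ CN G a := by
      rw [CN_comm, cl_CN (G := G) (a := b) (b := b') hb, ← CN_comm]
      exact h1
    rw [mem_CN] at h2
    rcases h2 with rfl | h2
    · exact absurd rfl h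
    · exact h2
  · rintro ⟨h, hab⟩
    exact ⟨h, a, self_cl a, b, self_cl b, hab⟩

open scoped Classical in
theorem wt_card (M : Finset (Cs G)) : ∑ T ∈ M, T.1.card = (M.biUnion fun T => T.1).card := by
  rw [Finset.card_biUnion]
  intro S _ T _ h
  rw [Function.onFun, Finset.disjoint_left]
  intro v h1 h2
  rw [mem_mk] at h1 h2
  exact h (h1.symm.trans h2)

open scoped Classical in
theorem biUnion_nbc (a : V) : ((nbc G (mk G a)).biUnion fun T => T.1) = CN G a \ cl G a := by
  ext v
  rw [Finset.mem_biUnion, Finset.mem_sdiff]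
  constructor
  · rintro ⟨T, hT, hv⟩
    rw [mem_mk] at hv
    subst hv
    rw [mem_nbc] at hT
    rw [mem_CN]
    exact ⟨Or.inr hT.2, fun h => hT.1 (mk_eq.2 h)⟩
  · rintro ⟨h1, h2⟩
    refine ⟨mk G v, ?_, self_cl v⟩
    rw [mem_nbc]
    refine ⟨fun h => h2 (mk_eq.1 h), ?_⟩
    rw [mem_CN] at h1
    rcases h1 with rfl | h1
    · exact absurd (self_cl v) h2
    · exact h1

theorem sum_nbc (a : V) : ∑ T ∈ nbc G (mk G a), T.1.card + (cl G a).card = (CN G a).card := by
  classical
  rw [wt_card, biUnion_nbc, Finset.card_sdiff_add_card_eq_card (cl_sub a)]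

open scoped Classical in
/-- the class graph -/
noncomputable def wg (hG : KConn 6 G) (hn : 12 ≤ Nat.card V)
    (hc : ∀ x y, G.Adj x y → Covered G x y) : WG (Cs G) where
  nb := nbc G
  w := fun S => S.1.card
  irr := by
    intro S
    obtain ⟨a, rfl⟩ := mk_surj S
    rw [mem_nbc]
    exact fun h => h.1 rfl
  sym := by
    intro S T
    obtain ⟨a, rfl⟩ := mk_surj S
    obtain ⟨b, rfl⟩ := mk_surj T
    rw [mem_nbc, mem_nbc]
    exact fun h => ⟨h.1.symm, h.2.symm⟩
  w12 := by
    intro S
    obtain ⟨a, rfl⟩ := mk_surj S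
    rcases cl_two hG hn a with h | h
    · exact Or.inl h
    · exact Or.inr h.1
  deg := by
    intro S
    obtain ⟨a, rfl⟩ := mk_surj S
    have h1 := sum_nbc (G := G) a
    have h2 := seven_le hG hn a
    rcases cl_two hG hn a with h | h <;> omega
  pr := by
    intro S
    obtain ⟨a, rfl⟩ := mk_surj S
    intro h0
    have h1 := sum_nbc (G := G) a
    have h0' : (cl G a).card = 2 := h0
    rcases cl_two hG hn a with h | h <;> omega
  conn := by
    intro S T hS hST h6
    by_contra hcon
    have e1 := wt_card S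
    have e2 := wt_card T
    apply cut hG (A := S.biUnion fun z => z.1) (B := T.biUnion fun z => z.1)
    · obtain ⟨z, hz⟩ := hS
      obtain ⟨a, rfl⟩ := mk_surj z
      exact ⟨a, Finset.mem_biUnion.2 ⟨_, hz, self_cl a⟩⟩
    · intro u hu v hv
      rw [Finset.mem_biUnion] at hu
      obtain ⟨z, hz, hu⟩ := hu
      rw [mem_mk] at hu
      subst hu
      by_cases h : mk G v = mk G u
      · left
        rw [Finset.mem_biUnion]
        exact ⟨_, hz, mem_mk.2 h⟩
      · have h1 := hST _ hz (mem_nbc.2 ⟨h, hv⟩)
        rw [Finset.mem_union] at h1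
        rcases h1 with h1 | h1
        · exact Or.inl (Finset.mem_biUnion.2 ⟨_, h1, self_cl v⟩)
        · exact Or.inr (Finset.mem_biUnion.2 ⟨_, h1, self_cl v⟩)
    · omega
    · omega
  cov := by
    intro S T h
    obtain ⟨x, rfl⟩ := mk_surj S
    obtain ⟨y, rfl⟩ := mk_surj T
    rw [mem_nbc] at h
    rcases hc x y h.2 with ⟨a, h1, h2, h3⟩ | ⟨a, b, h1, h2, h3, h4, h5⟩
    · have e1 := ncard_add (G := G) a
      have e2 := sum_nbc (G := G) a
      have e3 : (cl G a).card = 1 := by
        rcases cl_two hG hn a with h | h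
        · exact h
        · omega
      have e4 : ∀ v, v ∈ cl G a → v = a := by
        intro v hv
        obtain ⟨c, hcc⟩ := Finset.card_eq_one.1 e3
        have h6 := self_cl (G := G) a
        rw [hcc, Finset.mem_singleton] at h6 hv
        rw [hv, h6]
      refine ⟨mk G a, by omega, ?_, ?_⟩
      · rw [mem_nbc]
        refine ⟨fun h => ?_, h2⟩
        have := e4 x (mk_eq.1 h)
        subst this
        exact G.irrefl h2
      · rw [mem_nbc]
        refine ⟨fun h => ?_, h3⟩
        have := e4 y (mk_eq.1 h)
        subst this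
        exact G.irrefl h3
    · have e1 := ncard_add (G := G) a
      have e2 := sum_nbc (G := G) a
      have e3 := tw_cl h1
      have hab : a ≠ b := h1.1.ne
      have e4 : (cl G a).card = 2 := by
        have h6 : ({a, b} : Finset V) ⊆ cl G a := by
          intro v hv
          rw [Finset.mem_insert, Finset.mem_singleton] at hv
          rcases hv with rfl | rfl
          · exact self_cl v
          · exact e3
        have h7 := Finset.card_le_card h6
        rw [Finset.card_pair hab] at h7
        rcases cl_two hG hn a with h | h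
        · omega
        · exact h.1
      have e5 : ∀ v, v ∈ cl G a → v = a ∨ v = b := by
        intro v hv
        by_contra hcon
        push Not at hcon
        have h6 : ({a, b, v} : Finset V) ⊆ cl G a := by
          intro v hv
          rw [Finset.mem_insert, Finset.mem_insert, Finset.mem_singleton] at hv
          rcases hv with rfl | rfl | rfl
          · exact self_cl v
          · exact e3
          · assumption
        have h7 := Finset.card_le_card h6
        rw [Finset.card_eq_three.2 ⟨a, b, v, hab, hcon.1.symm, hcon.2.symm, rfl⟩] at h7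
        omega
      refine ⟨mk G a, by have := h1.2.1; omega, ?_, ?_⟩
      · rw [mem_nbc]
        refine ⟨fun h => ?_, h4⟩
        rcases e5 x (mk_eq.1 h) with rfl | rfl
        · exact G.irrefl h4
        · exact h2 rfl
      · rw [mem_nbc]
        refine ⟨fun h => ?_, h5⟩
        rcases e5 y (mk_eq.1 h) with rfl | rfl
        · exact G.irrefl h5
        · exact h3 rfl

end

end TR98

open TR98 in
theorem tr_98 : StTransfer := by
  intro V _ G hG hn hc
  classical
  have := Fintype.ofFinite V
  refine ⟨Cs G, inferInstance, inferInstance, wg hG hn hc, ?_, ?_⟩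
  · have h1 : ∑ z : Cs G, z.1.card = Nat.card V := by
      rw [wt_card, Nat.card_eq_fintype_card, ← Finset.card_univ]
      congr 1
      ext v
      simp only [Finset.mem_biUnion, Finset.mem_univ, true_and, iff_true]
      exact ⟨mk G v, self_cl v⟩
    exact h1
  · have h1 : numDeg 6 G = (Finset.univ.filter fun v => (CN G v).card = 7).card := by
      rw [numDeg, ← Set.ncard_coe_finset]
      congr 1
      ext v
      have := ncard_add (G := G) v
      simp only [Set.mem_ofPred_eq, Finset.coe_filter, Finset.mem_univ, true_and]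
      omega
    rw [h1]
    apply Finset.card_le_card_of_surjOn (mk G)
    intro z hz
    obtain ⟨a, rfl⟩ := mk_surj z
    rw [Finset.mem_coe, Finset.mem_filter] at hz
    have h2 : (cl G a).card = 1 := hz.2.1
    have h3 : ∑ T ∈ nbc G (mk G a), T.1.card = 6 := hz.2.2
    have h4 := sum_nbc (G := G) a
    refine ⟨a, ?_, rfl⟩
    rw [Finset.mem_coe, Finset.mem_filter]
    exact ⟨Finset.mem_univ _, by omega⟩

end Pool.Agent.Lib.MP_e95c01_co.W
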